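import Pool.Agent.Lib_helper19.Semantics

/-! # Models of BASIC: the standard numbers form an initial segment, bounded formulas are absolute -/

namespace Pool.Agent.H19

/-- The facts about a model that we use, in plain form. -/
structure Good {M : Type} (A : Str M) : Prop where
  b1 : ∀ x y, A.le y x → A.le y (A.succ x)
  b2 : ∀ x, x ≠ A.succ x
  b3 : ∀ x, A.le A.zero x
  b4 : ∀ x y, (A.le x y ∧ x ≠ y) ↔ A.le (A.succ x) y
  b6 : ∀ x y, A.le y x ∨ A.le x y
  b7 : ∀ x y, A.le x y → A.le y x → x = y
  b9 : A.len A.zero = A.zero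
  b13 : ∀ x y, A.len (A.smash x y) = A.succ (A.mul (A.len x) (A.len y))
  b14 : ∀ y, A.smash A.zero y = A.succ A.zero
  b15 : ∀ x, x ≠ A.zero →
    A.smash (A.succ A.zero) (A.mul (A.succ (A.succ A.zero)) x) =
      A.mul (A.succ (A.succ A.zero)) (A.smash (A.succ A.zero) x) ∧
    A.smash (A.succ A.zero) (A.succ (A.mul (A.succ (A.succ A.zero)) x)) =
      A.mul (A.succ (A.succ A.zero)) (A.smash (A.succ A.zero) x)
  b16 : ∀ x y, A.smash x y = A.smash y x
  b18 : ∀ x y z u, A.len x = A.add (A.len u) (A.len z) →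
    A.smash x y = A.mul (A.smash u y) (A.smash z y)
  b19 : ∀ x y, A.le x (A.add x y)
  b22 : ∀ x, A.add x A.zero = x
  b23 : ∀ x y, A.add x (A.succ y) = A.succ (A.add x y)
  b26 : ∀ x, A.mul x A.zero = A.zero
  b27 : ∀ x y, A.mul x (A.succ y) = A.add (A.mul x y) x
  b30 : ∀ x y z, A.le (A.succ A.zero) x → (A.le (A.mul x y) (A.mul x z) ↔ A.le y z)
  b31 : ∀ x, x ≠ A.zero → A.len x = A.succ (A.len (A.half x))
  b32 : ∀ x y, x = A.half y ↔ (A.mul (A.succ (A.succ A.zero)) x = y ∨
    A.succ (A.mul (A.succ (A.succ A.zero)) x) = y)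

theorem good_of_models {M : Type} {A : Str M} (h : A.Models S12) : Good A := by
  have hb : ∀ φ ∈ basicList, ∀ v, φ.sat A v := fun φ hφ v => h φ (Or.inl hφ) v
  simp only [basicList, List.mem_cons, List.not_mem_nil, or_false, forall_eq_or_imp,
    forall_eq] at hb
  obtain ⟨h1, h2, h3, h4, h5, h6, h7, h8, h9, h10, h11, h12, h13, h14, h15, h16, h17, h18, h19,
    h20, h21, h22, h23, h24, h25, h26, h27, h28, h29, h30, h31, h32⟩ := hb
  simp only [Fm.sat_neg, Fm.sat_and, Fm.sat_or, Fm.sat_iff, Fm.sat, Tm.val, Tm.two] at *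
  -- assignments with prescribed values
  let v (x y z u : M) : ℕ → M := scons x (scons y (scons z (scons u fun _ => A.zero)))
  constructor
  · intro x y; exact h1 (v x y x x)
  · intro x; exact h2 (v x x x x)
  · intro x; exact h3 (v x x x x)
  · intro x y; exact h4 (v x y x x)
  · intro x y; exact h6 (v x y x x)
  · intro x y h h'; exact h7 (v x y x x) ⟨h, h'⟩
  · exact h9 (fun _ => A.zero)
  · intro x y; exact h13 (v x y x x)
  · intro y; exact h14 (v y y y y)
  · intro x; exact h15 (v x x x x)
  · intro x y; exact h16 (v x y x x)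
  · intro x y z u; exact h18 (v x y z u)
  · intro x y; exact h19 (v x y x x)
  · intro x; exact h22 (v x x x x)
  · intro x y; exact h23 (v x y x x)
  · intro x; exact h26 (v x x x x)
  · intro x y; exact h27 (v x y x x)
  · intro x y z; exact h30 (v x y z x)
  · intro x; exact h31 (v x x x x)
  · intro x y; exact h32 (v x y x x)

section
variable {M : Type} (A : Str M)

/-- The standard numbers of a structure. -/
def Str.nat : ℕ → M
  | 0 => A.zero
  | n + 1 => A.succ (Str.nat n)

variable {A} (g : Good A)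
include g

theorem Good.add (m n : ℕ) : A.add (A.nat m) (A.nat n) = A.nat (m + n) := by
  induction n with
  | zero => exact g.b22 _
  | succ n ih =>
    show A.add (A.nat m) (A.succ (A.nat n)) = A.succ (A.nat (m + n))
    rw [g.b23, ih]

theorem Good.mul (m n : ℕ) : A.mul (A.nat m) (A.nat n) = A.nat (m * n) := by
  induction n with
  | zero => exact g.b26 _
  | succ n ih =>
    show A.mul (A.nat m) (A.succ (A.nat n)) = A.nat (m * n + m)
    rw [g.b27, ih, g.add]

theorem Good.le_of_le {m n : ℕ} (h : m ≤ n) : A.le (A.nat m) (A.nat n) := by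
  obtain ⟨k, rfl⟩ := Nat.exists_eq_add_of_le h
  rw [← g.add]; exact g.b19 _ _

theorem Good.ne_of_lt {m n : ℕ} (h : m < n) : A.nat m ≠ A.nat n :=
  ((g.b4 (A.nat m) (A.nat n)).2 (g.le_of_le (m := m + 1) h)).2

theorem Good.inj {m n : ℕ} (h : A.nat m = A.nat n) : m = n := by
  rcases lt_trichotomy m n with h1 | h1 | h1
  · exact absurd h (g.ne_of_lt h1)
  · exact h1
  · exact absurd h.symm (g.ne_of_lt h1)

theorem Good.le_iff {m n : ℕ} : A.le (A.nat m) (A.nat n) ↔ m ≤ n := by
  constructor
  · intro h
    by_contra hc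
    have h1 : n < m := by omega
    exact g.ne_of_lt h1 (g.b7 _ _ (g.le_of_le h1.le) h)
  · exact g.le_of_le

theorem Good.initial {n : ℕ} {x : M} (h : A.le x (A.nat n)) : ∃ k, k ≤ n ∧ x = A.nat k := by
  induction n with
  | zero => exact ⟨0, le_rfl, g.b7 _ _ h (g.b3 x)⟩
  | succ n ih =>
    by_cases hx : x = A.nat (n + 1)
    · exact ⟨n + 1, le_rfl, hx⟩
    · rcases g.b6 x (A.nat n) with h1 | h1
      · by_cases hxn : A.nat n = x
        · exact ⟨n, by omega, hxn.symm⟩
        · have h2 : A.le (A.nat (n + 1)) x := (g.b4 _ _).1 ⟨h1, hxn⟩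
          exact absurd (g.b7 _ _ h h2) hx
      · obtain ⟨k, hk, hk'⟩ := ih h1
        exact ⟨k, by omega, hk'⟩

theorem Good.half (n : ℕ) : A.half (A.nat n) = A.nat (n / 2) := by
  symm
  rw [g.b32]
  have h2 : A.mul (A.succ (A.succ A.zero)) (A.nat (n / 2)) = A.nat (2 * (n / 2)) :=
    g.mul 2 (n / 2)
  rw [h2]
  rcases Nat.mod_two_eq_zero_or_one n with h | h
  · left; congr 1; omega
  · right
    show A.nat (2 * (n / 2) + 1) = A.nat n
    congr 1; omega

theorem Good.len (n : ℕ) : A.len (A.nat n) = A.nat n.size := by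
  induction n using Nat.strong_induction_on with
  | _ n ih =>
    by_cases hn : n = 0
    · subst hn
      rw [Nat.size_zero]; exact g.b9
    · have h0 : A.nat n ≠ A.zero := fun h => hn (g.inj (n := 0) h)
      rw [g.b31 _ h0, g.half, ih (n / 2) (by omega), Nat.size_eq_size_half hn]
      rfl

theorem Good.smash_one_one : A.smash (A.nat 1) (A.nat 1) = A.nat 2 := by
  have h1 : A.nat 1 ≠ A.zero := fun h => by simpa using g.inj (m := 1) (n := 0) h
  have e1 : A.smash (A.nat 1) (A.nat 2) = A.mul (A.nat 2) (A.smash (A.nat 1) (A.nat 1)) := by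
    have := (g.b15 (A.nat 1) h1).1
    have h2 : A.mul (A.succ (A.succ A.zero)) (A.nat 1) = A.nat 2 := g.mul 2 1
    rw [h2] at this
    exact this
  have e2 : A.smash (A.nat 2) (A.nat 1) =
      A.mul (A.smash (A.nat 1) (A.nat 1)) (A.smash (A.nat 1) (A.nat 1)) := by
    apply g.b18
    rw [g.len, g.len, g.add]; rfl
  have e3 : A.mul (A.smash (A.nat 1) (A.nat 1)) (A.smash (A.nat 1) (A.nat 1)) =
      A.mul (A.nat 2) (A.smash (A.nat 1) (A.nat 1)) := by
    rw [← e2, g.b16, e1]
  -- the value has length 2, hence is standard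
  have e4 : A.len (A.smash (A.nat 1) (A.nat 1)) = A.nat 2 := by
    rw [g.b13, g.len, g.mul]; rfl
  have hne : A.smash (A.nat 1) (A.nat 1) ≠ A.zero := by
    intro h
    rw [h, g.b9] at e4
    simpa using g.inj (m := 0) (n := 2) e4
  have hstd : ∃ k, A.smash (A.nat 1) (A.nat 1) = A.nat k := by
    have h5 : A.len (A.half (A.smash (A.nat 1) (A.nat 1))) = A.nat 1 := by
      have h6 := g.b31 _ hne
      rw [e4] at h6
      -- succ is injective
      have hs : ∀ a b, A.succ a = A.succ b → a = b := by
        intro a b hab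
        by_contra hc
        rcases g.b6 a b with h7 | h7
        · have h8 := (g.b4 b a).1 ⟨h7, fun h => hc h.symm⟩
          rw [← hab] at h8
          exact ((g.b4 a a).2 h8).2 rfl
        · have h8 := (g.b4 a b).1 ⟨h7, hc⟩
          rw [hab] at h8
          exact ((g.b4 b b).2 h8).2 rfl
      exact (hs _ _ h6).symm
    have hstd1 : ∀ x, A.len x = A.nat 1 → x = A.nat 1 := by
      intro x hx
      have hx0 : x ≠ A.zero := by
        intro h; rw [h, g.b9] at hx; simpa using g.inj (m := 0) (n := 1) hx
      have h6 := g.b31 _ hx0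
      rw [hx] at h6
      have hh : A.half x = A.zero := by
        by_contra hc
        have h7 := g.b31 _ hc
        rw [h7] at h6
        -- 1 = S (S y)
        have h8 : A.le (A.succ (A.succ (A.len (A.half (A.half x))))) (A.nat 1) := by
          rw [← h6]; exact g.le_of_le le_rfl
        obtain ⟨h9, h10⟩ := (g.b4 _ _).2 h8
        obtain ⟨k, hk, hk'⟩ := g.initial h9
        obtain ⟨h11, h12⟩ := (g.b4 _ _).2 h9
        obtain ⟨j, hj, hj'⟩ := g.initial h11
        rw [hj'] at h10 h12
        have : A.succ (A.nat j) = A.nat (j + 1) := rfl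
        rw [this] at h10
        interval_cases j
        · exact h10 rfl
        · exact h12 rfl
      have h7 := (g.b32 A.zero x).1 hh.symm
      rcases h7 with h7 | h7
      · rw [g.b26] at h7; exact absurd h7.symm hx0
      · rw [g.b26] at h7; exact h7.symm
    have h7 := hstd1 _ h5
    have h8 := (g.b32 (A.half (A.smash (A.nat 1) (A.nat 1))) (A.smash (A.nat 1) (A.nat 1))).1 rfl
    rw [h7] at h8
    have h9 : A.mul (A.succ (A.succ A.zero)) (A.nat 1) = A.nat 2 := g.mul 2 1
    rw [h9] at h8
    rcases h8 with h8 | h8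
    · exact ⟨2, h8.symm⟩
    · exact ⟨3, h8.symm⟩
  obtain ⟨k, hk⟩ := hstd
  rw [hk] at e3 hne ⊢
  rw [g.mul, g.mul] at e3
  have h5 := g.inj e3
  have h6 : k ≠ 0 := by rintro rfl; exact hne rfl
  have h7 : k = 2 := Nat.eq_of_mul_eq_mul_right (by omega) h5
  rw [h7]

theorem Good.smash_one (n : ℕ) : A.smash (A.nat 1) (A.nat n) = A.nat (2 ^ n.size) := by
  induction n using Nat.strong_induction_on with
  | _ n ih =>
    by_cases hn : n = 0
    · subst hn
      rw [g.b16, Nat.size_zero, pow_zero]
      exact g.b14 (A.nat 1)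
    · by_cases hn1 : n = 1
      · subst hn1
        rw [g.smash_one_one]; simp
      · have h0 : A.nat (n / 2) ≠ A.zero := fun h => by
          have := g.inj (n := 0) h
          omega
        have h1 := g.b15 _ h0
        have h2 : A.mul (A.succ (A.succ A.zero)) (A.nat (n / 2)) = A.nat (2 * (n / 2)) :=
          g.mul 2 (n / 2)
        have h3 : A.succ A.zero = A.nat 1 := rfl
        have h4 : A.succ (A.nat (2 * (n / 2))) = A.nat (2 * (n / 2) + 1) := rfl
        have h5 : ∀ x : ℕ, A.mul (A.succ (A.succ A.zero)) (A.nat x) = A.nat (2 * x) :=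
          fun x => g.mul 2 x
        rw [h2, h4, h3, ih (n / 2) (by omega)] at h1
        have h6 : A.mul (A.succ (A.nat 1)) (A.nat (2 ^ (n / 2).size)) =
            A.nat (2 * 2 ^ (n / 2).size) := h5 _
        rw [h6] at h1
        have h7 : 2 ^ n.size = 2 * 2 ^ (n / 2).size := by
          rw [Nat.size_eq_size_half hn]; ring
        rw [h7]
        rcases Nat.mod_two_eq_zero_or_one n with h | h
        · have h8 := h1.1
          rwa [show 2 * (n / 2) = n by omega] at h8
        · have h8 := h1.2
          rwa [show 2 * (n / 2) + 1 = n by omega] at h8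

theorem Good.smash (m n : ℕ) :
    A.smash (A.nat m) (A.nat n) = A.nat (2 ^ (m.size * n.size)) := by
  induction m using Nat.strong_induction_on with
  | _ m ih =>
    by_cases hm : m = 0
    · subst hm
      rw [Nat.size_zero, zero_mul, pow_zero]
      exact g.b14 (A.nat n)
    · have h1 : A.smash (A.nat m) (A.nat n) =
          A.mul (A.smash (A.nat (m / 2)) (A.nat n)) (A.smash (A.nat 1) (A.nat n)) := by
        apply g.b18
        rw [g.len, g.len, g.len, g.add, Nat.size_eq_size_half hm, Nat.size_one]
      rw [h1, ih (m / 2) (by omega), g.smash_one, g.mul, Nat.size_eq_size_half hm]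
      congr 1
      ring

/-- Terms have the standard value on standard arguments. -/
theorem Good.val (t : Tm) (v : ℕ → ℕ) :
    t.val A (fun i => A.nat (v i)) = A.nat (t.val stdN v) := by
  induction t with
  | var i => rfl
  | zero => rfl
  | succ t ih => simp only [Tm.val, ih]; rfl
  | half t ih => simp only [Tm.val, ih]; exact g.half _
  | len t ih => simp only [Tm.val, ih]; exact g.len _
  | add s t ih1 ih2 => simp only [Tm.val, ih1, ih2]; exact g.add _ _
  | mul s t ih1 ih2 => simp only [Tm.val, ih1, ih2]; exact g.mul _ _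
  | smash s t ih1 ih2 => simp only [Tm.val, ih1, ih2]; exact g.smash _ _

end

theorem Tm.val_congr_of_occurs {M : Type} (A : Str M) (t : Tm) {v w : ℕ → M}
    (h : ∀ i, t.occurs i = true → v i = w i) : t.val A v = t.val A w := by
  induction t with
  | var i => exact h i (by simp [Tm.occurs])
  | zero => rfl
  | succ t ih => simp only [Tm.val]; rw [ih (fun i hi => h i hi)]
  | half t ih => simp only [Tm.val]; rw [ih (fun i hi => h i hi)]
  | len t ih => simp only [Tm.val]; rw [ih (fun i hi => h i hi)]
  | add s t ih1 ih2 =>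
    simp only [Tm.val]
    rw [ih1 (fun i hi => h i (by simp [Tm.occurs, hi])),
      ih2 (fun i hi => h i (by simp [Tm.occurs, hi]))]
  | mul s t ih1 ih2 =>
    simp only [Tm.val]
    rw [ih1 (fun i hi => h i (by simp [Tm.occurs, hi])),
      ih2 (fun i hi => h i (by simp [Tm.occurs, hi]))]
  | smash s t ih1 ih2 =>
    simp only [Tm.val]
    rw [ih1 (fun i hi => h i (by simp [Tm.occurs, hi])),
      ih2 (fun i hi => h i (by simp [Tm.occurs, hi]))]

theorem Fm.guarded_of_sharp {φ : Fm} (h : φ.sharp = true) : φ.guarded = true := by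
  cases φ with
  | imp ψ χ =>
    cases ψ with
    | le s t =>
      cases s with
      | var i =>
        cases i with
        | zero =>
          cases t with
          | len t => simpa [Fm.sharp, Fm.guarded, Tm.occurs] using h
          | _ => simp [Fm.sharp] at h
        | succ i => simp [Fm.sharp] at h
      | _ => simp [Fm.sharp] at h
    | _ => simp [Fm.sharp] at h
  | _ => simp [Fm.sharp] at h

theorem Fm.guarded_elim {φ : Fm} (h : φ.guarded = true) :
    ∃ t ψ, φ = Fm.imp (Fm.le (Tm.var 0) t) ψ ∧ t.occurs 0 = false := by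
  cases φ with
  | imp ψ χ =>
    cases ψ with
    | le s t =>
      cases s with
      | var i =>
        cases i with
        | zero => exact ⟨t, χ, rfl, by simpa [Fm.guarded] using h⟩
        | succ i => simp [Fm.guarded] at h
      | _ => simp [Fm.guarded] at h
    | _ => simp [Fm.guarded] at h
  | _ => simp [Fm.guarded] at h

/-- All quantifiers are bounded. -/
def Fm.bdd : Fm → Bool
  | Fm.bot => true
  | Fm.eq _ _ => true
  | Fm.le _ _ => true
  | Fm.imp φ ψ => Fm.bdd φ && Fm.bdd ψ
  | Fm.all φ => φ.guarded && Fm.bdd φ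

theorem Fm.bdd_of (φ : Fm) : (φ.isSigma = true → φ.bdd = true) ∧ (φ.isPi = true → φ.bdd = true) := by
  induction φ with
  | bot => simp [Fm.bdd]
  | eq s t => simp [Fm.bdd]
  | le s t => simp [Fm.bdd]
  | imp φ ψ ih1 ih2 =>
    simp only [Fm.isSigma, Fm.isPi, Fm.bdd, Bool.and_eq_true]
    tauto
  | all φ ih =>
    simp only [Fm.isSigma, Fm.isPi, Fm.bdd, Bool.and_eq_true]
    refine ⟨fun h => ⟨Fm.guarded_of_sharp h.1, ih.1 h.2⟩, fun h => ⟨h.1, ih.2 h.2⟩⟩

/-- **Absoluteness of bounded formulas** between the standard model and models of BASIC. -/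
theorem Good.sat_iff {M : Type} {A : Str M} (g : Good A) (φ : Fm) : φ.bdd = true →
    ∀ v : ℕ → ℕ, φ.sat A (fun i => A.nat (v i)) ↔ φ.sat stdN v := by
  induction φ with
  | bot => intro _ v; rfl
  | eq s t =>
    intro _ v
    simp only [Fm.sat, g.val]
    exact ⟨fun h => g.inj h, fun h => by rw [h]⟩
  | le s t =>
    intro _ v
    simp only [Fm.sat, g.val]
    exact g.le_iff
  | imp φ ψ ih1 ih2 =>
    intro h v
    simp only [Fm.bdd, Bool.and_eq_true] at h
    simp only [Fm.sat, ih1 h.1, ih2 h.2]
  | all φ ih =>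
    intro h v
    simp only [Fm.bdd, Bool.and_eq_true] at h
    obtain ⟨h1, h2⟩ := h
    have ih' := ih h2
    have hcons : ∀ k : ℕ, scons (A.nat k) (fun i => A.nat (v i)) =
        fun i => A.nat (scons k v i) := by
      intro k; funext i; cases i <;> rfl
    obtain ⟨t, ψ, rfl, ht⟩ := Fm.guarded_elim h1
    simp only [Fm.sat, Tm.val] at ih' ⊢
    constructor
    · intro h a
      have h3 := h (A.nat a)
      rw [hcons] at h3
      exact (ih' (scons a v)).1 h3
    · intro h a ha
      have hval : t.val A (scons a fun i => A.nat (v i)) = A.nat (t.val stdN (scons 0 v)) := by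
        rw [← g.val]
        apply Tm.val_congr_of_occurs
        intro i hi
        cases i with
        | zero => rw [ht] at hi; exact absurd hi (by simp)
        | succ i => rfl
      rw [hval] at ha
      obtain ⟨k, hk, rfl⟩ := g.initial (x := a) ha
      rw [hcons]
      refine (ih' (scons k v)).2 (h k) ?_
      rw [g.val]
      have h5 : t.val stdN (scons k v) = t.val stdN (scons 0 v) := by
        apply Tm.val_congr_of_occurs
        intro i hi
        cases i with
        | zero => rw [ht] at hi; exact absurd hi (by simp)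
        | succ i => rfl
      rw [h5]
      exact g.le_iff.2 hk

/-- A consistent theory containing `S^1_2` proves only true bounded sentences. -/
theorem bdd_sound {Th : Set Fm} (hS : S12 ⊆ Th) (hc : Consistent Th) {φ : Fm}
    (hb : φ.bdd = true) (hp : Provable Th φ) (v : ℕ → ℕ) : φ.sat stdN v := by
  obtain ⟨M, A, hA⟩ := hc
  obtain ⟨π, hπ⟩ := hp
  have g : Good A := good_of_models fun φ hφ v => hA φ (hS hφ) v
  exact (g.sat_iff φ hb v).1 (hπ.sound hA _)

end Pool.Agent.H19
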