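import Pool.Agent.Lib_helper19.Program

/-!
# Bounded arithmetic: Buss's theory `S^1_2`, proofs, and finite uniform reflection

Terms and formulas of the language `0, S, ⌊x/2⌋, |x|, +, ·, #, ≤, =` with de Bruijn indices, the
theory `S^1_2`, a Hilbert calculus for first-order logic with equality, the class of theories
of the problem, presentations of theories by clocked programs, and the reflection sentences.
-/

namespace Pool.Agent.H19

/-- Terms of the language of `S^1_2`; variables are de Bruijn indices. -/
inductive Tm : Type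
  | var : ℕ → Tm
  | zero : Tm
  | succ : Tm → Tm
  | half : Tm → Tm
  | len : Tm → Tm
  | add : Tm → Tm → Tm
  | mul : Tm → Tm → Tm
  | smash : Tm → Tm → Tm
  deriving DecidableEq

/-- Formulas; the other connectives are abbreviations. In `all φ` the quantified variable is
`var 0` and the variable `i` of the context is `var (i + 1)`. -/
inductive Fm : Type
  | bot : Fm
  | eq : Tm → Tm → Fm
  | le : Tm → Tm → Fm
  | imp : Fm → Fm → Fm
  | all : Fm → Fm
  deriving DecidableEq

namespace Tm

/-- Raise all variables with index at least `c` by `d`. -/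
def shift (c d : ℕ) : Tm → Tm
  | var i => if i < c then var i else var (i + d)
  | zero => zero
  | succ t => succ (shift c d t)
  | half t => half (shift c d t)
  | len t => len (shift c d t)
  | add s t => add (shift c d s) (shift c d t)
  | mul s t => mul (shift c d s) (shift c d t)
  | smash s t => smash (shift c d s) (shift c d t)

/-- `s.inst k t`: substitute `t` (to be read below `k` binders) for the variable `k` in `s` and
lower the variables above `k` by one. -/
def inst (k : ℕ) : (s t : Tm) → Tm
  | var i, t => if i < k then var i else if i = k then t.shift 0 k else var (i - 1)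
  | zero, _ => zero
  | succ s, t => succ (inst k s t)
  | half s, t => half (inst k s t)
  | len s, t => len (inst k s t)
  | add r s, t => add (inst k r t) (inst k s t)
  | mul r s, t => mul (inst k r t) (inst k s t)
  | smash r s, t => smash (inst k r t) (inst k s t)

/-- Whether the variable `k` occurs in a term. -/
def occurs (k : ℕ) : Tm → Bool
  | var i => i == k
  | zero => false
  | succ t => occurs k t
  | half t => occurs k t
  | len t => occurs k t
  | add s t => occurs k s || occurs k t
  | mul s t => occurs k s || occurs k t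
  | smash s t => occurs k s || occurs k t

/-- All variables of the term are below `k`. -/
def fvBelow (k : ℕ) : Tm → Prop
  | var i => i < k
  | zero => True
  | succ t => fvBelow k t
  | half t => fvBelow k t
  | len t => fvBelow k t
  | add s t => fvBelow k s ∧ fvBelow k t
  | mul s t => fvBelow k s ∧ fvBelow k t
  | smash s t => fvBelow k s ∧ fvBelow k t

/-- Terms that are polynomials in the variable `0`. -/
def isPoly : Tm → Prop
  | var i => i = 0
  | zero => True
  | succ t => isPoly t
  | add s t => isPoly s ∧ isPoly t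
  | mul s t => isPoly s ∧ isPoly t
  | _ => False

/-- The term `2`. -/
def two : Tm := succ (succ zero)

/-- The binary numeral of `n`. -/
def numeral (n : ℕ) : Tm :=
  if h : n = 0 then zero
  else if n % 2 = 0 then mul two (numeral (n / 2)) else succ (mul two (numeral (n / 2)))
termination_by n
decreasing_by all_goals omega

end Tm

namespace Fm

/-- Raise all free variables with index at least `c` by `d`. -/
def shift (c d : ℕ) : Fm → Fm
  | bot => bot
  | eq s t => eq (s.shift c d) (t.shift c d)
  | le s t => le (s.shift c d) (t.shift c d)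
  | imp φ ψ => imp (shift c d φ) (shift c d ψ)
  | all φ => all (shift (c + 1) d φ)

/-- `φ.inst k t`: substitute `t` for the free variable `k` in `φ` and lower the free variables
above `k` by one. -/
def inst (k : ℕ) (t : Tm) : Fm → Fm
  | bot => bot
  | eq r s => eq (r.inst k t) (s.inst k t)
  | le r s => le (r.inst k t) (s.inst k t)
  | imp φ ψ => imp (inst k t φ) (inst k t ψ)
  | all φ => all (inst (k + 1) t φ)

/-- All free variables of the formula are below `k`. -/
def fvBelow (k : ℕ) : Fm → Prop
  | bot => True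
  | eq s t => s.fvBelow k ∧ t.fvBelow k
  | le s t => s.fvBelow k ∧ t.fvBelow k
  | imp φ ψ => fvBelow k φ ∧ fvBelow k ψ
  | all φ => fvBelow (k + 1) φ

/-- Negation. -/
def neg (φ : Fm) : Fm := imp φ bot
/-- Conjunction. -/
def and (φ ψ : Fm) : Fm := neg (imp φ (neg ψ))
/-- Disjunction. -/
def or (φ ψ : Fm) : Fm := imp (neg φ) ψ
/-- Equivalence. -/
def iff (φ ψ : Fm) : Fm := and (imp φ ψ) (imp ψ φ)

/-- The formula is of the form `x ≤ t → ψ`, where `x` is the variable `0` and `t` is a term
without `x`; so `all` of it is a bounded quantification. -/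
def guarded : Fm → Bool
  | imp (le (Tm.var 0) t) _ => !(t.occurs 0)
  | _ => false

/-- The formula is of the form `x ≤ |t| → ψ`, where `x` is the variable `0` and `t` is a term
without `x`; so `all` of it is a sharply bounded quantification. -/
def sharp : Fm → Bool
  | imp (le (Tm.var 0) (Tm.len t)) _ => !(t.occurs 0)
  | _ => false

mutual
/-- The class `Σ^b_1`: atomic formulas; `φ → ψ` with `φ` in `Π^b_1` and `ψ` in `Σ^b_1`; sharply
bounded universal quantifications of formulas in `Σ^b_1`. Bounded existential quantifiers are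
covered by `∃ x ≤ t, φ = ¬ ∀ x ≤ t, ¬ φ`. -/
def isSigma : Fm → Bool
  | bot => true
  | eq _ _ => true
  | le _ _ => true
  | imp φ ψ => isPi φ && isSigma ψ
  | all φ => sharp φ && isSigma φ
/-- The class `Π^b_1`: atomic formulas; `φ → ψ` with `φ` in `Σ^b_1` and `ψ` in `Π^b_1`; bounded
universal quantifications of formulas in `Π^b_1`. -/
def isPi : Fm → Bool
  | bot => true
  | eq _ _ => true
  | le _ _ => true
  | imp φ ψ => isSigma φ && isPi ψ
  | all φ => guarded φ && isPi φ
end

end Fm

/-! ### Structures and truth -/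

/-- Structures for the language, with equality read as equality. -/
structure Str (M : Type) where
  zero : M
  succ : M → M
  half : M → M
  len : M → M
  add : M → M → M
  mul : M → M → M
  smash : M → M → M
  le : M → M → Prop

/-- The standard model: `|x|` is the binary length and `x # y = 2 ^ (|x| |y|)`. -/
def stdN : Str ℕ where
  zero := 0
  succ := fun x => x + 1
  half := fun x => x / 2
  len := Nat.size
  add := fun x y => x + y
  mul := fun x y => x * y
  smash := fun x y => 2 ^ (x.size * y.size)
  le := fun x y => x ≤ y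

/-- Assignments extended by a value for the variable `0`. -/
def scons {M : Type} (a : M) (v : ℕ → M) : ℕ → M
  | 0 => a
  | n + 1 => v n

/-- Value of a term. -/
def Tm.val {M : Type} (A : Str M) (v : ℕ → M) : Tm → M
  | Tm.var i => v i
  | Tm.zero => A.zero
  | Tm.succ t => A.succ (t.val A v)
  | Tm.half t => A.half (t.val A v)
  | Tm.len t => A.len (t.val A v)
  | Tm.add s t => A.add (s.val A v) (t.val A v)
  | Tm.mul s t => A.mul (s.val A v) (t.val A v)
  | Tm.smash s t => A.smash (s.val A v) (t.val A v)

/-- Truth of a formula. -/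
def Fm.sat {M : Type} (A : Str M) : Fm → (ℕ → M) → Prop
  | Fm.bot, _ => False
  | Fm.eq s t, v => s.val A v = t.val A v
  | Fm.le s t, v => A.le (s.val A v) (t.val A v)
  | Fm.imp φ ψ, v => Fm.sat A φ v → Fm.sat A ψ v
  | Fm.all φ, v => ∀ a : M, Fm.sat A φ (scons a v)

/-- `A` is a model of the set of formulas `Th` (free variables are read universally). -/
def Str.Models {M : Type} (A : Str M) (Th : Set Fm) : Prop := ∀ φ ∈ Th, ∀ v, φ.sat A v

/-- Consistency (in the form: having a model). -/
def Consistent (Th : Set Fm) : Prop := ∃ (M : Type) (A : Str M), A.Models Th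

/-! ### The theory `S^1_2` -/

section
open Tm Fm

/-- The axioms BASIC of Buss; `x`, `y`, `z`, `u` are free variables, read universally. -/
def basicList : List Fm :=
  let x := var 0
  let y := var 1
  let z := var 2
  let u := var 3
  let one := Tm.succ Tm.zero
  [ imp (le y x) (le y (Tm.succ x)),
    neg (eq x (Tm.succ x)),
    le Tm.zero x,
    Fm.iff (Fm.and (le x y) (neg (eq x y))) (le (Tm.succ x) y),
    imp (neg (eq x Tm.zero)) (neg (eq (mul two x) Tm.zero)),
    Fm.or (le y x) (le x y),
    imp (Fm.and (le x y) (le y x)) (eq x y),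
    imp (Fm.and (le x y) (le y z)) (le x z),
    eq (len Tm.zero) Tm.zero,
    imp (neg (eq x Tm.zero)) (Fm.and (eq (len (mul two x)) (Tm.succ (len x)))
      (eq (len (Tm.succ (mul two x))) (Tm.succ (len x)))),
    eq (len one) one,
    imp (le x y) (le (len x) (len y)),
    eq (len (smash x y)) (Tm.succ (mul (len x) (len y))),
    eq (smash Tm.zero y) one,
    imp (neg (eq x Tm.zero)) (Fm.and (eq (smash one (mul two x)) (mul two (smash one x)))
      (eq (smash one (Tm.succ (mul two x))) (mul two (smash one x)))),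
    eq (smash x y) (smash y x),
    imp (eq (len x) (len y)) (eq (smash x z) (smash y z)),
    imp (eq (len x) (add (len u) (len z))) (eq (smash x y) (mul (smash u y) (smash z y))),
    le x (add x y),
    imp (Fm.and (le x y) (neg (eq x y))) (Fm.and (le (Tm.succ (mul two x)) (mul two y))
      (neg (eq (Tm.succ (mul two x)) (mul two y)))),
    eq (add x y) (add y x),
    eq (add x Tm.zero) x,
    eq (add x (Tm.succ y)) (Tm.succ (add x y)),
    eq (add (add x y) z) (add x (add y z)),
    Fm.iff (le (add x y) (add x z)) (le y z),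
    eq (mul x Tm.zero) Tm.zero,
    eq (mul x (Tm.succ y)) (add (mul x y) x),
    eq (mul x y) (mul y x),
    eq (mul x (add y z)) (add (mul x y) (mul x z)),
    imp (le one x) (Fm.iff (le (mul x y) (mul x z)) (le y z)),
    imp (neg (eq x Tm.zero)) (eq (len x) (Tm.succ (len (half x)))),
    Fm.iff (eq x (half y)) (Fm.or (eq (mul two x) y) (eq (Tm.succ (mul two x)) y)) ]

/-- Polynomial induction for `φ` in the variable `0`:
`∀x (x = 0 → φ(x)) → ∀x ∀y (y = ⌊x/2⌋ → φ(y) → φ(x)) → ∀x φ(x)`. -/
def pind (φ : Fm) : Fm :=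
  imp (all (imp (eq (var 0) Tm.zero) φ))
    (imp (all (all (imp (eq (var 0) (half (var 1))) (imp (φ.shift 1 1) (φ.shift 0 1)))))
      (all φ))

/-- The theory `S^1_2`: BASIC and polynomial induction for `Σ^b_1` formulas. -/
def S12 : Set Fm := {φ | φ ∈ basicList ∨ ∃ ψ : Fm, ψ.isSigma = true ∧ φ = pind ψ}

end

/-! ### Proofs -/

/-- Lines of a proof in a Hilbert calculus for first-order logic with equality, together with
their justification. -/
inductive Step : Type
  /-- an axiom `φ` of the theory -/
  | hyp : Fm → Step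
  /-- `φ → ψ → φ` -/
  | axK : Fm → Fm → Step
  /-- `(φ → ψ → χ) → (φ → ψ) → φ → χ` -/
  | axS : Fm → Fm → Fm → Step
  /-- `((φ → ⊥) → ⊥) → φ` -/
  | dne : Fm → Step
  /-- `∀x φ → φ(t)` -/
  | allE : Fm → Tm → Step
  /-- `∀x (φ → ψ) → ∀x φ → ∀x ψ` -/
  | allK : Fm → Fm → Step
  /-- `φ → ∀x φ`, `x` not free in `φ` -/
  | vac : Fm → Step
  /-- `t = t` -/
  | refl : Tm → Step
  /-- `s = t → φ(s) → φ(t)` -/
  | subst : Fm → Tm → Tm → Step
  /-- `ψ`, from the earlier lines `φ → ψ` and `φ` -/
  | mp : Fm → Fm → Step
  /-- `∀x φ`, from the earlier line `φ` -/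
  | gen : Fm → Step
  deriving DecidableEq

/-- The formula proved in a line. -/
def Step.concl : Step → Fm
  | hyp φ => φ
  | axK φ ψ => Fm.imp φ (Fm.imp ψ φ)
  | axS φ ψ χ => Fm.imp (Fm.imp φ (Fm.imp ψ χ)) (Fm.imp (Fm.imp φ ψ) (Fm.imp φ χ))
  | dne φ => Fm.imp (Fm.imp (Fm.imp φ Fm.bot) Fm.bot) φ
  | allE φ t => Fm.imp (Fm.all φ) (φ.inst 0 t)
  | allK φ ψ => Fm.imp (Fm.all (Fm.imp φ ψ)) (Fm.imp (Fm.all φ) (Fm.all ψ))
  | vac φ => Fm.imp φ (Fm.all (φ.shift 0 1))
  | refl t => Fm.eq t t
  | subst φ s t => Fm.imp (Fm.eq s t) (Fm.imp (φ.inst 0 s) (φ.inst 0 t))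
  | mp _ ψ => ψ
  | gen φ => Fm.all φ

/-- The line is correct, given the theory and the list of formulas proved before it. -/
def Step.ok (Th : Set Fm) (prev : List Fm) : Step → Prop
  | hyp φ => φ ∈ Th
  | mp φ ψ => Fm.imp φ ψ ∈ prev ∧ φ ∈ prev
  | gen φ => φ ∈ prev
  | _ => True

/-- All lines of `π` are correct when the formulas in `prev` have been proved before, and the
last line proves `φ`. -/
def Derives (Th : Set Fm) : List Fm → List Step → Fm → Prop
  | prev, [], φ => prev.head? = some φ
  | prev, s :: π, φ => s.ok Th prev ∧ Derives Th (s.concl :: prev) π φ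

/-- `π` is a proof of `φ` from `Th`. -/
def IsProof (Th : Set Fm) (π : List Step) (φ : Fm) : Prop := Derives Th [] π φ

/-- Provability. -/
def Provable (Th : Set Fm) (φ : Fm) : Prop := ∃ π, IsProof Th π φ

/-! ### Codes -/

/-- Terms as trees. -/
def Tm.enc : Tm → T
  | Tm.var i => T.node (T.unary 0) (T.node (T.unary i) T.leaf)
  | Tm.zero => T.node (T.unary 1) (T.node T.leaf T.leaf)
  | Tm.succ t => T.node (T.unary 2) (T.node t.enc T.leaf)
  | Tm.half t => T.node (T.unary 3) (T.node t.enc T.leaf)
  | Tm.len t => T.node (T.unary 4) (T.node t.enc T.leaf)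
  | Tm.add s t => T.node (T.unary 5) (T.node s.enc t.enc)
  | Tm.mul s t => T.node (T.unary 6) (T.node s.enc t.enc)
  | Tm.smash s t => T.node (T.unary 7) (T.node s.enc t.enc)

/-- Formulas as trees. -/
def Fm.enc : Fm → T
  | Fm.bot => T.node (T.unary 8) (T.node T.leaf T.leaf)
  | Fm.eq s t => T.node (T.unary 9) (T.node s.enc t.enc)
  | Fm.le s t => T.node (T.unary 10) (T.node s.enc t.enc)
  | Fm.imp φ ψ => T.node (T.unary 11) (T.node φ.enc ψ.enc)
  | Fm.all φ => T.node (T.unary 12) (T.node φ.enc T.leaf)

/-- Proof lines as trees. -/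
def Step.enc : Step → T
  | hyp φ => T.node (T.unary 0) φ.enc
  | axK φ ψ => T.node (T.unary 1) (T.node φ.enc ψ.enc)
  | axS φ ψ χ => T.node (T.unary 2) (T.node φ.enc (T.node ψ.enc χ.enc))
  | dne φ => T.node (T.unary 3) φ.enc
  | allE φ t => T.node (T.unary 4) (T.node φ.enc t.enc)
  | allK φ ψ => T.node (T.unary 5) (T.node φ.enc ψ.enc)
  | vac φ => T.node (T.unary 6) φ.enc
  | refl t => T.node (T.unary 7) t.enc
  | subst φ s t => T.node (T.unary 8) (T.node φ.enc (T.node s.enc t.enc))
  | mp φ ψ => T.node (T.unary 9) (T.node φ.enc ψ.enc)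
  | gen φ => T.node (T.unary 10) φ.enc

/-- Proofs as trees. -/
def encProof : List Step → T
  | [] => T.leaf
  | s :: π => T.node s.enc (encProof π)

/-- Append to the binary expansion of a number the description of a tree, in which a node is
the digit `1` followed by the descriptions of the two subtrees and a leaf is the digit `0`. -/
def T.gn : T → ℕ → ℕ
  | T.leaf, n => 2 * n
  | T.node l r, n => T.gn r (T.gn l (2 * n + 1))

/-- The Gödel number of a tree: the digit `1` followed by the description of the tree. -/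
def T.num (x : T) : ℕ := T.gn x 1

/-- Programs as trees. -/
def Code.enc : Code → T
  | Code.id => T.node (T.unary 0) T.leaf
  | Code.leaf => T.node (T.unary 1) T.leaf
  | Code.fst => T.node (T.unary 2) T.leaf
  | Code.snd => T.node (T.unary 3) T.leaf
  | Code.pair f g => T.node (T.unary 4) (T.node f.enc g.enc)
  | Code.comp f g => T.node (T.unary 5) (T.node f.enc g.enc)
  | Code.ite c f g => T.node (T.unary 6) (T.node c.enc (T.node f.enc g.enc))
  | Code.loop f => T.node (T.unary 7) f.enc

/-! ### Theories -/

/-- The class `𝒯`: consistent theories obtained from `S^1_2` by adding a set of axioms that is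
decidable in polynomial time. -/
def InClassT (Th : Set Fm) : Prop :=
  Consistent Th ∧ ∃ f : T → T, PolyTime f ∧
    ∀ φ : Fm, φ ∈ Th ↔ φ ∈ S12 ∨ f φ.enc ≠ T.leaf

/-- The program `c` with the clock `(size x + 2) ^ κ` accepts `x`. -/
def Accepts (c : Code) (κ : ℕ) (x : T) : Prop :=
  ∃ (y : T) (t : ℕ), Eval c x y t ∧ t ≤ (x.size + 2) ^ κ ∧ y ≠ T.leaf

/-- The theory presented by a clocked program: `S^1_2` and all formulas that it accepts. -/
def theory (c : Code) (κ : ℕ) : Set Fm := {φ | φ ∈ S12 ∨ Accepts c κ φ.enc}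

/-! ### The universal formula and finite reflection -/

/-- `μ` is a universal `Σ^b_1` formula `μ₁(e, x, z)`, with `e`, `x`, `z` the variables `0`, `1`,
`2`: it is `Σ^b_1`, has no other free variables, and for every `Σ^b_1` formula `α(x)` there are a
number `e` and a polynomial `p` such that `S^1_2` proves `p(|x|) ≤ |z| → (α(x) ↔ μ₁(e, x, z))`. -/
def IsUniversal (μ : Fm) : Prop :=
  μ.isSigma = true ∧ μ.fvBelow 3 ∧ ∀ α : Fm, α.isSigma = true → α.fvBelow 1 →
    ∃ (e : ℕ) (p : Tm), p.isPoly ∧
      Provable S12 (Fm.imp (Fm.le (p.inst 0 (Tm.len (Tm.var 0))) (Tm.len (Tm.var 1)))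
        (Fm.iff α (μ.inst 0 (Tm.numeral e))))

/-- The sentence `μ₁(e, x, z)` with the binary numerals of `e`, `x`, `z`. -/
def inst3 (μ : Fm) (e x z : ℕ) : Fm :=
  ((μ.inst 0 (Tm.numeral e)).inst 0 (Tm.numeral x)).inst 0 (Tm.numeral z)

/-- `P` assigns to every clocked program `(c, κ)` a `Δ^b_1` formula `P c κ (e, x, z, u)` (variables
`0`, `1`, `2`, `3`) expressing that `u` is a proof of `μ₁(e, x, z)` in the theory presented by
`(c, κ)`; the assignment is computable in polynomial time. -/
structure IsFormalisation (μ : Fm) (P : Code → ℕ → Fm) : Prop where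
  delta : ∀ c κ, (P c κ).isSigma = true ∧
    ∃ Q : Fm, Q.isPi = true ∧ Provable S12 (Fm.iff (P c κ) Q)
  below : ∀ c κ, (P c κ).fvBelow 4
  correct : ∀ c κ (e x z u : ℕ),
    (P c κ).sat stdN (scons e (scons x (scons z (scons u fun _ => 0)))) ↔
      ∃ π : List Step, u = (encProof π).num ∧ IsProof (theory c κ) π (inst3 μ e x z)
  poly : ∃ f : T → T, PolyTime f ∧ ∀ c κ, f (T.node c.enc (T.unary κ)) = (P c κ).enc

/-- The finite uniform `Σ^b_1` reflection sentence `Σ^b_1RFN(n)` for the proof formula `P` and the
universal formula `μ`: for all `u, z, x, e` of length at most `n`, if `P(e, x, z, u)` then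
`μ₁(e, x, z)`. -/
def rfn (P μ : Fm) (n : ℕ) : Fm :=
  let g (i : ℕ) (φ : Fm) : Fm := Fm.imp (Fm.le (Tm.len (Tm.var i)) (Tm.numeral n)) φ
  Fm.all (Fm.all (Fm.all (Fm.all (g 0 (g 1 (g 2 (g 3 (Fm.imp P μ))))))))

end Pool.Agent.H19
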