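import Pool.Agent.Lib_helper19.Reflection

/-! # Binary arithmetic in polynomial time -/

namespace Pool.Agent.H19

open T

/-- The value of a tree whose right spine carries binary digits, the lowest first. -/
def bn : T → ℕ
  | T.leaf => 0
  | T.node b t => (if b = T.leaf then 0 else 1) + 2 * bn t

/-- Binary digits as trees. -/
def bit (n : ℕ) : T := if n % 2 = 0 then T.leaf else T.node T.leaf T.leaf

/-- The binary expansion of a number, the lowest digit first. -/
def bl (n : ℕ) : T :=
  if h : n = 0 then T.leaf else T.node (bit n) (bl (n / 2))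
termination_by n
decreasing_by omega

@[simp] theorem bl_zero : bl 0 = T.leaf := by rw [bl]; simp

theorem bl_pos {n : ℕ} (h : n ≠ 0) : bl n = T.node (bit n) (bl (n / 2)) := by
  conv_lhs => rw [bl]
  simp [h]

@[simp] theorem bn_bl (n : ℕ) : bn (bl n) = n := by
  induction n using Nat.strong_induction_on with
  | _ n ih =>
    by_cases h : n = 0
    · subst h; simp [bn]
    · rw [bl_pos h, bn, ih (n / 2) (by omega), bit]
      split_ifs with h1 h2 h2
      · omega
      · exact absurd rfl h2
      · exact absurd h2 (by simp)
      · omega

theorem bl_inj {m n : ℕ} : bl m = bl n ↔ m = n :=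
  ⟨fun h => by rw [← bn_bl m, h, bn_bl], fun h => by rw [h]⟩

theorem bl_len (n : ℕ) : (bl n).len = n.size := by
  induction n using Nat.strong_induction_on with
  | _ n ih =>
    by_cases h : n = 0
    · subst h; simp
    · rw [bl_pos h, T.len_node, ih (n / 2) (by omega), Nat.size_eq_size_half h]

theorem bit_size (n : ℕ) : (bit n).size ≤ 3 := by
  simp only [bit]; split_ifs <;> simp [T.size]

theorem bl_size (n : ℕ) : (bl n).size ≤ 4 * n.size + 1 := by
  induction n using Nat.strong_induction_on with
  | _ n ih =>
    by_cases h : n = 0
    · subst h; simp [T.size]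
    · have h1 := ih (n / 2) (by omega)
      have h2 := bit_size n
      rw [bl_pos h, T.size, Nat.size_eq_size_half h]; omega

theorem size_le_bl (n : ℕ) : n.size ≤ (bl n).size := by
  rw [← bl_len]; exact (T.len_lt_size _).le

theorem bn_lt (x : T) : bn x < 2 ^ x.len := by
  induction x with
  | leaf => simp [bn]
  | node b t _ ih =>
    rw [T.len_node, pow_succ, bn]
    split_ifs <;> omega

theorem bn_size_le (x : T) : (bn x).size ≤ x.len := Nat.size_le.2 (bn_lt x)

theorem size_add_le (a b : ℕ) : (a + b).size ≤ a.size + b.size + 1 := by
  rw [Nat.size_le]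
  have h1 := Nat.lt_size_self a
  have h2 := Nat.lt_size_self b
  have h3 : 1 ≤ 2 ^ a.size := Nat.one_le_two_pow
  have h4 : 1 ≤ 2 ^ b.size := Nat.one_le_two_pow
  rw [pow_succ, pow_add]
  nlinarith

theorem size_mul_le (a b : ℕ) : (a * b).size ≤ a.size + b.size := by
  rw [Nat.size_le, pow_add]
  have h1 := Nat.lt_size_self a
  have h2 := Nat.lt_size_self b
  exact Nat.mul_lt_mul'' h1 h2

/-- Polynomial-time functions with values in the natural numbers, in binary. -/
def PolyN (f : T → ℕ) : Prop := PolyTime (fun x => bl (f x))

theorem PolyN.comp {f : T → ℕ} (hf : PolyN f) {g : T → T} (hg : PolyTime g) :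
    PolyN (fun x => f (g x)) := PolyTime.comp hf hg

theorem PolyN.const (n : ℕ) : PolyN (fun _ => n) := PolyTime.const _

theorem PolyN.half {f : T → ℕ} (hf : PolyN f) : PolyN (fun x => f x / 2) := by
  refine (PolyTime.right hf).congr fun x => ?_
  by_cases h : f x = 0
  · simp [h]
  · rw [bl_pos h]; rfl

theorem PolyN.size {f : T → ℕ} (hf : PolyN f) : PolyNat (fun x => (f x).size) :=
  (PolyNat.len hf).congr fun x => by beta_reduce; rw [bl_len]

/-- Put a digit in front. -/
def consB (b v : T) : T := tif b (tif v T.leaf (T.node T.leaf v)) (T.node (T.node T.leaf T.leaf) v)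

theorem consB_eq (b m : ℕ) (hb : b < 2) : consB (bit b) (bl m) = bl (b + 2 * m) := by
  interval_cases b
  · by_cases hm : m = 0
    · subst hm; simp [consB, bit]
    · have h1 : bl m ≠ T.leaf := by rw [bl_pos hm]; simp
      rw [bl_pos (by omega : 0 + 2 * m ≠ 0), show (0 + 2 * m) / 2 = m by omega]
      simp [consB, bit, tif, h1]
  · rw [bl_pos (by omega : 1 + 2 * m ≠ 0), show (1 + 2 * m) / 2 = m by omega]
    have h2 : (1 + 2 * m) % 2 ≠ 0 := by omega
    simp [consB, bit, tif, h2]

theorem PolyTime.consB {f g : T → T} (hf : PolyTime f) (hg : PolyTime g) :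
    PolyTime (fun x => consB (f x) (g x)) :=
  hf.tif (hg.tif PolyTime.leaf (PolyTime.leaf.node hg)) ((PolyTime.const _).node hg)

/-- The canonical form of a list of digits. -/
theorem canon_polyTime : PolyN (fun x => bn x) := by
  have i := PolyTime.id
  refine PolyTime₂.binRec₁ (F := fun x => bl (bn x)) (c := T.leaf)
    (comb := fun w => H19.consB (tif w.left.left T.leaf (T.node T.leaf T.leaf)) w.right.right)
    ((i.left.left.tif PolyTime.leaf (PolyTime.const _)).consB i.right.right) (by simp [bn]) ?_
    (G := fun n => 4 * n + 1) (((PolyB.const 4).mul PolyB.id).add (PolyB.const 1))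
    (fun a b h => by dsimp only; omega) ?_
  · intro a b
    show bl (bn (T.node a b)) = H19.consB (tif a T.leaf (T.node T.leaf T.leaf)) (bl (bn b))
    rw [bn]
    split_ifs with h
    · rw [h, tif_leaf, ← consB_eq 0 (bn b) (by omega)]; rfl
    · have : tif a T.leaf (T.node T.leaf T.leaf) = bit 1 := by simp [tif, h, bit]
      rw [this, ← consB_eq 1 (bn b) (by omega)]
  · intro x
    have h1 := bl_size (bn x)
    have h2 := bn_size_le x
    have h3 := T.len_lt_size x
    omega

/-! ### Addition -/

/-- The digit `0` or `1` of a tree. -/
def dg (b : T) : ℕ := if b = T.leaf then 0 else 1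

theorem dg_le (b : T) : dg b ≤ 1 := by simp only [dg]; split_ifs <;> omega

theorem bn_node (b t : T) : bn (T.node b t) = dg b + 2 * bn t := rfl

theorem bn_eq_left_right (y : T) : bn y = dg y.left + 2 * bn y.right := by
  cases y with
  | leaf => simp [bn, dg]
  | node b t => rfl

/-- Polynomial-time functions with small values. -/
theorem PolyN.dg {f : T → T} (hf : PolyTime f) : PolyNat (fun x => H19.dg (f x)) := by
  refine (hf.tif PolyTime.leaf (PolyTime.const (T.node T.leaf T.leaf))).congr fun x => ?_
  simp only [tif, H19.dg]; split_ifs <;> rfl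

theorem PolyNat.mod2 {f : T → ℕ} (hf : PolyNat f) : PolyTime (fun x => bit (f x)) := by
  refine (PolyTime.ifP (PolyDec.eq_leaf ((hf.sub ((PolyNat.const 2).mul hf.div2)).unary))
    PolyTime.leaf (PolyTime.const (T.node T.leaf T.leaf))).congr fun x => ?_
  have : T.unary (f x - 2 * (f x / 2)) = T.leaf ↔ f x % 2 = 0 := by
    rw [unary_sub_eq_leaf]; omega
  simp only [this, bit]

/-- Increment: the value of `y` plus the digit `c`. -/
theorem inc_polyTime : PolyTime₂ (fun y c => bl (bn y + dg c)) := by
  have i := PolyTime.id
  refine PolyTime₂.binRec (F := fun y c => bl (bn y + dg c)) (l := fun _ => T.leaf) (r := T.right)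
    (pl := fun _ => T.leaf)
    (pr := fun z => tif z.left.left T.leaf (tif z.right T.leaf (T.node T.leaf T.leaf)))
    (base := fun z => tif z.right T.leaf (T.node (T.node T.leaf T.leaf) T.leaf))
    (comb := fun w => H19.consB (bit (dg w.left.left.left + dg w.left.right)) w.right.right)
    PolyTime.leaf PolyTime.right' PolyTime.leaf
    (i.left.left.tif PolyTime.leaf (i.right.tif PolyTime.leaf (PolyTime.const _)))
    (i.right.tif PolyTime.leaf (PolyTime.const _))
    (PolyTime.consB ((PolyN.dg i.left.left.left).add (PolyN.dg i.left.right)).mod2 i.right.right)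
    ?_ ?_ ?_ 3 ?_ ?_
    (G := fun n => 4 * (n + 2) + 1)
    (((PolyB.const 4).mul (PolyB.id.add (PolyB.const 2))).add (PolyB.const 1))
    (fun a b h => by dsimp only; omega) ?_
  · intro c
    show bl (bn T.leaf + dg c) = tif c T.leaf (T.node (T.node T.leaf T.leaf) T.leaf)
    by_cases hc : c = T.leaf
    · subst hc; simp [bn, dg]
    · simp only [bn, dg, hc, if_false, tif]
      rw [bl_pos (by omega)]; simp [bit]
  · intro y c hy
    rcases y with _ | ⟨b, t⟩
    · exact absurd rfl hy
    · show bl (bn (T.node b t) + dg c) = H19.consB (bit (dg b + dg c))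
        (bl (bn t + dg (tif b T.leaf (tif c T.leaf (T.node T.leaf T.leaf)))))
      have h1 := dg_le b
      have h2 := dg_le c
      have h3 : dg (tif b T.leaf (tif c T.leaf (T.node T.leaf T.leaf))) = (dg b + dg c) / 2 := by
        by_cases hb : b = T.leaf
        · by_cases hc : c = T.leaf <;> simp [hb, hc, dg]
        · by_cases hc : c = T.leaf <;> simp [hb, hc, dg, tif]
      have h4 : bit (dg b + dg c) = bit ((dg b + dg c) % 2) := by simp [bit]
      rw [h3, h4, consB_eq _ _ (by omega), bn_node]
      congr 1; omega
  · intro x hx
    rcases x with _ | ⟨a, b⟩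
    · exact absurd rfl hx
    · have := T.size_pos a
      simp only [T.size, T.right_node]; omega
  · intro x p; simp only [T.size]; omega
  · intro x p; simp only [tif]; split_ifs <;> simp only [T.size] <;> omega
  · intro y c
    have h1 := bl_size (bn y + dg c)
    have h2 := size_add_le (bn y) (dg c)
    have h3 := bn_size_le y
    have h4 := T.len_lt_size y
    have h5 : (dg c).size ≤ 1 := by simp only [dg]; split_ifs <;> simp
    omega

/-- Addition with carry. -/
theorem adc_polyTime : PolyTime₂ (fun x p => bl (bn x + bn p.left + dg p.right)) := by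
  have i := PolyTime.id
  have hs : PolyNat (fun w : T => dg w.left.left + dg w.right.left.left + dg w.right.right) :=
    ((PolyN.dg i.left.left).add (PolyN.dg i.right.left.left)).add (PolyN.dg i.right.right)
  have hcarry : PolyTime (fun z : T => T.unary ((dg z.left.left + dg z.right.left.left +
      dg z.right.right) / 2)) := hs.div2
  refine PolyTime₂.binRec (F := fun x p => bl (bn x + bn p.left + dg p.right))
    (l := fun _ => T.leaf) (r := T.right)
    (pl := fun _ => T.leaf)
    (pr := fun z => T.node z.right.left.right (T.unary ((dg z.left.left + dg z.right.left.left +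
      dg z.right.right) / 2)))
    (base := fun z => bl (bn z.right.left + dg z.right.right))
    (comb := fun w => H19.consB (bit (dg w.left.left.left + dg w.left.right.left.left +
      dg w.left.right.right)) w.right.right)
    PolyTime.leaf PolyTime.right' PolyTime.leaf
    (i.right.left.right.node hcarry) (inc_polyTime.comp i.right.left i.right.right)
    (PolyTime.consB ((hs.comp i.left).mod2) i.right.right)
    ?_ ?_ ?_ 4 ?_ ?_
    (G := fun n => 4 * (n + 5) + 1)
    (((PolyB.const 4).mul (PolyB.id.add (PolyB.const 5))).add (PolyB.const 1))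
    (fun a b h => by dsimp only; omega) ?_
  · intro p
    show bl (bn T.leaf + bn p.left + dg p.right) = bl (bn p.left + dg p.right)
    simp [bn]
  · intro x p hx
    rcases x with _ | ⟨b, t⟩
    · exact absurd rfl hx
    · show bl (bn (T.node b t) + bn p.left + dg p.right) = H19.consB (bit (dg b + dg p.left.left +
        dg p.right)) (bl (bn t + bn p.left.right + dg (T.unary ((dg b + dg p.left.left +
        dg p.right) / 2))))
      have h1 := dg_le b
      have h2 := dg_le p.right
      have h2' := dg_le p.left.left
      have h3 : dg (T.unary ((dg b + dg p.left.left + dg p.right) / 2)) =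
          (dg b + dg p.left.left + dg p.right) / 2 := by
        have : (dg b + dg p.left.left + dg p.right) / 2 ≤ 1 := by omega
        rcases Nat.le_one_iff_eq_zero_or_eq_one.1 this with h | h <;> rw [h] <;> rfl
      have h4 : bit (dg b + dg p.left.left + dg p.right) =
          bit ((dg b + dg p.left.left + dg p.right) % 2) := by simp [bit]
      rw [h3, h4, consB_eq _ _ (by omega), bn_node, bn_eq_left_right p.left]
      congr 1; omega
  · intro x hx
    rcases x with _ | ⟨a, b⟩
    · exact absurd rfl hx
    · have := T.size_pos a
      simp only [T.size, T.right_node]; omega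
  · intro x p; simp only [T.size]; omega
  · intro x p
    have h1 := dg_le x.left
    have h2 := dg_le p.left.left
    have h3 := dg_le p.right
    have h4 := (T.size_right_le p.left)
    have h5 := T.size_parts_eq p
    have h6 := T.size_pos p.right
    simp only [T.size, T.left_node, T.right_node, T.size_unary]
    omega
  · intro x p
    have h1 := bl_size (bn x + bn p.left + dg p.right)
    have h2 := size_add_le (bn x + bn p.left) (dg p.right)
    have h2' := size_add_le (bn x) (bn p.left)
    have h3 := bn_size_le x
    have h3' := bn_size_le p.left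
    have h4 := T.len_lt_size x
    have h4' := T.len_lt_size p.left
    have h4'' := T.size_left_le p
    have h5 : (dg p.right).size ≤ 1 := by simp only [dg]; split_ifs <;> simp
    omega

theorem PolyN.add {f g : T → ℕ} (hf : PolyN f) (hg : PolyN g) : PolyN (fun x => f x + g x) := by
  refine (adc_polyTime.comp hf (PolyTime.node hg PolyTime.leaf)).congr fun x => ?_
  simp [H19.dg]

theorem PolyN.succ {f : T → ℕ} (hf : PolyN f) : PolyN (fun x => f x + 1) :=
  hf.add (PolyN.const 1)

/-! ### Multiplication -/

theorem mul_polyTime : PolyTime₂ (fun x y => bl (bn x * bn y)) := by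
  have i := PolyTime.id
  have hcomb : PolyN (fun w : T => bn (tif w.left.left.left T.leaf w.left.right) +
      bn (H19.consB T.leaf w.right.right)) :=
    (canon_polyTime.comp (i.left.left.left.tif PolyTime.leaf i.left.right)).add
      (canon_polyTime.comp (PolyTime.leaf.consB i.right.right))
  refine PolyTime₂.binRec (F := fun x y => bl (bn x * bn y)) (l := fun _ => T.leaf) (r := T.right)
    (pl := fun _ => T.leaf) (pr := fun z => z.right) (base := fun _ => T.leaf)
    (comb := fun w => bl (bn (tif w.left.left.left T.leaf w.left.right) +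
      bn (H19.consB T.leaf w.right.right)))
    PolyTime.leaf PolyTime.right' PolyTime.leaf i.right PolyTime.leaf hcomb
    (fun p => by simp [bn]) ?_ ?_ 1 ?_ ?_
    (G := fun n => 4 * n + 1) (((PolyB.const 4).mul PolyB.id).add (PolyB.const 1))
    (fun a b h => by dsimp only; omega) ?_
  · intro x y hx
    rcases x with _ | ⟨b, t⟩
    · exact absurd rfl hx
    · show bl (bn (T.node b t) * bn y) = bl (bn (tif b T.leaf y) +
        bn (H19.consB T.leaf (bl (bn t * bn y))))
      have h1 : H19.consB T.leaf (bl (bn t * bn y)) = bl (2 * (bn t * bn y)) := by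
        have := consB_eq 0 (bn t * bn y) (by omega)
        rw [show (0 + 2 * (bn t * bn y)) = 2 * (bn t * bn y) by omega] at this
        rw [← this]; rfl
      rw [h1, bn_bl, bn_node]
      congr 1
      by_cases hb : b = T.leaf
      · simp [hb, dg, bn]; ring
      · simp [hb, dg, tif]; ring
  · intro x hx
    rcases x with _ | ⟨a, b⟩
    · exact absurd rfl hx
    · have := T.size_pos a
      simp only [T.size, T.right_node]; omega
  · intro x p; have := T.size_pos p; simp only [T.size]; omega
  · intro x p; simp
  · intro x y
    have h1 := bl_size (bn x * bn y)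
    have h2 := size_mul_le (bn x) (bn y)
    have h3 := bn_size_le x
    have h3' := bn_size_le y
    have h4 := T.len_lt_size x
    have h4' := T.len_lt_size y
    omega

theorem PolyN.mul {f g : T → ℕ} (hf : PolyN f) (hg : PolyN g) : PolyN (fun x => f x * g x) := by
  refine (mul_polyTime.comp hf hg).congr fun x => ?_
  simp

/-! ### Unary numbers in binary, powers of two -/

theorem PolyNat.toN {f : T → ℕ} (hf : PolyNat f) : PolyN f := by
  have i := PolyTime.id
  have key : PolyTime₂ (fun x _ => bl x.len) := by
    refine PolyTime₂.binRec (F := fun x _ => bl x.len)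
      (l := fun x => T.unary (x.len / 2)) (r := fun _ => T.leaf)
      (pl := fun _ => T.leaf) (pr := fun _ => T.leaf) (base := fun _ => T.leaf)
      (comb := fun w => T.node (bit w.left.left.len) w.right.left)
      (PolyNat.len i).div2 PolyTime.leaf PolyTime.leaf PolyTime.leaf PolyTime.leaf
      ((PolyNat.len i.left.left).mod2.node i.right.left)
      (fun p => by simp) ?_ ?_ 1 ?_ ?_
      (G := fun n => 4 * n + 1) (((PolyB.const 4).mul PolyB.id).add (PolyB.const 1))
      (fun a b h => by dsimp only; omega) ?_
    · intro x p hx
      have hlen : x.len ≠ 0 := by cases x <;> simp_all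
      simp only [T.left_node, T.right_node, T.len_unary]
      rw [bl_pos hlen]
    · intro x hx
      have hlen : x.len ≠ 0 := by cases x <;> simp_all
      have := T.two_len_lt_size x
      simp only [T.size_unary, T.size]; omega
    · intro x p; have := T.size_pos p; simp only [T.size]; omega
    · intro x p; have := T.size_pos p; simp only [T.size]; omega
    · intro x p
      have h1 := bl_size x.len
      have h2 := T.len_lt_size x
      have h3 : x.len.size ≤ x.len := by
        rw [Nat.size_le]; exact Nat.lt_two_pow_self
      omega
  exact (key.comp hf PolyTime.leaf).congr fun x => by rw [T.len_unary]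

theorem PolyN.pow2 {f : T → ℕ} (hf : PolyNat f) : PolyN (fun x => 2 ^ f x) := by
  have hit : ∀ n, (fun y => T.node T.leaf y)^[n] (bl 1) = bl (2 ^ n) := by
    intro n
    induction n with
    | zero => rfl
    | succ n ih =>
      rw [Function.iterate_succ_apply', ih, pow_succ, mul_comm]
      have h1 : 2 ^ n ≠ 0 := by positivity
      rw [bl_pos (by omega : 2 * 2 ^ n ≠ 0), show 2 * 2 ^ n / 2 = 2 ^ n by omega]
      simp [bit]
  have := PolyTime.iterate (f := fun y => T.node T.leaf y) (n := fun x => T.unary (f x))
    (s := fun _ => bl 1) (PolyTime.leaf.node PolyTime.id) hf (PolyTime.const _) (by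
      obtain ⟨k, hk⟩ := PolyTime.size_bound hf
      obtain ⟨m, hm⟩ : PolyB (fun n => 4 * ((n + 2) ^ k + 1) + 1) :=
        ((PolyB.const 4).mul (PolyB.add ⟨k, fun _ => le_rfl⟩ (PolyB.const 1))).add
          (PolyB.const 1)
      refine ⟨m, fun x j hj => le_trans ?_ (hm x.size)⟩
      rw [hit]
      have h1 := bl_size (2 ^ j)
      rw [Nat.size_pow] at h1
      have h2 := hk x
      rw [T.size_unary] at h2
      rw [T.len_unary] at hj
      beta_reduce
      omega)
  exact this.congr fun x => by rw [T.len_unary, hit]

theorem PolyN.smash {f g : T → ℕ} (hf : PolyN f) (hg : PolyN g) :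
    PolyN (fun x => 2 ^ ((f x).size * (g x).size)) :=
  PolyN.pow2 (hf.size.mul hg.size)

/-! ### Comparison -/

/-- Comparison of canonical binary numbers: `leaf` for less, `unary 1` for equal, `unary 2` for
greater. -/
def cmpT : T → T → T
  | T.leaf, y => tif y (T.unary 1) T.leaf
  | T.node b t, y => tif y (T.unary 2)
      (if cmpT t y.right = T.unary 1 then
        (if b = y.left then T.unary 1 else tif b T.leaf (T.unary 2))
      else cmpT t y.right)

theorem cmpT_spec (m : ℕ) : ∀ n, (m < n → cmpT (bl m) (bl n) = T.leaf) ∧
    (m = n → cmpT (bl m) (bl n) = T.unary 1) ∧ (n < m → cmpT (bl m) (bl n) = T.unary 2) := by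
  induction m using Nat.strong_induction_on with
  | _ m ih =>
    intro n
    by_cases hm : m = 0
    · subst hm
      refine ⟨fun h => ?_, fun h => ?_, fun h => by omega⟩
      · rw [bl_zero, bl_pos (by omega : n ≠ 0)]; simp [cmpT]
      · subst h; simp [cmpT]
    · by_cases hn : n = 0
      · subst hn
        refine ⟨fun h => by omega, fun h => by omega, fun _ => ?_⟩
        rw [bl_pos hm]; simp [cmpT]
      · obtain ⟨h1, h2, h3⟩ := ih (m / 2) (by omega) (n / 2)
        have hbit : bit m = bit n ↔ m % 2 = n % 2 := by
          simp only [bit]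
          split_ifs with ha hb hb
          · simp [ha, hb]
          · simp [ha]; omega
          · simp [hb]; omega
          · simp; omega
        have hexp : cmpT (bl m) (bl n) = (if cmpT (bl (m / 2)) (bl (n / 2)) = T.unary 1 then
            (if bit m = bit n then T.unary 1 else tif (bit m) T.leaf (T.unary 2))
            else cmpT (bl (m / 2)) (bl (n / 2))) := by
          rw [bl_pos hm, bl_pos hn]
          simp only [cmpT, tif_node, T.right_node, T.left_node]
          split_ifs <;> rfl
        rw [hexp]
        refine ⟨fun h => ?_, fun h => ?_, fun h => ?_⟩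
        · rcases lt_or_eq_of_le (Nat.div_le_div_right (c := 2) h.le) with h4 | h4
          · rw [h1 h4]; simp [T.unary]
          · rw [h2 h4, if_pos rfl, if_neg (by rw [hbit]; omega)]
            have : bit m = T.leaf := by simp only [bit]; rw [if_pos (by omega)]
            rw [this, tif_leaf]
        · subst h
          rw [h2 rfl, if_pos rfl, if_pos rfl]
        · rcases lt_or_eq_of_le (Nat.div_le_div_right (c := 2) h.le) with h4 | h4
          · rw [h3 h4]; simp [T.unary]
          · rw [h2 h4.symm, if_pos rfl, if_neg (by rw [hbit]; omega)]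
            have : bit m = T.node T.leaf T.leaf := by simp only [bit]; rw [if_neg (by omega)]
            rw [this, tif_node]

theorem cmpT_size (x : T) : ∀ y, (cmpT x y).size ≤ 5 := by
  induction x with
  | leaf => intro y; simp only [cmpT, tif]; split_ifs <;> simp [T.size, T.unary]
  | node b t _ ih =>
    intro y
    have := ih y.right
    simp only [cmpT, tif]
    split_ifs <;> simp_all [T.size, T.unary]

theorem cmpT_polyTime : PolyTime₂ cmpT := by
  have i := PolyTime.id
  refine PolyTime₂.binRec (F := cmpT) (l := fun _ => T.leaf) (r := T.right)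
    (pl := fun _ => T.leaf) (pr := fun z => z.right.right)
    (base := fun z => tif z.right (T.unary 1) T.leaf)
    (comb := fun w => tif w.left.right (T.unary 2)
      (if w.right.right = T.unary 1 then
        (if w.left.left.left = w.left.right.left then T.unary 1
          else tif w.left.left.left T.leaf (T.unary 2))
      else w.right.right))
    PolyTime.leaf PolyTime.right' PolyTime.leaf i.right.right
    (i.right.tif (PolyTime.const _) PolyTime.leaf)
    (i.left.right.tif (PolyTime.const _) (PolyTime.ifEqs i.right.right
      (PolyTime.ifEq i.left.left.left i.left.right.left (PolyTime.const _)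
        (i.left.left.left.tif PolyTime.leaf (PolyTime.const _))) i.right.right))
    (fun _ => rfl) ?_ ?_ 1 ?_ ?_ (G := fun _ => 5) (PolyB.const 5) (fun _ _ _ => le_rfl)
    (fun x p => cmpT_size x p)
  · intro x p hx
    rcases x with _ | ⟨a, b⟩
    · exact absurd rfl hx
    · rfl
  · intro x hx
    rcases x with _ | ⟨a, b⟩
    · exact absurd rfl hx
    · have := T.size_pos a
      simp only [T.size, T.right_node]; omega
  · intro x p; have := T.size_pos p; simp only [T.size]; omega
  · intro x p; have := T.size_right_le p; simp only [T.right_node]; omega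

theorem PolyDec.leN {f g : T → ℕ} (hf : PolyN f) (hg : PolyN g) :
    PolyDec (fun x => f x ≤ g x) := by
  refine (PolyDec.eq (cmpT_polyTime.comp hf hg) (PolyTime.const (T.unary 2))).not.congr
    fun x => ?_
  obtain ⟨h1, h2, h3⟩ := cmpT_spec (f x) (g x)
  constructor
  · intro h
    by_contra hc
    exact h (h3 (by omega))
  · intro h hc
    rcases lt_or_eq_of_le h with h4 | h4
    · rw [h1 h4] at hc; simp [T.unary] at hc
    · rw [h2 h4] at hc; simp [T.unary] at hc

theorem PolyDec.eqN {f g : T → ℕ} (hf : PolyN f) (hg : PolyN g) :
    PolyDec (fun x => f x = g x) :=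
  (PolyDec.eq hf hg).congr fun x => bl_inj

/-! ### Terms -/

theorem PolyN.val (t : Tm) {V : ℕ → T → ℕ} (hV : ∀ i, PolyN (V i)) :
    PolyN (fun x => t.val stdN (fun i => V i x)) := by
  induction t with
  | var i => exact hV i
  | zero => exact PolyN.const 0
  | succ t ih => exact ih.succ
  | half t ih => exact ih.half
  | len t ih => exact ih.size.toN
  | add s t ih1 ih2 => exact ih1.add ih2
  | mul s t ih1 ih2 => exact ih1.mul ih2
  | smash s t ih1 ih2 => exact ih1.smash ih2

/-- Binary numerals of binary numbers. -/
theorem PolyN.numeral {f : T → ℕ} (hf : PolyN f) :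
    PolyTime (fun x => (Tm.numeral (f x)).enc) := by
  have i := PolyTime.id
  let F : T → T := fun x => (T.rec (motive := fun _ => T) Tm.zero.enc
    (fun b _ _ v => tif b (T.node (T.unary 6) (T.node Tm.two.enc v))
      (T.node (T.unary 2) (T.node (T.node (T.unary 6) (T.node Tm.two.enc v)) T.leaf))) x)
  have hF : PolyTime F := by
    refine PolyTime₂.binRec₁ (F := F) (c := Tm.zero.enc)
      (comb := fun w => tif w.left.left (T.node (T.unary 6) (T.node Tm.two.enc w.right.right))
        (T.node (T.unary 2) (T.node (T.node (T.unary 6) (T.node Tm.two.enc w.right.right))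
          T.leaf)))
      (i.left.left.tif ((PolyTime.const _).node ((PolyTime.const _).node i.right.right))
        ((PolyTime.const _).node (((PolyTime.const _).node ((PolyTime.const _).node
          i.right.right)).node PolyTime.leaf))) rfl (fun a b => rfl)
      (G := fun n => 60 * n) ((PolyB.const 60).mul PolyB.id) (fun a b h => by dsimp only; omega) ?_
    intro x
    induction x with
    | leaf => simp [F, Tm.enc, T.size, T.unary]
    | node b t _ ih =>
      show (tif b (T.node (T.unary 6) (T.node Tm.two.enc (F t)))
        (T.node (T.unary 2) (T.node (T.node (T.unary 6) (T.node Tm.two.enc (F t)))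
          T.leaf))).size ≤ _
      simp only [tif]
      have := T.size_pos b
      split_ifs <;> simp only [T.size, T.size_unary, Tm.two, Tm.enc] <;> omega
  have hF' : ∀ n, F (bl n) = (Tm.numeral n).enc := by
    intro n
    induction n using Nat.strong_induction_on with
    | _ n ih =>
      by_cases h : n = 0
      · subst h; rw [Tm.numeral_zero, bl_zero]
      · rw [Tm.numeral_pos h, bl_pos h]
        show tif (bit n) (T.node (T.unary 6) (T.node Tm.two.enc (F (bl (n / 2)))))
          (T.node (T.unary 2) (T.node (T.node (T.unary 6) (T.node Tm.two.enc (F (bl (n / 2)))))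
            T.leaf)) = _
        rw [ih (n / 2) (by omega)]
        by_cases h2 : n % 2 = 0
        · simp [bit, h2, Tm.enc]
        · simp [bit, h2, Tm.enc]
  exact (hF.comp hf).congr fun x => hF' _

end Pool.Agent.H19
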