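import Pool.Agent.Lib_helper19.Raw

/-! # Checking proofs in polynomial time -/

namespace Pool.Agent.H19

open T

/-- Truth values as trees. -/
def ofBool : Bool → T
  | true => T.node T.leaf T.leaf
  | false => T.leaf

@[simp] theorem ofBool_ne_leaf (b : Bool) : ofBool b ≠ T.leaf ↔ b = true := by
  cases b <;> simp [ofBool]

@[simp] theorem ofBool_eq_leaf (b : Bool) : ofBool b = T.leaf ↔ b = false := by
  cases b <;> simp [ofBool]

theorem ofBool_size (b : Bool) : (ofBool b).size ≤ 3 := by cases b <;> simp [ofBool, T.size]

theorem PolyDec.ofBool {f : T → Bool} (h : PolyDec (fun x => f x = true)) :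
    PolyTime (fun x => H19.ofBool (f x)) := by
  obtain ⟨g, hg, hgf⟩ := h
  refine (hg.tif PolyTime.leaf (PolyTime.const (T.node T.leaf T.leaf))).congr fun x => ?_
  have := hgf x
  cases hfx : f x
  · have h1 : g x = T.leaf := by
      by_contra hc
      rw [← Ne, ← this, hfx] at hc
      exact absurd hc (by simp)
    rw [h1]; rfl
  · have h1 : g x ≠ T.leaf := this.1 hfx
    simp [tif, h1, H19.ofBool]

theorem PolyDec.of_ofBool {f : T → Bool} (h : PolyTime (fun x => H19.ofBool (f x))) :
    PolyDec (fun x => f x = true) :=
  ⟨_, h, fun x => by simp⟩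

/-- Recursion without parameter on the shape `node tag (node a b)` of codes. -/
theorem PolyTime.synRec₁ {F : T → T} {d : T} {comb : T → T} (hcomb : PolyTime comb)
    (h0 : F T.leaf = d) (h1 : ∀ t, F (T.node t T.leaf) = d)
    (h2 : ∀ t a b, F (T.node t (T.node a b)) =
      comb (T.node (T.node t (T.node a b)) (T.node (F a) (F b))))
    {G : ℕ → ℕ} (hG : PolyB G) (hGm : Monotone G) (hout : ∀ x, (F x).size ≤ G x.size) :
    PolyTime F := by
  have i := PolyTime.id
  have key : PolyTime₂ (fun x _ => F x) := by
    refine PolyTime₂.synRec (F := fun x _ => F x) (d := d) (pl := fun _ => T.leaf)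
      (pr := fun _ => T.leaf) (comb := fun w => comb (T.node w.left.left w.right))
      PolyTime.leaf PolyTime.leaf (hcomb.comp (i.left.left.node i.right)) (fun _ => h0)
      (fun t _ => h1 t) (fun t a b _ => h2 t a b) 1 ?_ ?_ hG hGm
      (fun x p => (hout x).trans (hGm (by omega)))
    · intro x p; have := T.size_pos p; simp only [T.size]; omega
    · intro x p; have := T.size_pos p; simp only [T.size]; omega
  exact (PolyTime₂.comp key i PolyTime.leaf).congr fun _ => rfl

theorem normTm_size (x : T) : (decTm x).enc.size ≤ 7 * x.size := by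
  induction x using decTm.induct with
  | case1 => simp [decTm, Tm.enc, T.size, T.unary]
  | case2 t => simp [decTm, Tm.enc, T.size, T.unary]
  | case3 a b =>
    have := T.len_lt_size a
    simp only [decTm, if_true, Tm.enc, T.size, T.size_unary]
    omega
  | case4 a b h0 ih =>
    simp only [decTm, h0, if_true, if_false, Tm.enc, T.size, T.size_unary] at ih ⊢; omega
  | case5 a b h0 h1 ih =>
    simp only [decTm, h0, h1, if_true, if_false, Tm.enc, T.size, T.size_unary] at ih ⊢; omega
  | case6 a b h0 h1 h2 ih =>
    simp only [decTm, h0, h1, h2, if_true, if_false, Tm.enc, T.size, T.size_unary] at ih ⊢; omega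
  | case7 a b h0 h1 h2 h3 ih1 ih2 =>
    simp only [decTm, h0, h1, h2, h3, if_true, if_false, Tm.enc, T.size, T.size_unary] at *; omega
  | case8 a b h0 h1 h2 h3 h4 ih1 ih2 =>
    simp only [decTm, h0, h1, h2, h3, h4, if_true, if_false, Tm.enc, T.size, T.size_unary] at *
    omega
  | case9 a b h0 h1 h2 h3 h4 h5 ih1 ih2 =>
    simp only [decTm, h0, h1, h2, h3, h4, h5, if_true, if_false, Tm.enc, T.size,
      T.size_unary] at *
    omega
  | case10 t a b h0 h1 h2 h3 h4 h5 h6 =>
    simp only [decTm, h0, h1, h2, h3, h4, h5, h6, if_true, if_false, Tm.enc, T.size, T.size_unary]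
    omega

theorem PolyTime.ifEqs {f a b : T → T} {c : T} (hf : PolyTime f) (ha : PolyTime a)
    (hb : PolyTime b) : PolyTime (fun x => if f x = c then a x else b x) :=
  PolyTime.ifEq hf (PolyTime.const c) ha hb

theorem normTm_polyTime : PolyTime (fun x => (decTm x).enc) := by
  have i := PolyTime.id
  have L := PolyTime.leaf
  have t := i.left.left
  have a := i.left.right.left
  have va := i.right.left
  have vb := i.right.right
  have Z : PolyTime (fun _ => (Tm.zero).enc) := PolyTime.const _
  refine PolyTime.synRec₁ (F := fun x => (decTm x).enc) (d := (Tm.zero).enc)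
    (comb := fun w =>
      if w.left.left = T.unary 0 then T.node (T.unary 0) (T.node (T.unary w.left.right.left.len)
        T.leaf)
      else if w.left.left = T.unary 2 then T.node (T.unary 2) (T.node w.right.left T.leaf)
      else if w.left.left = T.unary 3 then T.node (T.unary 3) (T.node w.right.left T.leaf)
      else if w.left.left = T.unary 4 then T.node (T.unary 4) (T.node w.right.left T.leaf)
      else if w.left.left = T.unary 5 then T.node (T.unary 5) (T.node w.right.left w.right.right)
      else if w.left.left = T.unary 6 then T.node (T.unary 6) (T.node w.right.left w.right.right)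
      else if w.left.left = T.unary 7 then T.node (T.unary 7) (T.node w.right.left w.right.right)
      else (Tm.zero).enc) ?_ rfl (fun _ => rfl) ?_
    (G := fun n => 7 * n) ((PolyB.const 7).mul PolyB.id) (fun a b h => by dsimp only; omega)
    normTm_size
  · exact PolyTime.ifEqs t ((PolyTime.const _).node ((PolyNat.len a).node L))
      (PolyTime.ifEqs t ((PolyTime.const _).node (va.node L))
      (PolyTime.ifEqs t ((PolyTime.const _).node (va.node L))
      (PolyTime.ifEqs t ((PolyTime.const _).node (va.node L))
      (PolyTime.ifEqs t ((PolyTime.const _).node (va.node vb))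
      (PolyTime.ifEqs t ((PolyTime.const _).node (va.node vb))
      (PolyTime.ifEqs t ((PolyTime.const _).node (va.node vb)) Z))))))
  · intro t a b
    simp only [decTm, T.left_node, T.right_node]
    split_ifs <;> rfl

theorem normFm_size (x : T) : (decFm x).enc.size ≤ 21 * x.size := by
  induction x using decFm.induct with
  | case1 => simp [decFm, Fm.enc, T.size, T.unary]
  | case2 t => simp [decFm, Fm.enc, T.size, T.unary]
  | case3 a b =>
    have h1 := normTm_size a
    have h2 := normTm_size b
    simp only [decFm, if_true, Fm.enc, T.size, T.size_unary]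
    omega
  | case4 a b h0 =>
    have h1 := normTm_size a
    have h2 := normTm_size b
    simp only [decFm, h0, if_true, if_false, Fm.enc, T.size, T.size_unary]; omega
  | case5 a b h0 h1 ih1 ih2 =>
    simp only [decFm, h0, h1, if_true, if_false, Fm.enc, T.size, T.size_unary] at *; omega
  | case6 a b h0 h1 h2 ih =>
    simp only [decFm, h0, h1, h2, if_true, if_false, Fm.enc, T.size, T.size_unary] at *; omega
  | case7 t a b h0 h1 h2 h3 =>
    have := T.size_pos t
    have := T.size_pos a
    have := T.size_pos b
    simp only [decFm, h0, h1, h2, h3, if_false, Fm.enc, T.size, T.size_unary]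
    omega

theorem normFm_polyTime : PolyTime (fun x => (decFm x).enc) := by
  have i := PolyTime.id
  have L := PolyTime.leaf
  have t := i.left.left
  have a := normTm_polyTime.comp i.left.right.left
  have b := normTm_polyTime.comp i.left.right.right
  have va := i.right.left
  have vb := i.right.right
  have Z : PolyTime (fun _ => (Fm.bot).enc) := PolyTime.const _
  refine PolyTime.synRec₁ (F := fun x => (decFm x).enc) (d := (Fm.bot).enc)
    (comb := fun w =>
      if w.left.left = T.unary 9 then T.node (T.unary 9)
        (T.node (decTm w.left.right.left).enc (decTm w.left.right.right).enc)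
      else if w.left.left = T.unary 10 then T.node (T.unary 10)
        (T.node (decTm w.left.right.left).enc (decTm w.left.right.right).enc)
      else if w.left.left = T.unary 11 then
        T.node (T.unary 11) (T.node w.right.left w.right.right)
      else if w.left.left = T.unary 12 then T.node (T.unary 12) (T.node w.right.left T.leaf)
      else (Fm.bot).enc) ?_ rfl (fun _ => rfl) ?_
    (G := fun n => 21 * n) ((PolyB.const 21).mul PolyB.id) (fun a b h => by dsimp only; omega)
    normFm_size
  · exact PolyTime.ifEqs t ((PolyTime.const _).node (a.node b))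
      (PolyTime.ifEqs t ((PolyTime.const _).node (a.node b))
      (PolyTime.ifEqs t ((PolyTime.const _).node (va.node vb))
      (PolyTime.ifEqs t ((PolyTime.const _).node (va.node L)) Z)))
  · intro t a b
    simp only [decFm, T.left_node, T.right_node]
    split_ifs <;> rfl

/-! ### Occurrence of the variable 0 and the classes Sigma and Pi -/

theorem occurs_polyDec : PolyDec (fun x => (decTm x).occurs 0 = true) := by
  have i := PolyTime.id
  have L := PolyTime.leaf
  have t := i.left.left
  have va := i.right.left
  have vb := i.right.right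
  have TT : PolyTime (fun _ => T.node T.leaf T.leaf) := PolyTime.const _
  apply PolyDec.of_ofBool
  refine PolyTime.synRec₁ (F := fun x => ofBool ((decTm x).occurs 0)) (d := T.leaf)
    (comb := fun w =>
      if w.left.left = T.unary 0 then tif w.left.right.left (T.node T.leaf T.leaf) T.leaf
      else if w.left.left = T.unary 2 then w.right.left
      else if w.left.left = T.unary 3 then w.right.left
      else if w.left.left = T.unary 4 then w.right.left
      else if w.left.left = T.unary 5 then tif w.right.left w.right.right (T.node T.leaf T.leaf)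
      else if w.left.left = T.unary 6 then tif w.right.left w.right.right (T.node T.leaf T.leaf)
      else if w.left.left = T.unary 7 then tif w.right.left w.right.right (T.node T.leaf T.leaf)
      else T.leaf) ?_ rfl (fun _ => rfl) ?_
    (G := fun _ => 3) (PolyB.const 3) (fun _ _ _ => le_rfl) (fun _ => ofBool_size _)
  · exact PolyTime.ifEqs t (i.left.right.left.tif TT L)
      (PolyTime.ifEqs t va (PolyTime.ifEqs t va (PolyTime.ifEqs t va
      (PolyTime.ifEqs t (va.tif vb TT) (PolyTime.ifEqs t (va.tif vb TT)
      (PolyTime.ifEqs t (va.tif vb TT) L))))))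
  · intro t a b
    have hor : ∀ p q : Bool, ofBool (p || q) = tif (ofBool p) (ofBool q) (T.node T.leaf T.leaf) := by
      intro p q; cases p <;> cases q <;> simp [ofBool, tif]
    simp only [decTm, T.left_node, T.right_node]
    split_ifs
    · cases a <;> simp [Tm.occurs, ofBool, tif]
    · rfl
    · rfl
    · rfl
    · simp only [Tm.occurs, hor]
    · simp only [Tm.occurs, hor]
    · simp only [Tm.occurs, hor]
    · rfl

theorem PolyDec.ofFm {P : Fm → Prop} {Q : T → Prop} (hQ : PolyDec Q) (h : ∀ φ, P φ ↔ Q φ.enc) :
    PolyDec (fun x => P (decFm x)) :=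
  (hQ.comp normFm_polyTime).congr fun x => (h _).symm

theorem Fm.guarded_iff (φ : Fm) : φ.guarded = true ↔
    (φ.enc.left = T.unary 11 ∧ φ.enc.right.left.left = T.unary 10 ∧
      φ.enc.right.left.right.left = (Tm.var 0).enc ∧
      ¬ (decTm φ.enc.right.left.right.right).occurs 0 = true) := by
  cases φ with
  | imp ψ χ =>
    cases ψ with
    | le s t =>
      have h0 : s.enc = (Tm.var 0).enc ↔ s = Tm.var 0 := Tm.enc_inj
      simp only [Fm.enc, T.left_node, T.right_node, decTm_enc, h0]
      cases s with
      | var i =>
        cases i with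
        | zero => simp [Fm.guarded]
        | succ i => simp [Fm.guarded]
      | _ => simp [Fm.guarded]
    | _ => simp [Fm.guarded, Fm.enc, T.unary_inj]
  | _ => simp [Fm.guarded, Fm.enc, T.unary_inj]

theorem Fm.sharp_iff (φ : Fm) : φ.sharp = true ↔
    (φ.guarded = true ∧ φ.enc.right.left.right.right.left = T.unary 4) := by
  cases φ with
  | imp ψ χ =>
    cases ψ with
    | le s t =>
      cases s with
      | var i =>
        cases i with
        | zero =>
          cases t <;> simp [Fm.sharp, Fm.guarded, Fm.enc, Tm.enc, Tm.occurs, T.unary_inj]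
        | succ i => simp [Fm.sharp, Fm.guarded]
      | _ => simp [Fm.sharp, Fm.guarded]
    | _ => simp [Fm.sharp, Fm.guarded]
  | _ => simp [Fm.sharp, Fm.guarded]

theorem guarded_polyDec : PolyDec (fun x => (decFm x).guarded = true) := by
  have i := PolyTime.id
  refine PolyDec.ofFm (Q := fun e => e.left = T.unary 11 ∧ e.right.left.left = T.unary 10 ∧
      e.right.left.right.left = (Tm.var 0).enc ∧
      ¬ (decTm e.right.left.right.right).occurs 0 = true) ?_ Fm.guarded_iff
  exact (PolyDec.eq i.left (PolyTime.const _)).and ((PolyDec.eq i.right.left.left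
    (PolyTime.const _)).and ((PolyDec.eq i.right.left.right.left (PolyTime.const _)).and
    (occurs_polyDec.comp i.right.left.right.right).not))

theorem sharp_polyDec : PolyDec (fun x => (decFm x).sharp = true) := by
  have i := PolyTime.id
  refine ((guarded_polyDec.and ((PolyDec.eq i.right.left.right.right.left
    (PolyTime.const (T.unary 4))).comp normFm_polyTime))).congr fun x => ?_
  rw [Fm.sharp_iff]

theorem sigmaPi_polyTime :
    PolyTime (fun x => T.node (ofBool (decFm x).isSigma) (ofBool (decFm x).isPi)) := by
  have i := PolyTime.id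
  have L := PolyTime.leaf
  have t := i.left.left
  have TT : PolyTime (fun _ => T.node T.leaf T.leaf) := PolyTime.const _
  have TTT : PolyTime (fun _ => T.node (T.node T.leaf T.leaf) (T.node T.leaf T.leaf)) :=
    PolyTime.const _
  have hand : ∀ p q : Bool, ofBool (p && q) = tif (ofBool p) T.leaf (ofBool q) := by
    intro p q; cases p <;> cases q <;> simp [ofBool, tif]
  refine PolyTime.synRec₁
    (F := fun x => T.node (ofBool (decFm x).isSigma) (ofBool (decFm x).isPi))
    (d := T.node (T.node T.leaf T.leaf) (T.node T.leaf T.leaf))
    (comb := fun w =>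
      if w.left.left = T.unary 9 then T.node (T.node T.leaf T.leaf) (T.node T.leaf T.leaf)
      else if w.left.left = T.unary 10 then T.node (T.node T.leaf T.leaf) (T.node T.leaf T.leaf)
      else if w.left.left = T.unary 11 then
        T.node (tif w.right.left.right T.leaf w.right.right.left)
          (tif w.right.left.left T.leaf w.right.right.right)
      else if w.left.left = T.unary 12 then
        T.node (tif (ofBool (decFm w.left.right.left).sharp) T.leaf w.right.left.left)
          (tif (ofBool (decFm w.left.right.left).guarded) T.leaf w.right.left.right)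
      else T.node (T.node T.leaf T.leaf) (T.node T.leaf T.leaf)) ?_ rfl (fun _ => rfl) ?_
    (G := fun _ => 7) (PolyB.const 7) (fun _ _ _ => le_rfl) ?_
  · exact PolyTime.ifEqs t TTT (PolyTime.ifEqs t TTT (PolyTime.ifEqs t
      ((i.right.left.right.tif L i.right.right.left).node
        (i.right.left.left.tif L i.right.right.right)) (PolyTime.ifEqs t
      (((sharp_polyDec.ofBool.comp i.left.right.left).tif L i.right.left.left).node
        ((guarded_polyDec.ofBool.comp i.left.right.left).tif L i.right.left.right)) TTT)))
  · intro t a b
    simp only [decFm, T.left_node, T.right_node]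
    split_ifs
    · rfl
    · rfl
    · simp only [Fm.isSigma, Fm.isPi, hand]
    · simp only [Fm.isSigma, Fm.isPi, hand]
    · rfl
  · intro x
    have h1 := ofBool_size (decFm x).isSigma
    have h2 := ofBool_size (decFm x).isPi
    simp only [T.size]; omega

theorem isSigma_polyDec : PolyDec (fun x => (decFm x).isSigma = true) :=
  PolyDec.of_ofBool (sigmaPi_polyTime.left.congr fun _ => rfl)

/-! ### The axioms of `S^1_2` -/

theorem PolyDec.memList (L : List Fm) : PolyDec (fun x => decFm x ∈ L) := by
  induction L with
  | nil => exact (PolyDec.const False).congr fun x => by simp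
  | cons a L ih =>
    refine ((PolyDec.eq normFm_polyTime (PolyTime.const a.enc)).or ih).congr fun x => ?_
    rw [Fm.enc_inj, List.mem_cons]

theorem shift_polyTime (c d : ℕ) : PolyTime (fun x => ((decFm x).shift c d).enc) := by
  refine (rShift_polyTime₂.comp normFm_polyTime (PolyTime.const
    (T.node (T.unary c) (T.unary d)))).congr fun x => ?_
  rw [rShift_fm]

theorem pind_polyTime : PolyTime (fun x => (pind (decFm x)).enc) := by
  have L := PolyTime.leaf
  have c : ∀ a : T, PolyTime (fun _ => a) := fun a => PolyTime.const a
  have f := normFm_polyTime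
  exact (c _).node ((((c _).node (((c _).node ((c _).node f)).node L))).node
    ((c _).node ((((c _).node (((c _).node (((c _).node ((c _).node
      ((c _).node ((shift_polyTime 1 1).node (shift_polyTime 0 1))))).node L)).node L))).node
      ((c _).node (f.node L)))))

theorem S12_polyDec : PolyDec (fun x => decFm x ∈ S12) := by
  have i := PolyTime.id
  have c3 := i.right.right.right.right.right.left
  have h1 : PolyDec (fun x => decFm x ∈ basicList) := PolyDec.memList _
  have h2 : PolyDec (fun x => ∃ ψ : Fm, ψ.isSigma = true ∧ decFm x = pind ψ) := by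
    refine PolyDec.ofFm (P := fun φ => ∃ ψ : Fm, ψ.isSigma = true ∧ φ = pind ψ)
      (Q := fun e => (decFm e.right.right.right.right.right.left).isSigma = true ∧
        e = (pind (decFm e.right.right.right.right.right.left)).enc) ?_ ?_
    · exact (isSigma_polyDec.comp c3).and (PolyDec.eq i (pind_polyTime.comp c3))
    · intro φ
      constructor
      · rintro ⟨ψ, h, rfl⟩
        have : decFm (pind ψ).enc.right.right.right.right.right.left = ψ := by
          simp [pind, Fm.enc]
        rw [this]; exact ⟨h, rfl⟩
      · rintro ⟨h, h'⟩
        exact ⟨_, h, Fm.enc_inj.1 h'⟩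
  exact (h1.or h2).congr fun x => Iff.rfl

/-! ### Proof lines -/

/-- Decode a proof line. -/
def decStep (x : T) : Step :=
  if x.left = T.unary 0 then Step.hyp (decFm x.right)
  else if x.left = T.unary 1 then Step.axK (decFm x.right.left) (decFm x.right.right)
  else if x.left = T.unary 2 then
    Step.axS (decFm x.right.left) (decFm x.right.right.left) (decFm x.right.right.right)
  else if x.left = T.unary 3 then Step.dne (decFm x.right)
  else if x.left = T.unary 4 then Step.allE (decFm x.right.left) (decTm x.right.right)
  else if x.left = T.unary 5 then Step.allK (decFm x.right.left) (decFm x.right.right)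
  else if x.left = T.unary 6 then Step.vac (decFm x.right)
  else if x.left = T.unary 7 then Step.refl (decTm x.right)
  else if x.left = T.unary 8 then
    Step.subst (decFm x.right.left) (decTm x.right.right.left) (decTm x.right.right.right)
  else if x.left = T.unary 9 then Step.mp (decFm x.right.left) (decFm x.right.right)
  else Step.gen (decFm x.right)

@[simp] theorem decStep_enc (s : Step) : decStep s.enc = s := by
  cases s <;> simp [decStep, Step.enc, T.unary_inj]

/-- Decode a proof. -/
def decProof (x : T) : List Step := x.toL.map decStep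

@[simp] theorem decProof_enc (π : List Step) : decProof (encProof π) = π := by
  induction π with
  | nil => rfl
  | cons s π ih =>
    simp only [decProof, encProof, T.toL, List.map_cons, decStep_enc] at ih ⊢
    rw [ih]

theorem inst_polyTime : PolyTime₂ (fun x y => ((decFm x).inst 0 (decTm y)).enc) := by
  have i := PolyTime.id
  refine (rInst_polyTime₂.comp (normFm_polyTime.comp i.left) (PolyTime.leaf.node
    (normTm_polyTime.comp i.right))).congr fun x => ?_
  exact rInst_fm _ _ 0

theorem concl_polyTime : PolyTime (fun x => (decStep x).concl.enc) := by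
  have i := PolyTime.id
  have c : ∀ a : T, PolyTime (fun _ => a) := fun a => PolyTime.const a
  have L := PolyTime.leaf
  have F : ∀ {f : T → T}, PolyTime f → PolyTime (fun x => (decFm (f x)).enc) :=
    fun hf => normFm_polyTime.comp hf
  have D : ∀ {f : T → T}, PolyTime f → PolyTime (fun x => (decTm (f x)).enc) :=
    fun hf => normTm_polyTime.comp hf
  have t := i.left
  have r := i.right
  have rl := i.right.left
  have rr := i.right.right
  have rrl := i.right.right.left
  have rrr := i.right.right.right
  have I : ∀ {f g : T → T}, PolyTime f → PolyTime g → PolyTime (fun x =>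
    T.node (T.unary 11) (T.node (f x) (g x))) := fun hf hg => (c _).node (hf.node hg)
  have A : ∀ {f : T → T}, PolyTime f → PolyTime (fun x =>
    T.node (T.unary 12) (T.node (f x) T.leaf)) := fun hf => (c _).node (hf.node L)
  have E : ∀ {f g : T → T}, PolyTime f → PolyTime g → PolyTime (fun x =>
    T.node (T.unary 9) (T.node (f x) (g x))) := fun hf hg => (c _).node (hf.node hg)
  have B : PolyTime (fun _ => Fm.bot.enc) := c _
  have N : ∀ {f g : T → T}, PolyTime f → PolyTime g → PolyTime (fun x =>
    ((decFm (f x)).inst 0 (decTm (g x))).enc) := fun hf hg => inst_polyTime.comp hf hg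
  have key := PolyTime.ifEqs (c := T.unary 0) t (F r)
    (PolyTime.ifEqs (c := T.unary 1) t (I (F rl) (I (F rr) (F rl)))
    (PolyTime.ifEqs (c := T.unary 2) t (I (I (F rl) (I (F rrl) (F rrr)))
      (I (I (F rl) (F rrl)) (I (F rl) (F rrr))))
    (PolyTime.ifEqs (c := T.unary 3) t (I (I (I (F r) B) B) (F r))
    (PolyTime.ifEqs (c := T.unary 4) t (I (A (F rl)) (N rl rr))
    (PolyTime.ifEqs (c := T.unary 5) t (I (A (I (F rl) (F rr))) (I (A (F rl)) (A (F rr))))
    (PolyTime.ifEqs (c := T.unary 6) t (I (F r) (A ((shift_polyTime 0 1).comp r)))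
    (PolyTime.ifEqs (c := T.unary 7) t (E (D r) (D r))
    (PolyTime.ifEqs (c := T.unary 8) t (I (E (D rrl) (D rrr)) (I (N rl rrl) (N rl rrr)))
    (PolyTime.ifEqs (c := T.unary 9) t (F rr) (A (F r)))))))))))
  refine key.congr fun x => ?_
  simp only [decStep]
  split_ifs <;> rfl

/-- A set of formulas is decidable in polynomial time. -/
def DecTh (Th : Set Fm) : Prop := PolyDec (fun x => decFm x ∈ Th)

/-- A list of formulas as a tree. -/
def encPrev (prev : List Fm) : T := encL (prev.map Fm.enc)

theorem mem_encPrev (prev : List Fm) (φ : Fm) : φ.enc ∈ (encPrev prev).toL ↔ φ ∈ prev := by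
  simp only [encPrev, toL_encL, List.mem_map]
  exact ⟨fun ⟨ψ, h, h'⟩ => Fm.enc_inj.1 h' ▸ h, fun h => ⟨φ, h, rfl⟩⟩

theorem ok_polyDec {Th : Set Fm} (hTh : DecTh Th) :
    ∃ f : T → T, PolyTime f ∧ ∀ x prev, (f (T.node x (encPrev prev)) ≠ T.leaf ↔
      (decStep x).ok Th prev) := by
  have i := PolyTime.id
  have TT : PolyTime (fun _ => T.node T.leaf T.leaf) := PolyTime.const _
  obtain ⟨f0, hf0, h0⟩ := hTh.comp i.left.right
  obtain ⟨f9, hf9, h9⟩ := (PolyDec.mem i.right ((PolyTime.const (T.unary 11)).node
    ((normFm_polyTime.comp i.left.right.left).node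
      (normFm_polyTime.comp i.left.right.right)))).and
    (PolyDec.mem i.right (normFm_polyTime.comp i.left.right.left))
  obtain ⟨f10, hf10, h10⟩ := PolyDec.mem i.right (normFm_polyTime.comp i.left.right)
  have t := i.left.left
  refine ⟨_, PolyTime.ifEqs (c := T.unary 0) t hf0 (PolyTime.ifEqs (c := T.unary 1) t TT
    (PolyTime.ifEqs (c := T.unary 2) t TT (PolyTime.ifEqs (c := T.unary 3) t TT
    (PolyTime.ifEqs (c := T.unary 4) t TT (PolyTime.ifEqs (c := T.unary 5) t TT
    (PolyTime.ifEqs (c := T.unary 6) t TT (PolyTime.ifEqs (c := T.unary 7) t TT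
    (PolyTime.ifEqs (c := T.unary 8) t TT
    (PolyTime.ifEqs (c := T.unary 9) t hf9 hf10))))))))), fun x prev => ?_⟩
  simp only [T.left_node, decStep]
  split_ifs
  · rw [← h0]; rfl
  · simp [Step.ok]
  · simp [Step.ok]
  · simp [Step.ok]
  · simp [Step.ok]
  · simp [Step.ok]
  · simp [Step.ok]
  · simp [Step.ok]
  · simp [Step.ok]
  · rw [← h9]
    simp only [T.left_node, T.right_node, Step.ok, mem_encPrev]
    have := mem_encPrev prev (Fm.imp (decFm x.right.left) (decFm x.right.right))
    simp only [Fm.enc] at this
    rw [this]
  · rw [← h10]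
    simp only [T.left_node, T.right_node, Step.ok, mem_encPrev]

/-- One round of proof checking. -/
def gChk (f : T → T) (h a : T) : T :=
  tif a T.leaf (tif (f (T.node h a.right)) T.leaf
    (T.node T.leaf (T.node (decStep h).concl.enc a.right)))

theorem tfold_leaf {f : T → T} (l : T) : tfold (gChk f) l T.leaf = T.leaf := by
  induction l with
  | leaf => rfl
  | node h t _ ih => simp [tfold, gChk, ih]

theorem gChk_fold {Th : Set Fm} {f : T → T}
    (hf : ∀ x prev, (f (T.node x (encPrev prev)) ≠ T.leaf ↔ (decStep x).ok Th prev)) (y : T)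
    (φ : Fm) : ∀ prev : List Fm,
    ((tfold (gChk f) y (T.node T.leaf (encPrev prev)) ≠ T.leaf ∧
      (tfold (gChk f) y (T.node T.leaf (encPrev prev))).right ≠ T.leaf ∧
      (tfold (gChk f) y (T.node T.leaf (encPrev prev))).right.left = φ.enc) ↔
      Derives Th prev (decProof y) φ) := by
  induction y with
  | leaf =>
    intro prev
    simp only [tfold, decProof, T.toL, List.map_nil, Derives]
    cases prev with
    | nil => simp [encPrev]
    | cons a l => simp [encPrev, Fm.enc_inj]
  | node h t _ ih =>
    intro prev
    have h1 : decProof (T.node h t) = decStep h :: decProof t := by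
      simp [decProof, T.toL]
    rw [h1]
    simp only [Derives, tfold]
    by_cases hok : f (T.node h (encPrev prev)) = T.leaf
    · have h2 : ¬ (decStep h).ok Th prev := by rw [← hf]; simp [hok]
      have h3 : gChk f h (T.node T.leaf (encPrev prev)) = T.leaf := by simp [gChk, hok]
      rw [h3, tfold_leaf]
      simp [h2]
    · have h2 : (decStep h).ok Th prev := by rw [← hf]; exact hok
      have h3 : gChk f h (T.node T.leaf (encPrev prev)) =
          T.node T.leaf (encPrev ((decStep h).concl :: prev)) := by
        simp only [gChk, T.right_node, tif_node]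
        rw [tif, if_neg hok]; rfl
      rw [h3, ih]
      simp [h2]

theorem gChk_size {f : T → T} {k : ℕ}
    (hk : ∀ x : T, ((decStep x).concl.enc).size ≤ (x.size + 2) ^ k) (N : ℕ) (l : T) :
    ∀ a : T, l.size ≤ N → (tfold (gChk f) l a).size ≤ a.size + l.size * ((N + 2) ^ k + 3) := by
  induction l with
  | leaf => intro a _; simp [tfold]
  | node h t _ ih =>
    intro a hN
    simp only [T.size] at hN
    have h1 := ih (gChk f h a) (by omega)
    have h2 : (gChk f h a).size ≤ a.size + ((N + 2) ^ k + 3) := by
      have h3 := hk h
      have h4 : (h.size + 2) ^ k ≤ (N + 2) ^ k := Nat.pow_le_pow_left (by omega) _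
      simp only [gChk, tif]
      split_ifs
      · simp only [T.size]; omega
      · simp only [T.size]; omega
      · have := T.size_right_le a
        simp only [T.size]; omega
    have h5 := T.size_pos h
    simp only [tfold, T.size]
    calc _ ≤ (gChk f h a).size + t.size * ((N + 2) ^ k + 3) := h1
      _ ≤ a.size + ((N + 2) ^ k + 3) + t.size * ((N + 2) ^ k + 3) := by omega
      _ ≤ a.size + (h.size + t.size + 1) * ((N + 2) ^ k + 3) := by
        have : (h.size + t.size + 1) * ((N + 2) ^ k + 3) =
          h.size * ((N + 2) ^ k + 3) + t.size * ((N + 2) ^ k + 3) + ((N + 2) ^ k + 3) := by ring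
        rw [this]; omega

/-- **Proofs are checked in polynomial time.** -/
theorem isProof_polyDec {Th : Set Fm} (hTh : DecTh Th) :
    PolyDec (fun z => IsProof Th (decProof z.left) (decFm z.right)) := by
  obtain ⟨f, hf, hfok⟩ := ok_polyDec hTh
  have i := PolyTime.id
  have L := PolyTime.leaf
  obtain ⟨k, hk⟩ := concl_polyTime.size_bound
  have hg : PolyTime₂ (gChk f) := by
    refine i.right.tif L ((hf.comp (i.left.node i.right.right)).tif L
      (L.node ((concl_polyTime.comp i.left).node i.right.right)))
  have hG : PolyB (fun n => n + n * ((n + 2) ^ k + 3)) :=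
    PolyB.id.add (PolyB.id.mul (PolyB.add ⟨k, fun _ => le_rfl⟩ (PolyB.const 3)))
  have hfold : PolyTime₂ (tfold (gChk f)) := by
    refine PolyTime₂.tfold hg hG ?_ fun l a => ?_
    · intro a b h
      have h1 : (a + 2) ^ k ≤ (b + 2) ^ k := Nat.pow_le_pow_left (by omega) _
      have h2 : a * ((a + 2) ^ k + 3) ≤ b * ((b + 2) ^ k + 3) := Nat.mul_le_mul h (by omega)
      dsimp only; omega
    · have h1 := gChk_size (f := f) hk (l.size + a.size) l a (by omega)
      have h2 : l.size * ((l.size + a.size + 2) ^ k + 3) ≤
          (l.size + a.size) * ((l.size + a.size + 2) ^ k + 3) :=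
        Nat.mul_le_mul_right _ (by omega)
      omega
  have hr : PolyTime (fun z : T => tfold (gChk f) z.left (T.node T.leaf T.leaf)) :=
    hfold.comp i.left (PolyTime.const _)
  refine (((PolyDec.ne_leaf hr).and ((PolyDec.ne_leaf hr.right).and
    (PolyDec.eq hr.right.left (normFm_polyTime.comp i.right))))).congr fun z => ?_
  exact gChk_fold hfok z.left (decFm z.right) []

theorem DecTh.of_inClassT {Th : Set Fm} (h : InClassT Th) : DecTh Th := by
  obtain ⟨_, f, hf, hTh⟩ := h
  refine (S12_polyDec.or (PolyDec.ne_leaf (hf.comp normFm_polyTime))).congr fun x => ?_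
  rw [hTh]

end Pool.Agent.H19
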