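import Pool.Agent.Lib_helper19.SatNP

/-! # Checking proofs in a family of theories, and codes of programs -/

namespace Pool.Agent.H19

open T

theorem okP_polyDec {Th : T → Set Fm} (hTh : PolyDec (fun z => decFm z.left ∈ Th z.right)) :
    ∃ f : T → T, PolyTime f ∧ ∀ x p prev, (f (T.node x (T.node p (encPrev prev))) ≠ T.leaf ↔
      (decStep x).ok (Th p) prev) := by
  have i := PolyTime.id
  have TT : PolyTime (fun _ => T.node T.leaf T.leaf) := PolyTime.const _
  obtain ⟨f0, hf0, h0⟩ := hTh.comp (i.left.right.node i.right.left)
  obtain ⟨f9, hf9, h9⟩ := (PolyDec.mem i.right.right ((PolyTime.const (T.unary 11)).node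
    ((normFm_polyTime.comp i.left.right.left).node
      (normFm_polyTime.comp i.left.right.right)))).and
    (PolyDec.mem i.right.right (normFm_polyTime.comp i.left.right.left))
  obtain ⟨f10, hf10, h10⟩ := PolyDec.mem i.right.right (normFm_polyTime.comp i.left.right)
  have t := i.left.left
  refine ⟨_, PolyTime.ifEqs (c := T.unary 0) t hf0 (PolyTime.ifEqs (c := T.unary 1) t TT
    (PolyTime.ifEqs (c := T.unary 2) t TT (PolyTime.ifEqs (c := T.unary 3) t TT
    (PolyTime.ifEqs (c := T.unary 4) t TT (PolyTime.ifEqs (c := T.unary 5) t TT
    (PolyTime.ifEqs (c := T.unary 6) t TT (PolyTime.ifEqs (c := T.unary 7) t TT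
    (PolyTime.ifEqs (c := T.unary 8) t TT
    (PolyTime.ifEqs (c := T.unary 9) t hf9 hf10))))))))), fun x p prev => ?_⟩
  simp only [T.left_node, decStep]
  split_ifs
  · rw [← h0]; rfl
  · simp [Step.ok]
  · simp [Step.ok]
  · simp [Step.ok]
  · simp [Step.ok]
  · simp [Step.ok]
  · simp [Step.ok]
  · simp [Step.ok]
  · simp [Step.ok]
  · rw [← h9]
    simp only [T.left_node, T.right_node, Step.ok, mem_encPrev]
    have := mem_encPrev prev (Fm.imp (decFm x.right.left) (decFm x.right.right))
    simp only [Fm.enc] at this
    rw [this]
  · rw [← h10]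
    simp only [T.left_node, T.right_node, Step.ok, mem_encPrev]

/-- One round of proof checking. -/
def gChkP (f : T → T) (h a : T) : T :=
  tif a T.leaf (tif (f (T.node h a.right)) T.leaf
    (T.node T.leaf (T.node a.right.left (T.node (decStep h).concl.enc a.right.right))))

theorem tfoldP_leaf {f : T → T} (l : T) : tfold (gChkP f) l T.leaf = T.leaf := by
  induction l with
  | leaf => rfl
  | node h t _ ih => simp [tfold, gChkP, ih]

theorem gChkP_fold {Th : T → Set Fm} {f : T → T}
    (hf : ∀ x p prev, (f (T.node x (T.node p (encPrev prev))) ≠ T.leaf ↔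
      (decStep x).ok (Th p) prev)) (p y : T) (φ : Fm) : ∀ prev : List Fm,
    ((tfold (gChkP f) y (T.node T.leaf (T.node p (encPrev prev))) ≠ T.leaf ∧
      (tfold (gChkP f) y (T.node T.leaf (T.node p (encPrev prev)))).right.right ≠ T.leaf ∧
      (tfold (gChkP f) y (T.node T.leaf (T.node p (encPrev prev)))).right.right.left = φ.enc) ↔
      Derives (Th p) prev (decProof y) φ) := by
  induction y with
  | leaf =>
    intro prev
    simp only [tfold, decProof, T.toL, List.map_nil, Derives]
    cases prev with
    | nil => simp [encPrev]
    | cons a l => simp [encPrev, Fm.enc_inj]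
  | node h t _ ih =>
    intro prev
    have h1 : decProof (T.node h t) = decStep h :: decProof t := by
      simp [decProof, T.toL]
    rw [h1]
    simp only [Derives, tfold]
    by_cases hok : f (T.node h (T.node p (encPrev prev))) = T.leaf
    · have h2 : ¬ (decStep h).ok (Th p) prev := by rw [← hf]; simp [hok]
      have h3 : gChkP f h (T.node T.leaf (T.node p (encPrev prev))) = T.leaf := by
        simp [gChkP, hok]
      rw [h3, tfoldP_leaf]
      simp [h2]
    · have h2 : (decStep h).ok (Th p) prev := by rw [← hf]; exact hok
      have h3 : gChkP f h (T.node T.leaf (T.node p (encPrev prev))) =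
          T.node T.leaf (T.node p (encPrev ((decStep h).concl :: prev))) := by
        simp only [gChkP, T.right_node, T.left_node, tif_node]
        rw [tif, if_neg hok]; rfl
      rw [h3, ih]
      simp [h2]

theorem gChkP_size {f : T → T} {k : ℕ}
    (hk : ∀ x : T, ((decStep x).concl.enc).size ≤ (x.size + 2) ^ k) (N : ℕ) (l : T) :
    ∀ a : T, l.size ≤ N → (tfold (gChkP f) l a).size ≤ a.size + l.size * ((N + 2) ^ k + 5) := by
  induction l with
  | leaf => intro a _; simp [tfold]
  | node h t _ ih =>
    intro a hN
    simp only [T.size] at hN
    have h1 := ih (gChkP f h a) (by omega)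
    have h2 : (gChkP f h a).size ≤ a.size + ((N + 2) ^ k + 5) := by
      have h3 := hk h
      have h4 : (h.size + 2) ^ k ≤ (N + 2) ^ k := Nat.pow_le_pow_left (by omega) _
      simp only [gChkP, tif]
      split_ifs
      · simp only [T.size]; omega
      · simp only [T.size]; omega
      · have := T.size_right_le a
        have := T.size_parts_eq a.right
        simp only [T.size]; omega
    have h5 := T.size_pos h
    simp only [tfold, T.size]
    calc _ ≤ (gChkP f h a).size + t.size * ((N + 2) ^ k + 5) := h1
      _ ≤ a.size + ((N + 2) ^ k + 5) + t.size * ((N + 2) ^ k + 5) := by omega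
      _ ≤ a.size + (h.size + t.size + 1) * ((N + 2) ^ k + 5) := by
        have : (h.size + t.size + 1) * ((N + 2) ^ k + 5) =
          h.size * ((N + 2) ^ k + 5) + t.size * ((N + 2) ^ k + 5) + ((N + 2) ^ k + 5) := by ring
        rw [this]; omega

/-- **Proofs are checked in polynomial time**, uniformly in a family of theories: on
`node p (node y x)` check that `y` is a proof of the formula `x` in the theory `Th p`. -/
theorem isProofP_polyDec {Th : T → Set Fm}
    (hTh : PolyDec (fun z => decFm z.left ∈ Th z.right)) :
    PolyDec (fun z => IsProof (Th z.left) (decProof z.right.left) (decFm z.right.right)) := by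
  obtain ⟨f, hf, hfok⟩ := okP_polyDec hTh
  have i := PolyTime.id
  have L := PolyTime.leaf
  obtain ⟨k, hk⟩ := concl_polyTime.size_bound
  have hg : PolyTime₂ (gChkP f) := by
    refine i.right.tif L ((hf.comp (i.left.node i.right.right)).tif L
      (L.node (i.right.right.left.node ((concl_polyTime.comp i.left).node i.right.right.right))))
  have hG : PolyB (fun n => n + n * ((n + 2) ^ k + 5)) :=
    PolyB.id.add (PolyB.id.mul (PolyB.add ⟨k, fun _ => le_rfl⟩ (PolyB.const 5)))
  have hfold : PolyTime₂ (tfold (gChkP f)) := by
    refine PolyTime₂.tfold hg hG ?_ fun l a => ?_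
    · intro a b h
      have h1 : (a + 2) ^ k ≤ (b + 2) ^ k := Nat.pow_le_pow_left (by omega) _
      have h2 : a * ((a + 2) ^ k + 5) ≤ b * ((b + 2) ^ k + 5) := Nat.mul_le_mul h (by omega)
      dsimp only; omega
    · have h1 := gChkP_size (f := f) hk (l.size + a.size) l a (by omega)
      have h2 : l.size * ((l.size + a.size + 2) ^ k + 5) ≤
          (l.size + a.size) * ((l.size + a.size + 2) ^ k + 5) :=
        Nat.mul_le_mul_right _ (by omega)
      omega
  have hr : PolyTime (fun z : T => tfold (gChkP f) z.right.left
      (T.node T.leaf (T.node z.left T.leaf))) :=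
    hfold.comp i.right.left (L.node (i.left.node L))
  refine (((PolyDec.ne_leaf hr).and ((PolyDec.ne_leaf hr.right.right).and
    (PolyDec.eq hr.right.right.left (normFm_polyTime.comp i.right.right))))).congr fun z => ?_
  exact gChkP_fold hfok z.left z.right.left (decFm z.right.right) []

/-! ### Codes of programs -/

/-- For a tree `x`: whether `x` is the code of a program; whether `x` is a pair of codes; whether
`x` consists of three codes. -/
def cF : T → T
  | T.leaf => T.node T.leaf (T.node T.leaf T.leaf)
  | T.node a b => T.node
      (if a = T.unary 0 then tif b (T.node T.leaf T.leaf) T.leaf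
      else if a = T.unary 1 then tif b (T.node T.leaf T.leaf) T.leaf
      else if a = T.unary 2 then tif b (T.node T.leaf T.leaf) T.leaf
      else if a = T.unary 3 then tif b (T.node T.leaf T.leaf) T.leaf
      else if a = T.unary 4 then (cF b).right.left
      else if a = T.unary 5 then (cF b).right.left
      else if a = T.unary 6 then (cF b).right.right
      else if a = T.unary 7 then (cF b).left
      else T.leaf)
      (T.node (tif (cF a).left T.leaf (cF b).left) (tif (cF a).left T.leaf (cF b).right.left))

theorem tif_leaf_ne (a b : T) : tif a T.leaf b ≠ T.leaf ↔ a ≠ T.leaf ∧ b ≠ T.leaf := by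
  simp only [tif]; split_ifs with h <;> simp [h]

theorem cF_spec (x : T) : ((cF x).left ≠ T.leaf ↔ ∃ c : Code, x = c.enc) ∧
    ((cF x).right.left ≠ T.leaf ↔ ∃ c d : Code, x = T.node c.enc d.enc) ∧
    ((cF x).right.right ≠ T.leaf ↔ ∃ b c d : Code, x = T.node b.enc (T.node c.enc d.enc)) := by
  induction x with
  | leaf =>
    refine ⟨?_, ?_, ?_⟩
    · simp only [cF, T.left_node, ne_eq, not_true_eq_false, false_iff, not_exists]
      intro c; cases c <;> simp [Code.enc]
    · simp [cF]
    · simp [cF]
  | node a b iha ihb =>
    obtain ⟨a1, a2, a3⟩ := iha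
    obtain ⟨b1, b2, b3⟩ := ihb
    refine ⟨?_, ?_, ?_⟩
    · simp only [cF, T.left_node]
      have hu : ∀ m n : ℕ, m ≠ n → T.unary m ≠ T.unary n := fun m n h => by
        rwa [Ne, T.unary_inj]
      split_ifs with h0 h1 h2 h3 h4 h5 h6 h7
      · subst h0
        constructor
        · intro h
          cases b with
          | leaf => exact ⟨Code.id, rfl⟩
          | node _ _ => simp at h
        · rintro ⟨c, hc⟩
          cases c <;> simp only [Code.enc, T.node.injEq, T.unary_inj] at hc <;>
            first | omega | (rw [hc.2]; simp)
      · subst h1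
        constructor
        · intro h
          cases b with
          | leaf => exact ⟨Code.leaf, rfl⟩
          | node _ _ => simp at h
        · rintro ⟨c, hc⟩
          cases c <;> simp only [Code.enc, T.node.injEq, T.unary_inj] at hc <;>
            first | omega | (rw [hc.2]; simp)
      · subst h2
        constructor
        · intro h
          cases b with
          | leaf => exact ⟨Code.fst, rfl⟩
          | node _ _ => simp at h
        · rintro ⟨c, hc⟩
          cases c <;> simp only [Code.enc, T.node.injEq, T.unary_inj] at hc <;>
            first | omega | (rw [hc.2]; simp)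
      · subst h3
        constructor
        · intro h
          cases b with
          | leaf => exact ⟨Code.snd, rfl⟩
          | node _ _ => simp at h
        · rintro ⟨c, hc⟩
          cases c <;> simp only [Code.enc, T.node.injEq, T.unary_inj] at hc <;>
            first | omega | (rw [hc.2]; simp)
      · subst h4
        rw [b2]
        constructor
        · rintro ⟨c, d, rfl⟩
          exact ⟨Code.pair c d, rfl⟩
        · rintro ⟨c, hc⟩
          cases c <;> simp only [Code.enc, T.node.injEq, T.unary_inj] at hc <;>
            first | omega | exact ⟨_, _, hc.2⟩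
      · subst h5
        rw [b2]
        constructor
        · rintro ⟨c, d, rfl⟩
          exact ⟨Code.comp c d, rfl⟩
        · rintro ⟨c, hc⟩
          cases c <;> simp only [Code.enc, T.node.injEq, T.unary_inj] at hc <;>
            first | omega | exact ⟨_, _, hc.2⟩
      · subst h6
        rw [b3]
        constructor
        · rintro ⟨c, d, e, rfl⟩
          exact ⟨Code.ite c d e, rfl⟩
        · rintro ⟨c, hc⟩
          cases c <;> simp only [Code.enc, T.node.injEq, T.unary_inj] at hc <;>
            first | omega | exact ⟨_, _, _, hc.2⟩
      · subst h7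
        rw [b1]
        constructor
        · rintro ⟨c, rfl⟩
          exact ⟨Code.loop c, rfl⟩
        · rintro ⟨c, hc⟩
          cases c <;> simp only [Code.enc, T.node.injEq, T.unary_inj] at hc <;>
            first | omega | exact ⟨_, hc.2⟩
      · simp only [ne_eq, not_true_eq_false, false_iff, not_exists]
        intro c hc
        cases c <;> simp_all [Code.enc]
    · simp only [cF, T.left_node, T.right_node, tif_leaf_ne, a1, b1]
      constructor
      · rintro ⟨⟨c, rfl⟩, d, rfl⟩
        exact ⟨c, d, rfl⟩
      · rintro ⟨c, d, h⟩
        simp only [T.node.injEq] at h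
        exact ⟨⟨c, h.1⟩, d, h.2⟩
    · simp only [cF, T.right_node, tif_leaf_ne, a1, b2]
      constructor
      · rintro ⟨⟨c, rfl⟩, d, e, rfl⟩
        exact ⟨c, d, e, rfl⟩
      · rintro ⟨c, d, e, h⟩
        simp only [T.node.injEq] at h
        exact ⟨⟨c, h.1⟩, d, e, h.2⟩

theorem cF_size (x : T) : (cF x).left.size ≤ 3 ∧ (cF x).right.left.size ≤ 3 ∧
    (cF x).right.right.size ≤ 3 ∧ (cF x).size ≤ 11 := by
  induction x with
  | leaf => simp [cF, T.size]
  | node a b iha ihb =>
    obtain ⟨a1, a2, a3, a4⟩ := iha
    obtain ⟨b1, b2, b3, b4⟩ := ihb
    have hl : (cF (T.node a b)).left.size ≤ 3 := by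
      simp only [cF, T.left_node, tif]
      split_ifs <;> first | assumption | simp [T.size]
    have hr1 : (cF (T.node a b)).right.left.size ≤ 3 := by
      simp only [cF, T.left_node, T.right_node, tif]
      split_ifs <;> first | assumption | simp [T.size]
    have hr2 : (cF (T.node a b)).right.right.size ≤ 3 := by
      simp only [cF, T.right_node, tif]
      split_ifs <;> first | assumption | simp [T.size]
    refine ⟨hl, hr1, hr2, ?_⟩
    simp only [cF, T.left_node, T.right_node, T.size] at hl hr1 hr2 ⊢
    omega

theorem cF_polyTime : PolyTime cF := by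
  have i := PolyTime.id
  have t := i.left.left
  have L := PolyTime.leaf
  have hb : PolyTime (fun w : T => tif w.left.right (T.node T.leaf T.leaf) T.leaf) :=
    i.left.right.tif (PolyTime.const _) L
  refine PolyTime₂.binRec₁ (F := cF) (c := T.node T.leaf (T.node T.leaf T.leaf))
    (comb := fun w => T.node
      (if w.left.left = T.unary 0 then tif w.left.right (T.node T.leaf T.leaf) T.leaf
      else if w.left.left = T.unary 1 then tif w.left.right (T.node T.leaf T.leaf) T.leaf
      else if w.left.left = T.unary 2 then tif w.left.right (T.node T.leaf T.leaf) T.leaf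
      else if w.left.left = T.unary 3 then tif w.left.right (T.node T.leaf T.leaf) T.leaf
      else if w.left.left = T.unary 4 then w.right.right.right.left
      else if w.left.left = T.unary 5 then w.right.right.right.left
      else if w.left.left = T.unary 6 then w.right.right.right.right
      else if w.left.left = T.unary 7 then w.right.right.left
      else T.leaf)
      (T.node (tif w.right.left.left T.leaf w.right.right.left)
        (tif w.right.left.left T.leaf w.right.right.right.left)))
    ?_ rfl (fun _ _ => rfl) (G := fun _ => 11) (PolyB.const 11) (fun _ _ _ => le_rfl)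
    (fun x => (cF_size x).2.2.2)
  exact (PolyTime.ifEqs t hb (PolyTime.ifEqs t hb (PolyTime.ifEqs t hb (PolyTime.ifEqs t hb
    (PolyTime.ifEqs t i.right.right.right.left (PolyTime.ifEqs t i.right.right.right.left
    (PolyTime.ifEqs t i.right.right.right.right (PolyTime.ifEqs t i.right.right.left
      L)))))))).node
    ((i.right.left.left.tif L i.right.right.left).node
      (i.right.left.left.tif L i.right.right.right.left))

/-- It is decidable in polynomial time whether a tree is the code of a program. -/
theorem isCode_polyDec : PolyDec (fun x => ∃ c : Code, x = c.enc) :=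
  (PolyDec.ne_leaf cF_polyTime.left).congr fun x => (cF_spec x).1

end Pool.Agent.H19
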