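import Pool.Agent.Lib_helper19.Arith

/-!
# Complexity classes of sets of trees, and the reflection conjecture

Definitions used in the statements about the consequences of the reflection conjecture.
-/

namespace Pool.Agent.H19

/-- The set `A` is in P. -/
def InP (A : Set T) : Prop := ∃ f : T → T, PolyTime f ∧ ∀ x, x ∈ A ↔ f x ≠ T.leaf

/-- The set `A` is in NP. -/
def InNP (A : Set T) : Prop := ∃ (f : T → T) (k : ℕ), PolyTime f ∧
  ∀ x, x ∈ A ↔ ∃ y : T, y.size ≤ (x.size + 2) ^ k ∧ f (T.node x y) ≠ T.leaf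

/-- The set `A` is in `Π^p_2 = coNP^NP`. -/
def InPi2 (A : Set T) : Prop := ∃ (f : T → T) (k : ℕ), PolyTime f ∧
  ∀ x, x ∈ A ↔ ∀ y : T, y.size ≤ (x.size + 2) ^ k →
    ∃ z : T, z.size ≤ (x.size + 2) ^ k ∧ f (T.node x (T.node y z)) ≠ T.leaf

/-- The set `A` contains only numbers of the form `2 ^ 2 ^ m`, in unary. -/
def SuperTally (A : Set T) : Prop := ∀ x ∈ A, ∃ m : ℕ, x = T.unary (2 ^ (2 ^ m))

/-- The program `c` halts on every input within the clock `(size x + 2) ^ κ`. -/
def HaltsWithin (c : Code) (κ : ℕ) : Prop :=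
  ∀ x : T, ∃ (y : T) (t : ℕ), Eval c x y t ∧ t ≤ (x.size + 2) ^ κ

/-- The assertion of Q1: for every `S` in the class there is a `T` in the class, given by a
clocked program `(c, κ)`, such that `S`-proofs of the reflection sentences of `T` for `n` cannot be
constructed in time polynomial in `n`. -/
def ReflectionConjecture (μ : Fm) (P : Code → ℕ → Fm) : Prop :=
  ∀ S : Set Fm, InClassT S → ∃ (c : Code) (κ : ℕ), HaltsWithin c κ ∧ InClassT (theory c κ) ∧
    ¬ ∃ f : T → T, PolyTime f ∧ ∀ n : ℕ, ∃ π : List Step,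
      f (T.unary n) = encProof π ∧ IsProof S π (rfn (P c κ) μ n)

end Pool.Agent.H19
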