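import Pool.Agent.Lib_helper19.Reflection

/-! # The diagonal presentation -/

namespace Pool.Agent.H19

open T

/-! ### False sentences that carry information -/

/-- A closed term describing a tree. -/
def tt : T → Tm
  | T.leaf => Tm.zero
  | T.node a b => Tm.add (tt a) (tt b)

/-- A false sentence describing a tree. -/
def falsum (v : T) : Fm := Fm.imp (Fm.eq (tt v) (tt v)) Fm.bot

theorem tt_size (v : T) : (tt v).enc.size ≤ 13 * v.size := by
  induction v with
  | leaf => simp [tt, Tm.enc, T.size, T.unary]
  | node a b iha ihb => simp only [tt, Tm.enc, T.size, T.size_unary]; omega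

theorem tt_polyTime : PolyTime (fun v => (tt v).enc) := by
  have i := PolyTime.id
  refine PolyTime₂.binRec₁ (c := Tm.zero.enc)
    (comb := fun w => T.node (T.unary 5) w.right)
    ((PolyTime.const _).node i.right) rfl (fun a b => rfl)
    (G := fun n => 13 * n) ((PolyB.const 13).mul PolyB.id) (fun a b h => by dsimp only; omega)
    tt_size

theorem falsum_polyTime : PolyTime (fun v => (falsum v).enc) :=
  (PolyTime.const _).node (((PolyTime.const _).node (tt_polyTime.node tt_polyTime)).node
    (PolyTime.const _))

/-- Recover the tree from the code of the describing term. -/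
def uu : T → T
  | T.leaf => T.leaf
  | T.node _ T.leaf => T.leaf
  | T.node t (T.node a b) => if t = T.unary 5 then T.node (uu a) (uu b) else T.leaf

theorem uu_tt (v : T) : uu (tt v).enc = v := by
  induction v with
  | leaf => simp [tt, Tm.enc, uu, T.unary]
  | node a b iha ihb => simp [tt, Tm.enc, uu, iha, ihb]

theorem uu_polyTime : PolyTime uu := by
  have i := PolyTime.id
  refine PolyTime.synRec₁ (F := uu) (d := T.leaf)
    (comb := fun w => if w.left.left = T.unary 5 then w.right else T.leaf)
    (PolyTime.ifEqs i.left.left i.right PolyTime.leaf) rfl (fun _ => rfl) ?_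
    (G := fun n => n) PolyB.id (fun _ _ h => h) ?_
  · intro t a b
    simp only [uu, T.left_node, T.right_node]
  · intro x
    induction x using uu.induct with
    | case1 => simp [uu]
    | case2 t => simp [uu, T.size]
    | case3 a b iha ihb => simp only [uu, if_true, T.size] at *; omega
    | case4 t a b h => simp [uu, h, T.size]

/-- The tree described by a formula, if it is of the form `falsum v`. -/
def unfalsum (x : T) : T := uu x.right.left.right.left

theorem unfalsum_enc (v : T) : unfalsum (falsum v).enc = v := by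
  simp [unfalsum, falsum, Fm.enc, uu_tt]

/-! ### A short proof of anything from `falsum v` -/

/-- A proof of `φ` from `falsum v`. -/
def refute (v : T) (φ : Fm) : List Step :=
  [Step.hyp (falsum v), Step.refl (tt v), Step.mp (Fm.eq (tt v) (tt v)) Fm.bot,
    Step.axK Fm.bot (Fm.imp φ Fm.bot),
    Step.mp Fm.bot (Fm.imp (Fm.imp φ Fm.bot) Fm.bot), Step.dne φ,
    Step.mp (Fm.imp (Fm.imp φ Fm.bot) Fm.bot) φ]

theorem refute_isProof {Th : Set Fm} {v : T} (h : falsum v ∈ Th) (φ : Fm) :
    IsProof Th (refute v φ) φ := by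
  simp only [IsProof, refute, Derives, Step.ok, Step.concl]
  refine ⟨h, trivial, ⟨?_, ?_⟩, trivial, ⟨?_, ?_⟩, trivial, ⟨?_, ?_⟩, rfl⟩ <;>
    simp [falsum]

theorem refute_size (v : T) (φ : Fm) :
    (encProof (refute v φ)).size ≤ 65 * v.size + (7 * φ.enc.size + 1000) := by
  have h := tt_size v
  simp only [encProof, refute, Step.enc, falsum, Fm.enc, T.size, T.size_unary]
  omega

/-! ### The reflection sentences in polynomial time -/

theorem rfn_polyTime (μ : Fm) {g : T → T} {f : T → ℕ} (hg : PolyTime g) (hf : PolyNat f) :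
    PolyTime (fun x => (rfn (decFm (g x)) μ (f x)).enc) := by
  have L := PolyTime.leaf
  have c : ∀ a : T, PolyTime (fun _ => a) := fun a => PolyTime.const a
  have I : ∀ {f g : T → T}, PolyTime f → PolyTime g → PolyTime (fun x =>
    T.node (T.unary 11) (T.node (f x) (g x))) := fun hf hg => (c _).node (hf.node hg)
  have A : ∀ {f : T → T}, PolyTime f → PolyTime (fun x =>
    T.node (T.unary 12) (T.node (f x) T.leaf)) := fun hf => (c _).node (hf.node L)
  have LE : ∀ i : ℕ, PolyTime (fun x => T.node (T.unary 10) (T.node (Tm.len (Tm.var i)).enc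
    (Tm.numeral (f x)).enc)) := fun i => (c _).node ((c _).node hf.numeral)
  exact A (A (A (A (I (LE 0) (I (LE 1) (I (LE 2) (I (LE 3)
    (I (normFm_polyTime.comp hg) (c μ.enc)))))))))

/-! ### The diagonal theorem -/

section
variable (S : Set Fm) (μ : Fm) (fP f₀ : T → T) (k m₁ : ℕ)

/-- The number for which the description `v` is meant. -/
def nOf (v : T) : ℕ := 200 * v.right.left.len + v.right.right.len

/-- The output of the program described by `v` on the argument and the advice described by `v`,
under the clock `n ^ k`. -/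
def outOf (v : T) : T :=
  simul (T.node v.left.left (T.node (T.node (T.unary (nOf v)) v.left.right)
    (T.unary (nOf v ^ k))))

/-- The description `v` describes a success of a program in proving the reflection sentence of
the presentation coded by `q`. -/
def Success (v q : T) : Prop :=
  m₁ ≤ v.right.left.len ∧ v.size ≤ 3 * v.right.left.len ∧
    IsProof S (decProof (outOf k v)) (rfn (decFm (fP q)) μ (nOf v))

open Classical in
/-- The diagonal decider: accept the additional axioms of `T₀` and all `falsum v` for which `v`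
describes a success. -/
noncomputable def diag (z : T) : T :=
  if (falsum (unfalsum z.left)).enc = z.left ∧ Success S μ fP k m₁ (unfalsum z.left) z.right
  then T.node T.leaf T.leaf else f₀ z.left

end

theorem diag_polyTime {S : Set Fm} {μ : Fm} {fP f₀ : T → T} {k m₁ : ℕ} (hS : DecTh S)
    (hfP : PolyTime fP) (hf₀ : PolyTime f₀) : PolyTime (diag S μ fP f₀ k m₁) := by
  have i := PolyTime.id
  have hv : PolyTime (fun z : T => unfalsum z.left) :=
    uu_polyTime.comp i.left.right.left.right.left
  have hn : PolyNat (fun z : T => nOf (unfalsum z.left)) :=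
    ((PolyNat.const 200).mul (PolyNat.len hv.right.left)).add (PolyNat.len hv.right.right)
  have hout : PolyTime (fun z : T => outOf k (unfalsum z.left)) :=
    simul_polyTime.comp (hv.left.left.node (((hn.unary).node hv.left.right).node
      (hn.pow k).unary))
  have hdec : PolyDec (fun z : T => (falsum (unfalsum z.left)).enc = z.left ∧
      Success S μ fP k m₁ (unfalsum z.left) z.right) := ?_
  · refine (PolyTime.ifP hdec (PolyTime.const (T.node T.leaf T.leaf))
      (hf₀.comp i.left)).congr fun z => ?_
    unfold diag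
    split_ifs <;> rfl
  refine (PolyDec.eq (falsum_polyTime.comp hv) i.left).and
    ((PolyDec.le (PolyNat.const m₁) (PolyNat.len hv.right.left)).and
    ((PolyDec.le (PolyNat.size hv) ((PolyNat.const 3).mul (PolyNat.len hv.right.left))).and ?_))
  have h := (isProof_polyDec hS).comp (hout.node (rfn_polyTime μ (hfP.comp i.right) hn))
  refine h.congr fun z => ?_
  simp only [T.left_node, T.right_node, decFm_enc]

/-- **Main theorem.** -/
theorem main_diag (μ : Fm) (hμ : IsUniversal μ) (P : Code → ℕ → Fm) (hP : IsFormalisation μ P)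
    (S T₀ : Set Fm) (hS : InClassT S) (hT₀ : InClassT T₀) (k : ℕ) :
    ∃ (c : Code) (κ : ℕ), (∀ x : T, ∃ (y : T) (t : ℕ), Eval c x y t ∧ t ≤ (x.size + 2) ^ κ) ∧
      theory c κ = T₀ ∧
      ∀ a : Code, ∃ n₀ : ℕ, ∀ n : ℕ, n₀ ≤ n → ∀ w : T, 500 * w.size ≤ n →
        ∀ (y : T) (t : ℕ), Eval a (T.node (T.unary n) w) y t → t ≤ n ^ k →
          ∀ π : List Step, y = encProof π → ¬ IsProof S π (rfn (P c κ) μ n) := by
  obtain ⟨fP, hfP, hfPc⟩ := hP.poly
  obtain ⟨hc₀, f₀, hf₀, hT₀f⟩ := hT₀
  obtain ⟨e₀, z₀, hfalse⟩ := hμ.false_instance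
  have hSdec := DecTh.of_inClassT hS
  obtain ⟨hSc, fS, _, hSf⟩ := hS
  have hSS : S12 ⊆ S := fun φ hφ => (hSf φ).2 (Or.inl hφ)
  -- from `m₁` on the short refutations fit
  let φ₀ : Fm := inst3 μ e₀ 0 z₀
  let m₁ : ℕ := 7 * φ₀.enc.size + 1001 + e₀.size + z₀.size
  obtain ⟨c, κ, hcκ⟩ := recursion (diag_polyTime (μ := μ) (k := k) (m₁ := m₁) hSdec hfP hf₀)
  have hacc : ∀ x : T, Accepts c κ x ↔
      diag S μ fP f₀ k m₁ (T.node x (T.node c.enc (T.unary κ))) ≠ T.leaf := by
    intro x
    obtain ⟨t, ht, hb⟩ := hcκ x
    exact accepts_iff ht hb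
  have hPc := hfPc c κ
  -- there is no success
  have hno : ∀ v : T, ¬ Success S μ fP k m₁ v (T.node c.enc (T.unary κ)) := by
    intro v hv
    have hmem : falsum v ∈ theory c κ := by
      refine Or.inr ((hacc _).2 ?_)
      have : diag S μ fP f₀ k m₁ (T.node (falsum v).enc (T.node c.enc (T.unary κ))) =
          T.node T.leaf T.leaf := by
        simp only [diag, T.left_node, T.right_node]
        rw [if_pos]
        exact ⟨by rw [unfalsum_enc], by rw [unfalsum_enc]; exact hv⟩
      rw [this]; simp
    obtain ⟨hv1, hv2, hv3⟩ := hv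
    rw [hPc, decFm_enc] at hv3
    have hsize := refute_size v φ₀
    have hnum := T.num_size (encProof (refute v φ₀))
    have hn : nOf v = 200 * v.right.left.len + v.right.right.len := rfl
    have hcorrect : (P c κ).sat stdN (vec4 e₀ 0 z₀ (encProof (refute v φ₀)).num) :=
      (hP.correct c κ e₀ 0 z₀ _).2 ⟨_, rfl, refute_isProof hmem φ₀⟩
    have hPb : (P c κ).bdd = true := (Fm.bdd_of _).1 (hP.delta c κ).1
    have hμb : μ.bdd = true := (Fm.bdd_of _).1 hμ.1
    have h1 := rfn_sound hSS hSc hPb hμb ⟨_, hv3⟩ (e := e₀) (x := 0) (z := z₀)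
      (u := (encProof (refute v φ₀)).num)
      (by rw [hn]; omega) (by simp) (by rw [hn]; omega)
      (by rw [hn, hnum]; omega) hcorrect
    refine hfalse ((Fm.sat_congr_below stdN μ hμ.2.1 (fun i hi => ?_)).1 h1)
    rcases i with _ | _ | _ | i
    · rfl
    · rfl
    · rfl
    · omega
  refine ⟨c, κ, fun x => ⟨_, hcκ x⟩, ?_, ?_⟩
  · ext φ
    rw [hT₀f]
    show (φ ∈ S12 ∨ Accepts c κ φ.enc) ↔ _
    rw [hacc]
    have : diag S μ fP f₀ k m₁ (T.node φ.enc (T.node c.enc (T.unary κ))) = f₀ φ.enc := by
      simp only [diag, T.left_node, T.right_node]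
      rw [if_neg fun h => hno _ h.2]
    rw [this]
  · intro a
    refine ⟨600 * (m₁ + a.enc.size + 1000), fun n hn w hw y t hy ht π hπ hproof => ?_⟩
    let m : ℕ := n / 200
    let r : ℕ := n % 200
    let v : T := T.node (T.node a.enc w) (T.node (T.unary m) (T.unary r))
    have hnv : nOf v = n := by
      simp only [nOf, v, T.right_node, T.left_node, T.len_unary, m, r]; omega
    refine hno v ⟨?_, ?_, ?_⟩
    · simp only [v, T.right_node, T.left_node, T.len_unary, m]; omega
    · simp only [v, T.right_node, T.left_node, T.len_unary, T.size, T.size_unary, m, r]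
      omega
    · rw [hnv]
      have h1 : outOf k v = y := by
        simp only [outOf, hnv]
        exact simul_spec hy ht
      rw [h1, hπ, decProof_enc, hPc, decFm_enc]
      exact hproof

end Pool.Agent.H19
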