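import Pool.Agent.Lib_helper19.Tally
import Pool.Agent.Lib_helper19.Diagonal
import Pool.Agent.Lib_helper19.Classes

/-! # A theory proving all reflection sentences, from a collapse for super-tally sets -/

namespace Pool.Agent.H19

open T

theorem InPi2.of {A : Set T} {R : T → Prop} (hR : NPred R) (k₀ : ℕ)
    (h : ∀ x, x ∈ A ↔ ∀ y : T, y.size ≤ (x.size + 2) ^ k₀ → R (T.node x y)) : InPi2 A := by
  obtain ⟨D, k, hD, h1, h2⟩ := hR
  obtain ⟨K, hK⟩ : PolyB (fun n => (n + 2) ^ k₀ + (n + (n + 2) ^ k₀ + 1 + 2) ^ k) :=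
    PolyB.add ⟨k₀, fun _ => le_rfl⟩ ((((PolyB.id.add ⟨k₀, fun _ => le_rfl⟩).add
      (PolyB.const 1)).add (PolyB.const 2)).pow k)
  have i := PolyTime.id
  have hdec : PolyDec (fun z : T => ¬ z.right.left.size ≤ (z.left.size + 2) ^ k₀ ∨
      D (T.node (T.node z.left z.right.left) z.right.right)) :=
    (PolyDec.le (PolyNat.size i.right.left) (((PolyNat.size i.left).add
      (PolyNat.const 2)).pow k₀)).not.or
      (hD.comp ((i.left.node i.right.left).node i.right.right))
  obtain ⟨f, hf, hfD⟩ := hdec
  refine ⟨f, K, hf, fun x => ?_⟩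
  have hKx := hK x.size
  beta_reduce at hKx
  rw [h x]
  constructor
  · intro hx y _
    by_cases hy : y.size ≤ (x.size + 2) ^ k₀
    · obtain ⟨w, hw, hd⟩ := h1 _ (hx y hy)
      refine ⟨w, ?_, (hfD _).1 (Or.inr hd)⟩
      have : ((T.node x y).size + 2) ^ k ≤ (x.size + (x.size + 2) ^ k₀ + 1 + 2) ^ k :=
        Nat.pow_le_pow_left (by simp only [T.size]; omega) _
      omega
    · exact ⟨T.leaf, Nat.one_le_pow _ _ (by omega), (hfD _).1 (Or.inl hy)⟩
  · intro hx y hy
    obtain ⟨z, _, hz⟩ := hx y (by omega)
    rcases (hfD _).2 hz with h3 | h3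
    · exact absurd hy h3
    · exact h2 _ _ h3

/-- The theory presented by the program with code `p.left`, with budget the length of
`p.right`. -/
def famTh (p : T) : Set Fm :=
  {φ | φ ∈ S12 ∨ simul (T.node p.left (T.node φ.enc p.right)) ≠ T.leaf}

theorem famTh_polyDec : PolyDec (fun z => decFm z.left ∈ famTh z.right) := by
  have i := PolyTime.id
  exact (S12_polyDec.comp i.left).or (PolyDec.ne_leaf (simul_polyTime.comp
    (i.right.left.node ((normFm_polyTime.comp i.left).node i.right.right))))

theorem inst3_polyTime (μ : Fm) :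
    PolyTime (fun y => (inst3 μ (bn y.left) (bn y.right.left) (bn y.right.right)).enc) := by
  have i := PolyTime.id
  have h : ∀ {g : T → T} {f : T → ℕ}, PolyTime g → PolyN f →
      PolyTime (fun y => ((decFm (g y)).inst 0 (Tm.numeral (f y))).enc) := by
    intro g f hg hf
    refine (inst_polyTime.comp hg hf.numeral).congr fun y => ?_
    rw [decTm_enc]
  have h1 := h (PolyTime.const μ.enc) (canon_polyTime.comp i.left)
  have h2 := h h1 (canon_polyTime.comp i.right.left)
  have h3 := h h2 (canon_polyTime.comp i.right.right)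
  refine h3.congr fun y => ?_
  simp only [decFm_enc]; rfl

/-- The assignment of a triple. -/
def env3 (y : T) : T := T.node y.left (T.node y.right.left (T.node y.right.right T.leaf))

theorem envOf_leaf : envOf T.leaf = fun _ => 0 := by
  funext i
  have : T.right^[i] T.leaf = T.leaf := by
    induction i with
    | zero => rfl
    | succ i ih => rw [Function.iterate_succ_apply', ih]; rfl
  rw [envOf, this]; rfl

/-- The instances of reflection below the bound attached to the index `x`. -/
def GoodAt (μ : Fm) (x y : T) : Prop :=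
  y.size ≤ 2 ^ lOf x →
    IsProof (famTh (T.node (qOf x).left x)) (decProof y.left)
      (inst3 μ (bn y.right.left) (bn y.right.right.left) (bn y.right.right.right)) →
    μ.sat stdN (envOf (env3 y.right))

/-- The super-tally set attached to `μ`. -/
def AA (μ : Fm) : Set T := {x | Tower x ∧ ∀ y, GoodAt μ x y}

theorem AA_superTally (μ : Fm) : SuperTally (AA μ) := fun _ hx => hx.1

theorem AA_inPi2 {μ : Fm} (hμ : μ.isSigma = true) : InPi2 (AA μ) := by
  have i := PolyTime.id
  have h1 : PolyDec (fun z : T => z.right.size ≤ 2 ^ lOf z.left) :=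
    PolyDec.leN (PolyNat.size i.right).toN (PolyN.pow2 (lOf_polyNat.comp i.left))
  have h2 : PolyDec (fun z : T => IsProof (famTh (T.node (qOf z.left).left z.left))
      (decProof z.right.left) (inst3 μ (bn z.right.right.left) (bn z.right.right.right.left)
        (bn z.right.right.right.right))) := by
    refine ((isProofP_polyDec famTh_polyDec).comp
      (((qOf_polyTime.comp i.left).left.node i.left).node (i.right.left.node
        ((inst3_polyTime μ).comp i.right.right)))).congr fun z => ?_
    simp only [T.left_node, T.right_node, decFm_enc]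
  have h3 : NPred (fun z : T => μ.sat stdN (envOf (env3 z.right.right))) :=
    ((sat_npred μ).1 hμ).comp (i.right.right.left.node (i.right.right.right.left.node
      (i.right.right.right.right.node PolyTime.leaf)))
  refine InPi2.of (R := fun z => Tower z.left ∧ GoodAt μ z.left z.right)
    ((NPred.dec (tower_polyDec.comp i.left)).and
      (((NPred.dec h1.not).or ((NPred.dec h2.not).or h3)).congr fun z => ?_)) 1 fun x => ?_
  · simp only [GoodAt]; tauto
  · constructor
    · rintro ⟨h, h'⟩ y _
      exact ⟨h, h' y⟩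
    · intro h
      have ht : Tower x := (h T.leaf (by simp only [T.size, pow_one]; omega)).1
      refine ⟨ht, fun y hy => ?_⟩
      refine (h y ?_).2 hy
      refine hy.trans ?_
      obtain ⟨m, rfl⟩ := ht
      have h4 : lOf (T.unary (2 ^ 2 ^ m)) ≤ 2 ^ m := by
        rw [lOf, lg_tower]; exact Nat.div_le_self _ _
      have h5 := Nat.pow_le_pow_right (show 0 < 2 by omega) h4
      rw [T.size_unary, pow_one]
      omega

/-! ### Truth of the reflection sentences -/

theorem Derives.mono {Th Th' : Set Fm} {π : List Step} {φ : Fm} :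
    ∀ {prev : List Fm}, Derives Th prev π φ →
    (∀ χ, Step.hyp χ ∈ π → χ ∈ Th → χ ∈ Th') → Derives Th' prev π φ := by
  induction π with
  | nil => intro prev h _; exact h
  | cons s π ih =>
    intro prev h h'
    refine ⟨?_, ih h.2 fun χ hχ => h' χ (List.mem_cons_of_mem _ hχ)⟩
    have h1 := h.1
    cases s with
    | hyp χ => exact h' χ (by simp) h1
    | _ => exact h1

theorem hyp_size {χ : Fm} {π : List Step} (h : Step.hyp χ ∈ π) :
    χ.enc.size ≤ (encProof π).size := by
  induction π with
  | nil => simp at h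
  | cons s π ih =>
    simp only [encProof, T.size]
    rcases List.mem_cons.1 h with h | h
    · subst h; simp only [Step.enc, T.size]; omega
    · have := ih h; omega

theorem hyp_decProof {χ : Fm} {w : T} (h : Step.hyp χ ∈ decProof w) :
    χ.enc.size ≤ 21 * w.size := by
  induction w with
  | leaf => simp [decProof, T.toL] at h
  | node a t _ ih =>
    have h1 : decProof (T.node a t) = decStep a :: decProof t := by simp [decProof, T.toL]
    rw [h1] at h
    simp only [T.size]
    rcases List.mem_cons.1 h with h | h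
    · have h2 : χ = decFm a.right := by
        rw [decStep] at h
        split_ifs at h
        simpa using h
      rw [h2]
      have h3 := normFm_size a.right
      have h4 := T.size_right_le a
      omega
    · have := ih h; omega

theorem rfn_true {μ : Fm} (hμb : μ.fvBelow 3) {P : Code → ℕ → Fm} (hP : IsFormalisation μ P)
    {c : Code} {κ : ℕ} {x : T} (hx : x ∈ AA μ) (hq : qOf x = T.node c.enc (T.unary κ)) {n : ℕ}
    (hn : 13 * n + 6 ≤ 2 ^ lOf x) (v : ℕ → ℕ) : (rfn (P c κ) μ n).sat stdN v := by
  obtain ⟨⟨m, hm⟩, hgood⟩ := hx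
  -- the clock is within the budget
  have hκ : κ ≤ aOf x := by
    have h1 := treeOf_size (bl (aOf x))
    have h2 := bl_size' (aOf x)
    have h3 : treeOf (bl (aOf x)) = T.node c.enc (T.unary κ) := hq
    rw [h3] at h1
    have := T.size_pos c.enc
    simp only [T.size, T.size_unary] at h1
    omega
  have hbud : (n + 2) ^ κ ≤ x.len := by
    have hlen : x.len = 2 ^ lg x := by rw [hm, lg_tower, T.len_unary]
    rw [hlen]
    calc (n + 2) ^ κ ≤ (2 ^ lOf x) ^ κ := Nat.pow_le_pow_left (by omega) _
      _ ≤ (2 ^ lOf x) ^ (2 ^ aOf x) := Nat.pow_le_pow_right (by positivity)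
          (hκ.trans Nat.lt_two_pow_self.le)
      _ = 2 ^ (lOf x * 2 ^ aOf x) := by rw [← pow_mul]
      _ ≤ 2 ^ lg x := Nat.pow_le_pow_right (by omega) (Nat.div_mul_le_self _ _)
  intro u z y e
  simp only [Fm.sat, Tm.val, Tm.numeral_val]
  intro h1 h2 h3 h4 h5
  simp only [scons, stdN] at h1 h2 h3 h4
  have h6 : (P c κ).sat stdN (scons e (scons y (scons z (scons u fun _ => 0)))) := by
    refine (Fm.sat_congr_below stdN _ (hP.below c κ) (fun i hi => ?_)).1 h5
    rcases i with _ | _ | _ | _ | i
    · rfl
    · rfl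
    · rfl
    · rfl
    · omega
  obtain ⟨π, hu, hπ⟩ := (hP.correct c κ e y z u).1 h6
  have h7 := T.num_size (encProof π)
  rw [← hu] at h7
  have h8 := hgood (T.node (encProof π) (T.node (bl e) (T.node (bl y) (bl z)))) (by
    have := bl_size e
    have := bl_size y
    have := bl_size z
    simp only [T.size]
    omega) (by
    simp only [T.left_node, T.right_node, bn_bl, decProof_enc, hq]
    refine Derives.mono hπ fun χ hχ hTh => ?_
    rcases hTh with h | ⟨w, t, ht, htb, hw⟩
    · exact Or.inl h
    · refine Or.inr ?_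
      simp only [T.left_node, T.right_node]
      have h9 := hyp_size hχ
      have h10 : (χ.enc.size + 2) ^ κ ≤ (n + 2) ^ κ := Nat.pow_le_pow_left (by omega) _
      have hxu : x = T.unary x.len := by rw [hm, T.len_unary]
      rw [hxu, simul_spec ht (htb.trans (h10.trans hbud))]
      exact hw)
  simp only [T.right_node, env3, envOf_node, bn_bl, T.left_node] at h8
  refine (Fm.sat_congr_below stdN μ hμb (fun i hi => ?_)).1 h8
  rcases i with _ | _ | _ | i
  · rfl
  · rfl
  · rfl
  · omega

theorem inst3_sound {Th : Set Fm} (hS : S12 ⊆ Th) (hc : Consistent Th) {μ : Fm}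
    (hμ : μ.bdd = true) {e x z : ℕ} (hp : Provable Th (inst3 μ e x z)) :
    μ.sat stdN (scons e (scons x (scons z fun _ => 0))) := by
  obtain ⟨M, A, hA⟩ := hc
  obtain ⟨π, hπ⟩ := hp
  have g : Good A := good_of_models fun φ hφ v => hA φ (hS hφ) v
  have h1 := hπ.sound hA (fun _ => A.nat 0)
  have henv : scons (A.nat e) (scons (A.nat x) (scons (A.nat z) fun _ => A.nat 0)) =
      fun i => A.nat (scons e (scons x (scons z fun _ => 0)) i) := by
    funext i
    rcases i with _ | _ | _ | i <;> rfl
  simp only [inst3, Fm.sat_inst, g.numeral] at h1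
  rw [henv, g.sat_iff μ hμ] at h1
  exact h1

/-- The index set contains all indices of sound presentations. -/
theorem mem_AA {μ : Fm} (hμ : μ.isSigma = true) {c : Code} {κ : ℕ} (hc : HaltsWithin c κ)
    (hcons : Consistent (theory c κ)) {b m : ℕ}
    (hm : m + 1 = 2 ^ tc (T.node c.enc (T.unary κ)) * (2 * b + 1)) :
    T.unary (2 ^ (2 ^ m)) ∈ AA μ := by
  have ha := aOf_tower hm
  have hq : qOf (T.unary (2 ^ (2 ^ m))) = T.node c.enc (T.unary κ) := by
    rw [qOf, ha, treeOf_tc]
  have hκa : 6 * κ ≤ 2 ^ tc (T.node c.enc (T.unary κ)) := by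
    have h1 : 1 ≤ tc c.enc := by
      have : 1 ≤ tc (T.node c.enc.left c.enc.right) := by
        rw [tc]; exact Nat.one_le_iff_ne_zero.2 (by positivity)
      rwa [← T.eq_node (by cases c <;> simp [Code.enc])] at this
    have h2 := le_tc_unary κ
    have h3 : 4 * κ + 2 ≤ tc (T.node c.enc (T.unary κ)) := by
      rw [tc]
      have : 2 ^ 1 ≤ 2 ^ tc c.enc := Nat.pow_le_pow_right (by omega) h1
      nlinarith
    have h4 : 2 ^ (4 * κ + 2) ≤ 2 ^ tc (T.node c.enc (T.unary κ)) :=
      Nat.pow_le_pow_right (by omega) h3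
    have h5 : 4 * κ + 2 < 2 ^ (4 * κ + 2) := Nat.lt_two_pow_self
    have h6 : 2 ^ (4 * κ + 2) = 4 * 2 ^ (4 * κ) := by rw [pow_add]; ring
    have h7 : 4 * κ < 2 ^ (4 * κ) := Nat.lt_two_pow_self
    omega
  refine ⟨⟨m, rfl⟩, fun y hy hpr => ?_⟩
  rw [hq, T.left_node] at hpr
  have hL : lOf (T.unary (2 ^ (2 ^ m))) = 2 ^ m / 2 ^ tc (T.node c.enc (T.unary κ)) := by
    rw [lOf, ha, lg_tower]
  rw [hL] at hy
  have hma : tc (T.node c.enc (T.unary κ)) ≤ m := by
    have h1 : tc (T.node c.enc (T.unary κ)) < 2 ^ tc (T.node c.enc (T.unary κ)) :=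
      Nat.lt_two_pow_self
    have h2 : 2 ^ tc (T.node c.enc (T.unary κ)) ≤ m + 1 := by
      rw [hm]; exact Nat.le_mul_of_pos_right _ (by omega)
    omega
  generalize tc (T.node c.enc (T.unary κ)) = a at *
  have hL1 : 1 ≤ 2 ^ m / 2 ^ a := by
    rw [Nat.pow_div hma (by omega)]
    exact Nat.one_le_two_pow
  generalize hLL : 2 ^ m / 2 ^ a = L at *
  have hLm : L * 2 ^ a ≤ 2 ^ m := by rw [← hLL]; exact Nat.div_mul_le_self _ _
  have hpr' : Provable (theory c κ)
      (inst3 μ (bn y.right.left) (bn y.right.right.left) (bn y.right.right.right)) := by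
    refine ⟨_, Derives.mono hpr fun χ hχ hTh => ?_⟩
    rcases hTh with h | h
    · exact Or.inl h
    · right
      simp only [T.left_node, T.right_node] at h
      obtain ⟨w, t, ht, htb⟩ := hc χ.enc
      have h1 := hyp_decProof hχ
      have h2 : y.left.size ≤ y.size := T.size_left_le y
      have h3 : (χ.enc.size + 2) ^ κ ≤ 2 ^ (2 ^ m) := by
        calc (χ.enc.size + 2) ^ κ ≤ (2 ^ (L + 5)) ^ κ := by
              apply Nat.pow_le_pow_left
              rw [pow_add]
              have : 1 ≤ 2 ^ L := Nat.one_le_two_pow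
              omega
          _ = 2 ^ ((L + 5) * κ) := by rw [← pow_mul]
          _ ≤ 2 ^ (2 ^ m) := by
              apply Nat.pow_le_pow_right (by omega)
              refine le_trans ?_ hLm
              calc (L + 5) * κ ≤ (6 * L) * κ := Nat.mul_le_mul_right _ (by omega)
                _ = L * (6 * κ) := by ring
                _ ≤ L * 2 ^ a := Nat.mul_le_mul_left _ hκa
      rw [simul_spec ht (htb.trans h3)] at h
      exact ⟨w, t, ht, htb, h⟩
  have h4 := inst3_sound (fun φ h => Or.inl h) hcons ((Fm.bdd_of μ).1 hμ) hpr'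
  simp only [env3, envOf_node, envOf_leaf]
  exact h4

/-! ### The theory -/

/-- The sentence `ψ`, padded with a description of the tree `w`. -/
def padF (w : T) (ψ : Fm) : Fm := Fm.imp (Fm.eq (tt w) (tt w)) ψ

/-- The reflection sentence attached to a description `w = ((x, v), n)`. -/
def psiOf (μ : Fm) (fP : T → T) (w : T) : Fm := rfn (decFm (fP (qOf w.left.left))) μ w.right.len

/-- Conditions on a description. -/
def CondOf (D : T → Prop) (w : T) : Prop :=
  D w.left ∧ (∃ c : Code, (qOf w.left.left).left = c.enc) ∧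
    (qOf w.left.left).right = T.unary (qOf w.left.left).right.len ∧
    13 * w.right.len + 6 ≤ 2 ^ lOf w.left.left

/-- The code `x` is that of an additional axiom. -/
def AccOf (μ : Fm) (fP : T → T) (D : T → Prop) (x : T) : Prop :=
  (padF (unfalsum x) (psiOf μ fP (unfalsum x))).enc = x ∧ CondOf D (unfalsum x)

theorem unfalsum_padF (w : T) (ψ : Fm) : unfalsum (padF w ψ).enc = w := by
  simp [unfalsum, padF, Fm.enc, uu_tt]

theorem padF_polyTime {g h : T → T} (hg : PolyTime g) (hh : PolyTime h) :
    PolyTime (fun x => T.node (T.unary 11) (T.node (T.node (T.unary 9)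
      (T.node (tt (g x)).enc (tt (g x)).enc)) (h x))) :=
  (PolyTime.const _).node (((PolyTime.const _).node ((tt_polyTime.comp hg).node
    (tt_polyTime.comp hg))).node hh)

theorem AccOf_polyDec {μ : Fm} {fP : T → T} (hfP : PolyTime fP) {D : T → Prop}
    (hD : PolyDec D) : PolyDec (AccOf μ fP D) := by
  have i := PolyTime.id
  have hw : PolyTime unfalsum := uu_polyTime.comp i.right.left.right.left
  have hq := qOf_polyTime.comp hw.left.left
  have hpsi : PolyTime (fun x => (psiOf μ fP (unfalsum x)).enc) :=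
    rfn_polyTime μ (hfP.comp hq) (PolyNat.len hw.right)
  refine (PolyDec.eq (padF_polyTime hw hpsi) i).and ((hD.comp hw.left).and
    (((isCode_polyDec.comp hq.left)).and ((PolyDec.eq hq.right (PolyNat.len hq.right).unary).and
      (PolyDec.leN (((PolyNat.const 13).mul (PolyNat.len hw.right)).add (PolyNat.const 6)).toN
        (PolyN.pow2 (lOf_polyNat.comp hw.left.left))))))

/-- A proof of `ψ` from `padF w ψ`. -/
def unpad (w : T) (ψ : Fm) : List Step :=
  [Step.hyp (padF w ψ), Step.refl (tt w), Step.mp (Fm.eq (tt w) (tt w)) ψ]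

theorem unpad_isProof {Th : Set Fm} {w : T} {ψ : Fm} (h : padF w ψ ∈ Th) :
    IsProof Th (unpad w ψ) ψ := by
  simp only [IsProof, unpad, Derives, Step.ok, Step.concl]
  exact ⟨h, trivial, ⟨by simp [padF], by simp⟩, rfl⟩

/-- **Main construction.** If `D` recognises, with witnesses, members of the super-tally set
`AA μ`, then there is a theory `S` in the class in which for every theory of the class the
reflection sentences are provable, with proofs computed from the witnesses. -/
theorem collapse {μ : Fm} (hμ : μ.isSigma = true) (hμb : μ.fvBelow 3) {P : Code → ℕ → Fm}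
    (hP : IsFormalisation μ P) {D : T → Prop} (hD : PolyDec D)
    (hDs : ∀ x v, D (T.node x v) → x ∈ AA μ) :
    ∃ S : Set Fm, InClassT S ∧ ∀ (c : Code) (κ : ℕ), HaltsWithin c κ →
      Consistent (theory c κ) → ∃ (N : ℕ → ℕ) (g : T → T), PolyNat (fun x => N x.len) ∧
        PolyTime g ∧ ∀ n, T.unary (N n) ∈ AA μ ∧ ∀ v, D (T.node (T.unary (N n)) v) →
          ∃ π, g (T.node (T.unary n) v) = encProof π ∧ IsProof S π (rfn (P c κ) μ n) := by
  have i := PolyTime.id
  obtain ⟨fP, hfP, hfPc⟩ := hP.poly
  obtain ⟨f, hf, hfA⟩ := AccOf_polyDec (μ := μ) hfP hD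
  refine ⟨{φ | φ ∈ S12 ∨ AccOf μ fP D φ.enc}, ⟨⟨ℕ, stdN, ?_⟩, f, hf, fun φ => ?_⟩, ?_⟩
  · rintro φ (h | ⟨h1, h2, ⟨c, hc⟩, h3, h4⟩) v
    · exact stdN_models φ h v
    · have h5 := Fm.enc_inj.1 h1
      rw [← h5]
      intro _
      have hq : qOf (unfalsum φ.enc).left.left =
          T.node c.enc (T.unary (qOf (unfalsum φ.enc).left.left).right.len) := by
        rw [← h3, ← hc]
        apply T.eq_node
        intro h
        rw [h, T.left_leaf] at hc
        cases c <;> simp [Code.enc] at hc
      have hx : (unfalsum φ.enc).left.left ∈ AA μ := by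
        refine hDs _ (unfalsum φ.enc).left.right ?_
        have : T.node (unfalsum φ.enc).left.left (unfalsum φ.enc).left.right =
            (unfalsum φ.enc).left := by
          symm
          apply T.eq_node
          intro h
          -- a leaf is not in the tower
          rw [h] at hq
          simp only [T.left_leaf] at hq
          have h6 : qOf T.leaf = T.leaf := by
            have : aOf T.leaf = 0 := by
              have h7 : lglg T.leaf = 0 := by simp [lglg, lg]
              rw [aOf, h7, show (0 + 1 : ℕ) = 2 ^ 0 * (2 * 0 + 1) by rfl, sp_bl]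
              rfl
            rw [qOf, this, bl_zero, treeOf]; simp
          rw [h6] at hq
          simp at hq
        rw [this]; exact h2
      have h6 := rfn_true hμb hP hx hq h4 v
      have h7 : psiOf μ fP (unfalsum φ.enc) = rfn (P c
          (qOf (unfalsum φ.enc).left.left).right.len) μ (unfalsum φ.enc).right.len := by
        rw [psiOf]
        conv_lhs => rw [hq, hfPc, decFm_enc]
      rw [h7]
      exact h6
  · rw [← hfA]; rfl
  · intro c κ hc hcons
    generalize hadef : tc (T.node c.enc (T.unary κ)) = a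
    let s : ℕ → ℕ := fun n => 13 * n + 6
    let N : ℕ → ℕ := fun n => 2 ^ (2 ^ mIdx a (s n))
    have hs : PolyNat (fun x : T => s x.len) :=
      ((PolyNat.const 13).mul (PolyNat.len i)).add (PolyNat.const 6)
    have hm : PolyNat (fun x : T => mIdx a (s x.len)) := by
      have h1 : PolyNat (fun x : T => (s x.len).size.size) :=
        PolyN.size (PolyNat.toN (PolyN.size hs.toN))
      have h2 := (h1.add (PolyNat.const a)).divPow (a + 1)
      exact ((((PolyNat.const (2 ^ (a + 1))).mul (h2.add (PolyNat.const 1))).add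
        (PolyNat.const (2 ^ a))).sub (PolyNat.const 1))
    have hN : PolyNat (fun x : T => N x.len) := by
      refine PolyNat.tower hm ?_
      obtain ⟨k, hk⟩ : PolyB (fun n => (4 * (13 * n + 6) + 2) ^
          (2 ^ (a + 2 ^ (a + 1) + 2 ^ a + 1))) :=
        (((PolyB.const 4).mul (((PolyB.const 13).mul PolyB.id).add (PolyB.const 6))).add
          (PolyB.const 2)).pow _
      refine ⟨k, fun x => le_trans ?_ (hk x.size)⟩
      refine (tower_mIdx_le a (s x.len)).trans (Nat.pow_le_pow_left ?_ _)
      have := T.len_lt_size x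
      simp only [s]; omega
    let w : T → T := fun z => T.node (T.node (T.unary (N z.left.len)) z.right)
      (T.unary z.left.len)
    have hw : PolyTime w :=
      (((hN.comp i.left).unary).node i.right).node (PolyNat.len i.left).unary
    have hψ : PolyTime (fun z : T => (rfn (decFm (P c κ).enc) μ z.left.len).enc) :=
      rfn_polyTime μ (PolyTime.const _) (PolyNat.len i.left)
    refine ⟨N, fun z => encProof (unpad (w z) (rfn (decFm (P c κ).enc) μ z.left.len)), hN,
      ?_, fun n => ⟨?_, fun v hv => ?_⟩⟩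
    · have htw := tt_polyTime.comp hw
      have heq : PolyTime (fun z : T => (Fm.eq (tt (w z)) (tt (w z))).enc) :=
        (PolyTime.const _).node (htw.node htw)
      exact ((PolyTime.const _).node (padF_polyTime hw hψ)).node
        (((PolyTime.const _).node htw).node (((PolyTime.const _).node
          (heq.node hψ)).node PolyTime.leaf))
    · exact mem_AA hμ hc hcons (by rw [hadef]; exact mIdx_succ a (s n))
    · refine ⟨_, rfl, ?_⟩
      simp only [T.left_node, T.len_unary, decFm_enc]
      apply unpad_isProof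
      right
      have hun : unfalsum (padF (w (T.node (T.unary n) v)) (rfn (P c κ) μ n)).enc =
          w (T.node (T.unary n) v) := unfalsum_padF _ _
      have hidx : aOf (T.unary (N n)) = a := aOf_tower (mIdx_succ a (s n))
      have hq : qOf (T.unary (N n)) = T.node c.enc (T.unary κ) := by
        rw [qOf, hidx, ← hadef, treeOf_tc]
      have hwl : (w (T.node (T.unary n) v)).left.left = T.unary (N n) := by
        simp only [w, T.left_node, T.len_unary]
      have hwr : (w (T.node (T.unary n) v)).right.len = n := by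
        simp only [w, T.left_node, T.right_node, T.len_unary]
      refine ⟨?_, ?_⟩
      · rw [hun, psiOf, hwl, hwr, hq, hfPc, decFm_enc]
      · rw [hun]
        refine ⟨?_, ⟨c, by rw [hwl, hq, T.left_node]⟩, by rw [hwl, hq]; simp, ?_⟩
        · simp only [w, T.left_node, T.right_node, T.len_unary]
          exact hv
        · rw [hwl, hwr, lOf, hidx]
          have h1 : lg (T.unary (N n)) = 2 ^ mIdx a (s n) := lg_tower _
          rw [h1]
          exact (le_pow_mIdx a (s n)).le

/-- The reflection conjecture implies that the super-tally set is not in P. -/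
theorem conj_imp {μ : Fm} (hμ : IsUniversal μ) {P : Code → ℕ → Fm} (hP : IsFormalisation μ P)
    (h : ReflectionConjecture μ P) : ¬ InP (AA μ) := by
  rintro ⟨f, hf, hfA⟩
  have i := PolyTime.id
  obtain ⟨S, hS, hall⟩ := collapse hμ.1 hμ.2.1 hP (D := fun z => f z.left ≠ T.leaf)
    (PolyDec.ne_leaf (hf.comp i.left)) (fun x v h => (hfA x).2 h)
  obtain ⟨c, κ, hc, hT, hno⟩ := h S hS
  obtain ⟨N, g, _, hg, hNg⟩ := hall c κ hc hT.1
  refine hno ⟨fun x => g (T.node x T.leaf), hg.comp (i.node PolyTime.leaf), fun n => ?_⟩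
  obtain ⟨h1, h2⟩ := hNg n
  exact h2 T.leaf ((hfA _).1 h1)

/-- If the super-tally set is in NP, then some theory of the class has proofs of
polynomial length of the reflection sentences of all theories of the class. -/
theorem short_proofs {μ : Fm} (hμ : IsUniversal μ) {P : Code → ℕ → Fm}
    (hP : IsFormalisation μ P) (h : InNP (AA μ)) :
    ∃ S : Set Fm, InClassT S ∧ ∀ (c : Code) (κ : ℕ), HaltsWithin c κ →
      InClassT (theory c κ) → ∃ k : ℕ, ∀ n : ℕ, ∃ π : List Step,
        IsProof S π (rfn (P c κ) μ n) ∧ (encProof π).size ≤ (n + 2) ^ k := by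
  obtain ⟨f, k, hf, hfA⟩ := h
  have i := PolyTime.id
  obtain ⟨S, hS, hall⟩ := collapse hμ.1 hμ.2.1 hP
    (D := fun z => z.right.size ≤ (z.left.size + 2) ^ k ∧
      f (T.node z.left z.right) ≠ T.leaf)
    ((PolyDec.le (PolyNat.size i.right) (((PolyNat.size i.left).add
      (PolyNat.const 2)).pow k)).and (PolyDec.ne_leaf (hf.comp (i.left.node i.right))))
    (fun x v h => (hfA x).2 ⟨v, h.1, h.2⟩)
  refine ⟨S, hS, fun c κ hc hcons => ?_⟩
  obtain ⟨N, g, hN, hg, hNg⟩ := hall c κ hc hcons.1
  obtain ⟨k₁, hk₁⟩ := PolyTime.size_bound hN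
  obtain ⟨k₂, hk₂⟩ := hg.size_bound
  obtain ⟨K, hK⟩ : PolyB (fun n => (2 * n + 1 + ((2 * n + 1 + 2) ^ k₁ + 2) ^ k + 1 + 2) ^ k₂) := by
    have h1 : PolyB (fun n => 2 * n + 1) := ((PolyB.const 2).mul PolyB.id).add (PolyB.const 1)
    exact (((h1.add ((((h1.add (PolyB.const 2)).pow k₁).add (PolyB.const 2)).pow k)).add
      (PolyB.const 1)).add (PolyB.const 2)).pow k₂
  refine ⟨K, fun n => ?_⟩
  obtain ⟨h1, h2⟩ := hNg n
  obtain ⟨v, hv, hfv⟩ := (hfA _).1 h1
  obtain ⟨π, hπ, hpr⟩ := h2 v ⟨hv, hfv⟩
  refine ⟨π, hpr, ?_⟩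
  rw [← hπ]
  refine (hk₂ _).trans (le_trans (Nat.pow_le_pow_left ?_ _) (hK n))
  have h3 := hk₁ (T.unary n)
  beta_reduce at h3
  rw [T.len_unary, T.size_unary n] at h3
  have h4 : ((T.unary (N n)).size + 2) ^ k ≤ ((2 * n + 1 + 2) ^ k₁ + 2) ^ k :=
    Nat.pow_le_pow_left (by omega) _
  simp only [T.size, T.size_unary] at hv h4 ⊢
  omega

end Pool.Agent.H19
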