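import Pool.Agent.Lib_helper19.Diagonal

/-!
# The fixed-exponent version of the reflection conjecture holds, almost everywhere and with
linear advice

Let `μ` be a universal `Σ^b_1` formula and let `P` be an assignment of `Δ^b_1` proof formulas to
clocked programs (presentations of theories), as in the problem. For all theories `S`, `T₀` of the
class and every exponent `k` the theory `T₀` has a presentation by a program `c` that always halts
within its clock `(size x + 2) ^ κ`, such that no program produces, from `n` and from advice of
size at most `n / 500`, within cost `n ^ k` an `S`-proof of the reflection sentence for `n` of that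
presentation, for any sufficiently large `n`.
-/

namespace Pool.Agent.H19.FixedExponentResult

open Pool.Agent.H19

theorem result (μ : Fm) (hμ : IsUniversal μ) (P : Code → ℕ → Fm) (hP : IsFormalisation μ P)
    (S T₀ : Set Fm) (hS : InClassT S) (hT₀ : InClassT T₀) (k : ℕ) :
    ∃ (c : Code) (κ : ℕ), (∀ x : T, ∃ (y : T) (t : ℕ), Eval c x y t ∧ t ≤ (x.size + 2) ^ κ) ∧
      theory c κ = T₀ ∧
      ∀ a : Code, ∃ n₀ : ℕ, ∀ n : ℕ, n₀ ≤ n → ∀ w : T, 500 * w.size ≤ n →
        ∀ (y : T) (t : ℕ), Eval a (T.node (T.unary n) w) y t → t ≤ n ^ k →
          ∀ π : List Step, y = encProof π → ¬ IsProof S π (rfn (P c κ) μ n) :=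
  main_diag μ hμ P hP S T₀ hS hT₀ k

end Pool.Agent.H19.FixedExponentResult
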