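import Pool.Agent.Lib_helper19.Binary

/-! # Predicates in NP and their closure properties -/

namespace Pool.Agent.H19

open T

/-- Predicates in NP. -/
def NPred (R : T → Prop) : Prop :=
  ∃ (D : T → Prop) (k : ℕ), PolyDec D ∧
    (∀ x, R x → ∃ w : T, w.size ≤ (x.size + 2) ^ k ∧ D (T.node x w)) ∧
    ∀ x w, D (T.node x w) → R x

theorem NPred.of {R D : T → Prop} {G : ℕ → ℕ} (hD : PolyDec D) (hG : PolyB G)
    (h1 : ∀ x, R x → ∃ w : T, w.size ≤ G x.size ∧ D (T.node x w))
    (h2 : ∀ x w, D (T.node x w) → R x) : NPred R := by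
  obtain ⟨k, hk⟩ := hG
  exact ⟨D, k, hD, fun x hx => by
    obtain ⟨w, hw, hd⟩ := h1 x hx
    exact ⟨w, hw.trans (hk _), hd⟩, h2⟩

theorem NPred.congr {R Q : T → Prop} (hR : NPred R) (h : ∀ x, R x ↔ Q x) : NPred Q := by
  obtain ⟨D, k, hD, h1, h2⟩ := hR
  exact ⟨D, k, hD, fun x hx => h1 x ((h x).2 hx), fun x w hw => (h x).1 (h2 x w hw)⟩

theorem NPred.dec {R : T → Prop} (hR : PolyDec R) : NPred R :=
  NPred.of (D := fun z => R z.left) (hR.comp PolyTime.id.left) (PolyB.const 1)
    (fun _ hx => ⟨T.leaf, le_rfl, hx⟩) (fun _ _ h => h)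

theorem NPred.or {R Q : T → Prop} (hR : NPred R) (hQ : NPred Q) : NPred (fun x => R x ∨ Q x) := by
  obtain ⟨D, k, hD, h1, h2⟩ := hR
  obtain ⟨E, m, hE, h3, h4⟩ := hQ
  have i := PolyTime.id
  refine NPred.of (D := fun z => (z.right.left = T.leaf ∧ D (T.node z.left z.right.right)) ∨
    (z.right.left ≠ T.leaf ∧ E (T.node z.left z.right.right)))
    (((PolyDec.eq_leaf i.right.left).and (hD.comp (i.left.node i.right.right))).or
      ((PolyDec.ne_leaf i.right.left).and (hE.comp (i.left.node i.right.right))))
    (G := fun n => (n + 2) ^ k + (n + 2) ^ m + 4)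
    ((PolyB.add (PolyB.add ⟨k, fun _ => le_rfl⟩ ⟨m, fun _ => le_rfl⟩)) (PolyB.const 4)) ?_ ?_
  · rintro x (h | h)
    · obtain ⟨w, hw, hd⟩ := h1 x h
      exact ⟨T.node T.leaf w, by simp only [T.size]; omega, Or.inl ⟨rfl, hd⟩⟩
    · obtain ⟨w, hw, hd⟩ := h3 x h
      exact ⟨T.node (T.node T.leaf T.leaf) w, by simp only [T.size]; omega,
        Or.inr ⟨by simp, hd⟩⟩
  · rintro x w (⟨_, h⟩ | ⟨_, h⟩)
    · exact Or.inl (h2 _ _ h)
    · exact Or.inr (h4 _ _ h)

theorem NPred.and {R Q : T → Prop} (hR : NPred R) (hQ : NPred Q) : NPred (fun x => R x ∧ Q x) := by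
  obtain ⟨D, k, hD, h1, h2⟩ := hR
  obtain ⟨E, m, hE, h3, h4⟩ := hQ
  have i := PolyTime.id
  refine NPred.of (D := fun z => D (T.node z.left z.right.left) ∧ E (T.node z.left z.right.right))
    ((hD.comp (i.left.node i.right.left)).and (hE.comp (i.left.node i.right.right)))
    (G := fun n => (n + 2) ^ k + (n + 2) ^ m + 1)
    ((PolyB.add (PolyB.add ⟨k, fun _ => le_rfl⟩ ⟨m, fun _ => le_rfl⟩)) (PolyB.const 1)) ?_ ?_
  · rintro x ⟨h, h'⟩
    obtain ⟨w, hw, hd⟩ := h1 x h
    obtain ⟨v, hv, he⟩ := h3 x h'
    exact ⟨T.node w v, by simp only [T.size]; omega, hd, he⟩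
  · rintro x w ⟨h, h'⟩
    exact ⟨h2 _ _ h, h4 _ _ h'⟩

theorem NPred.comp {R : T → Prop} (hR : NPred R) {g : T → T} (hg : PolyTime g) :
    NPred (fun x => R (g x)) := by
  obtain ⟨D, k, hD, h1, h2⟩ := hR
  obtain ⟨m, hm⟩ := hg.size_bound
  have i := PolyTime.id
  refine NPred.of (D := fun z => D (T.node (g z.left) z.right))
    (hD.comp ((hg.comp i.left).node i.right))
    (G := fun n => ((n + 2) ^ m + 2) ^ k)
    ((PolyB.add ⟨m, fun _ => le_rfl⟩ (PolyB.const 2)).pow k) ?_ (fun x w h => h2 _ _ h)
  intro x h
  obtain ⟨w, hw, hd⟩ := h1 _ h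
  exact ⟨w, hw.trans (Nat.pow_le_pow_left (by have := hm x; omega) _), hd⟩

theorem NPred.const (p : Prop) : NPred (fun _ => p) := NPred.dec (PolyDec.const p)

/-- Bounded existential quantification over numbers. -/
theorem NPred.exN {R : T → Prop} (hR : NPred R) {f : T → ℕ} (hf : PolyN f) :
    NPred (fun x => ∃ a, a ≤ f x ∧ R (T.node (bl a) x)) := by
  obtain ⟨D, k, hD, h1, h2⟩ := hR
  obtain ⟨m, hm⟩ := PolyTime.size_bound hf
  have i := PolyTime.id
  refine NPred.of (D := fun z => bn z.right.left ≤ f z.left ∧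
      D (T.node (T.node (bl (bn z.right.left)) z.left) z.right.right))
    ((PolyDec.leN (canon_polyTime.comp i.right.left) (hf.comp i.left)).and
      (hD.comp (((canon_polyTime.comp i.right.left).node i.left).node i.right.right)))
    (G := fun n => 4 * (n + 2) ^ m + 2 + (4 * (n + 2) ^ m + 1 + n + 1 + 2) ^ k)
    (((((PolyB.const 4).mul ⟨m, fun _ => le_rfl⟩).add (PolyB.const 2))).add
      ((((((PolyB.const 4).mul ⟨m, fun _ => le_rfl⟩).add (PolyB.const 1)).add PolyB.id).add
        (PolyB.const 1)).add (PolyB.const 2) |>.pow k)) ?_ ?_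
  · rintro x ⟨a, ha, h⟩
    obtain ⟨w, hw, hd⟩ := h1 _ h
    have h3 := bl_size a
    have h4 : a.size ≤ (f x).size := Nat.size_le_size ha
    have h5 := size_le_bl (f x)
    have h6 := hm x
    have h7 : (bl a).size ≤ 4 * (x.size + 2) ^ m + 1 := by omega
    refine ⟨T.node (bl a) w, ?_, ?_⟩
    · simp only [T.size] at hw ⊢
      have h8 : ((bl a).size + x.size + 1 + 2) ^ k ≤
          (4 * (x.size + 2) ^ m + 1 + x.size + 1 + 2) ^ k := Nat.pow_le_pow_left (by omega) _
      omega
    · simp only [T.left_node, T.right_node, bn_bl]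
      exact ⟨ha, hd⟩
  · rintro x w ⟨h, h'⟩
    exact ⟨_, h, h2 _ _ h'⟩

/-! ### Sharply bounded universal quantification -/

/-- One round of checking a list of witnesses. -/
def bStep (f : T → T) (h a : T) : T :=
  tif a T.leaf (tif (f (T.node (T.node a.right.left a.right.right) h)) T.leaf
    (T.node T.leaf (T.node (T.node T.leaf a.right.left) a.right.right)))

/-- The state of the check. -/
def bState (i : ℕ) (x : T) : T := T.node T.leaf (T.node (T.unary i) x)

theorem bStep_fold_leaf {f : T → T} (l : T) : tfold (bStep f) l T.leaf = T.leaf := by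
  induction l with
  | leaf => rfl
  | node h t _ ih => simp [tfold, bStep, ih]

theorem bStep_fold_of {f : T → T} {x : T} (l : List T) : ∀ i : ℕ,
    (∀ (j : ℕ) (hj : j < l.length),
      f (T.node (T.node (T.unary (i + j)) x) l[j]) ≠ T.leaf) →
    tfold (bStep f) (encL l) (bState i x) = bState (i + l.length) x := by
  induction l with
  | nil => intro i _; rfl
  | cons a l ih =>
    intro i h
    have h0 := h 0 (by simp)
    have h1 := ih (i + 1) (fun j hj => by
      have := h (j + 1) (by simpa using hj)
      rw [show i + 1 + j = i + (j + 1) by omega]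
      simpa using this)
    have h2 : bStep f a (bState i x) = bState (i + 1) x := by
      simp only [Nat.add_zero, List.getElem_cons_zero] at h0
      simp only [bStep, bState, tif_node, T.right_node, T.left_node]
      rw [tif, if_neg h0]; rfl
    simp only [encL_cons, tfold, h2, h1, List.length_cons]
    congr 1; omega

theorem bStep_fold_elim {f : T → T} {x : T} (W : T) : ∀ i : ℕ,
    tfold (bStep f) W (bState i x) ≠ T.leaf →
    tfold (bStep f) W (bState i x) = bState (i + W.len) x ∧
    ∀ j, j < W.len → ∃ w, f (T.node (T.node (T.unary (i + j)) x) w) ≠ T.leaf := by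
  induction W with
  | leaf => intro i _; exact ⟨rfl, fun j hj => by simp at hj⟩
  | node a l _ ih =>
    intro i h
    by_cases h0 : f (T.node (T.node (T.unary i) x) a) = T.leaf
    · have h2 : bStep f a (bState i x) = T.leaf := by
        simp [bStep, bState, h0]
      rw [tfold, h2, bStep_fold_leaf] at h
      exact absurd rfl h
    · have h2 : bStep f a (bState i x) = bState (i + 1) x := by
        simp only [bStep, bState, tif_node, T.right_node, T.left_node]
        rw [tif, if_neg h0]; rfl
      rw [tfold, h2] at h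
      obtain ⟨h3, h4⟩ := ih (i + 1) h
      refine ⟨by rw [tfold, h2, h3, T.len_node]; congr 1; omega, fun j hj => ?_⟩
      rcases j with _ | j
      · exact ⟨a, h0⟩
      · obtain ⟨w, hw⟩ := h4 j (by simpa using hj)
        exact ⟨w, by rwa [show i + (j + 1) = i + 1 + j by omega]⟩

theorem bStep_fold_size {f : T → T} (l : T) : ∀ a : T,
    (tfold (bStep f) l a).size ≤ a.size + 5 * l.size := by
  induction l with
  | leaf => intro a; simp [tfold]
  | node h t _ ih =>
    intro a
    have h1 := ih (bStep f h a)
    have h2 : (bStep f h a).size ≤ a.size + 6 := by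
      simp only [bStep, tif]
      split_ifs with h3 h4
      · simp only [T.size]; omega
      · simp only [T.size]; omega
      · have h5 := T.size_parts_eq a.right
        have h6 := T.size_right_le a
        simp only [T.size]; omega
    have h3 := T.size_pos h
    simp only [tfold, T.size]
    omega

theorem encL_size_le {l : List T} {B : ℕ} (h : ∀ a ∈ l, a.size ≤ B) :
    (encL l).size ≤ l.length * (B + 1) + 1 := by
  induction l with
  | nil => simp [T.size]
  | cons a l ih =>
    have h1 := h a (by simp)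
    have h2 := ih fun b hb => h b (by simp [hb])
    simp only [encL_cons, T.size, List.length_cons]
    have : (l.length + 1) * (B + 1) = l.length * (B + 1) + (B + 1) := by ring
    omega

/-- Universal quantification over numbers bounded in unary. -/
theorem NPred.allU {R : T → Prop} (hR : NPred R) {f : T → ℕ} (hf : PolyNat f) :
    NPred (fun x => ∀ i, i ≤ f x → R (T.node (T.unary i) x)) := by
  classical
  obtain ⟨D, k, ⟨d, hd, hdD⟩, h1, h2⟩ := hR
  obtain ⟨m, hm⟩ := PolyTime.size_bound hf
  have i := PolyTime.id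
  have hg : PolyTime₂ (bStep d) :=
    i.right.tif PolyTime.leaf ((hd.comp ((i.right.right.left.node i.right.right.right).node
      i.left)).tif PolyTime.leaf (PolyTime.leaf.node
        ((PolyTime.leaf.node i.right.right.left).node i.right.right.right)))
  have hfold : PolyTime₂ (tfold (bStep d)) :=
    PolyTime₂.tfold hg (G := fun n => 5 * n) ((PolyB.const 5).mul PolyB.id)
      (fun a b h => by dsimp only; omega) (fun l a => by
        have := bStep_fold_size (f := d) l a
        omega)
  have hr : PolyTime (fun z : T => tfold (bStep d) z.right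
      (T.node T.leaf (T.node T.leaf z.left))) :=
    hfold.comp i.right (PolyTime.leaf.node (PolyTime.leaf.node i.left))
  refine NPred.of (D := fun z => tfold (bStep d) z.right (T.node T.leaf (T.node T.leaf z.left)) =
      T.node T.leaf (T.node (T.unary (f z.left + 1)) z.left))
    (PolyDec.eq hr (PolyTime.leaf.node ((((hf.comp i.left).add (PolyNat.const 1)).unary).node
      i.left)))
    (G := fun n => ((n + 2) ^ m + 1) * ((2 * (n + 2) ^ m + 1 + n + 1 + 2) ^ k + 1) + 1)
    ((((PolyB.add ⟨m, fun _ => le_rfl⟩ (PolyB.const 1))).mul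
      (((((((PolyB.const 2).mul ⟨m, fun _ => le_rfl⟩).add (PolyB.const 1)).add PolyB.id).add
        (PolyB.const 1)).add (PolyB.const 2)).pow k |>.add (PolyB.const 1))).add (PolyB.const 1))
    ?_ ?_
  · intro x h
    have h3 : ∀ i : ℕ, ∃ w : T, i ≤ f x → w.size ≤ ((T.node (T.unary i) x).size + 2) ^ k ∧
        D (T.node (T.node (T.unary i) x) w) := fun i => by
      by_cases hi : i ≤ f x
      · obtain ⟨w, hw⟩ := h1 _ (h i hi)
        exact ⟨w, fun _ => hw⟩
      · exact ⟨T.leaf, fun h => absurd h hi⟩
    choose w hw using h3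
    have hfx : f x ≤ (x.size + 2) ^ m := by
      have := hm x
      rw [T.size_unary] at this
      omega
    refine ⟨encL ((List.range (f x + 1)).map w), ?_, ?_⟩
    · refine le_trans (encL_size_le (B := (2 * (x.size + 2) ^ m + 1 + x.size + 1 + 2) ^ k) ?_) ?_
      · intro a ha
        obtain ⟨j, hj, rfl⟩ := List.mem_map.1 ha
        rw [List.mem_range] at hj
        refine (hw j (by omega)).1.trans (Nat.pow_le_pow_left ?_ _)
        simp only [T.size, T.size_unary]; omega
      · rw [List.length_map, List.length_range]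
        have := Nat.mul_le_mul_right ((2 * (x.size + 2) ^ m + 1 + x.size + 1 + 2) ^ k + 1)
          (show f x + 1 ≤ (x.size + 2) ^ m + 1 by omega)
        omega
    · have h4 := bStep_fold_of (f := d) (x := x) ((List.range (f x + 1)).map w) 0 (by
        intro j hj
        rw [List.length_map, List.length_range] at hj
        rw [← hdD]
        simp only [List.getElem_map, List.getElem_range, Nat.zero_add]
        exact (hw j (by omega)).2)
      rw [List.length_map, List.length_range, Nat.zero_add] at h4
      exact h4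
  · intro x W h
    have h3 := bStep_fold_elim (f := d) (x := x) W 0 (by
      simp only [T.left_node, T.right_node] at h
      intro hc
      rw [bState] at hc
      have : T.unary 0 = T.leaf := rfl
      rw [this, h] at hc
      exact absurd hc (by simp))
    obtain ⟨h4, h5⟩ := h3
    have h6 : W.len = f x + 1 := by
      have h7 : tfold (bStep d) W (bState 0 x) = T.node T.leaf
          (T.node (T.unary (f x + 1)) x) := h
      rw [h4, bState, Nat.zero_add] at h7
      simp only [T.node.injEq, true_and, and_true] at h7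
      exact T.unary_inj.1 h7
    intro i hi
    obtain ⟨w, hw⟩ := h5 i (by omega)
    rw [Nat.zero_add, ← hdD] at hw
    exact h2 _ _ hw

end Pool.Agent.H19
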