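import Pool.Agent.Lib_helper19.Program

/-! # Closure properties of polynomial-time functions on trees -/

namespace Pool.Agent.H19

open T

theorem T.size_pos (x : T) : 1 ≤ x.size := by cases x <;> simp [T.size]

theorem T.size_left_le (x : T) : x.left.size ≤ x.size := by
  cases x <;> simp [T.size, T.left]; omega

theorem T.size_right_le (x : T) : x.right.size ≤ x.size := by
  cases x <;> simp [T.size, T.right]; omega

@[simp] theorem T.left_node (a b : T) : (T.node a b).left = a := rfl
@[simp] theorem T.right_node (a b : T) : (T.node a b).right = b := rfl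
@[simp] theorem T.left_leaf : T.leaf.left = T.leaf := rfl
@[simp] theorem T.right_leaf : T.leaf.right = T.leaf := rfl

theorem T.eq_node {x : T} (h : x ≠ T.leaf) : x = T.node x.left x.right := by
  cases x <;> simp_all

theorem Eval.size_le {c : Code} {x y : T} {t : ℕ} (h : Eval c x y t) : y.size ≤ t := by
  induction h with
  | id x => exact le_rfl
  | leaf x => simp [T.size]
  | fst x => exact T.size_left_le x
  | snd x => exact T.size_right_le x
  | pair _ _ ih1 ih2 => simp only [T.size]; omega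
  | comp _ _ _ ih2 => omega
  | ite_leaf _ _ _ ih2 => omega
  | ite_node _ _ _ ih2 => omega
  | @loop_stop f x _ => have := T.size_right_le x; omega
  | loop_step _ _ _ _ ih2 => omega

theorem Eval.cost_pos {c : Code} {x y : T} {t : ℕ} (h : Eval c x y t) : 1 ≤ t :=
  le_trans (T.size_pos y) h.size_le

/-! ### Arithmetic of bounds -/

theorem pow_add_le {s a b : ℕ} (hs : 2 ≤ s) : s ^ a + s ^ b + 1 ≤ s ^ (max a b + 2) := by
  have h1 : s ^ a ≤ s ^ max a b := Nat.pow_le_pow_right (by omega) (le_max_left _ _)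
  have h2 : s ^ b ≤ s ^ max a b := Nat.pow_le_pow_right (by omega) (le_max_right _ _)
  have h3 : 1 ≤ s ^ max a b := Nat.one_le_pow _ _ (by omega)
  have h4 : s ^ (max a b + 2) = s ^ max a b * (s * s) := by ring
  have h5 : 4 ≤ s * s := by nlinarith
  rw [h4]; nlinarith

/-- Polynomially bounded functions of one natural number. -/
def PolyB (g : ℕ → ℕ) : Prop := ∃ k, ∀ n, g n ≤ (n + 2) ^ k

theorem PolyB.mono {g h : ℕ → ℕ} (hh : PolyB h) (hgh : ∀ n, g n ≤ h n) : PolyB g := by
  obtain ⟨k, hk⟩ := hh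
  exact ⟨k, fun n => (hgh n).trans (hk n)⟩

theorem PolyB.const (c : ℕ) : PolyB (fun _ => c) := by
  refine ⟨c, fun n => ?_⟩
  calc c ≤ 2 ^ c := (Nat.lt_two_pow_self).le
    _ ≤ (n + 2) ^ c := Nat.pow_le_pow_left (by omega) _

theorem PolyB.id : PolyB (fun n => n) := ⟨1, fun n => by simp⟩

theorem PolyB.add {g h : ℕ → ℕ} (hg : PolyB g) (hh : PolyB h) : PolyB (fun n => g n + h n) := by
  obtain ⟨a, ha⟩ := hg
  obtain ⟨b, hb⟩ := hh
  refine ⟨max a b + 2, fun n => ?_⟩
  have := pow_add_le (s := n + 2) (a := a) (b := b) (by omega)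
  have h1 := ha n
  have h2 := hb n
  show g n + h n ≤ _
  omega

theorem PolyB.mul {g h : ℕ → ℕ} (hg : PolyB g) (hh : PolyB h) : PolyB (fun n => g n * h n) := by
  obtain ⟨a, ha⟩ := hg
  obtain ⟨b, hb⟩ := hh
  refine ⟨a + b, fun n => ?_⟩
  rw [pow_add]
  exact Nat.mul_le_mul (ha n) (hb n)

theorem PolyB.pow {g : ℕ → ℕ} (hg : PolyB g) (m : ℕ) : PolyB (fun n => g n ^ m) := by
  obtain ⟨a, ha⟩ := hg
  refine ⟨a * m, fun n => ?_⟩
  rw [pow_mul]
  exact Nat.pow_le_pow_left (ha n) _

theorem PolyB.comp {g h : ℕ → ℕ} (hg : PolyB g) (hh : PolyB h) : PolyB (fun n => g (h n)) := by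
  obtain ⟨a, ha⟩ := hg
  obtain ⟨b, hb⟩ := hh
  refine ⟨(b + 2) * a, fun n => ?_⟩
  refine (ha (h n)).trans ?_
  rw [pow_mul]
  refine Nat.pow_le_pow_left ?_ _
  have h1 := hb n
  have h2 : 1 ≤ (n + 2) ^ b := Nat.one_le_pow _ _ (by omega)
  have h3 : (n + 2) ^ (b + 2) = (n + 2) ^ b * ((n + 2) * (n + 2)) := by ring
  have h4 : 4 ≤ (n + 2) * (n + 2) := by nlinarith
  rw [h3]
  nlinarith

theorem PolyTime.of_bound {f : T → T} (c : Code) {g : ℕ → ℕ} (hg : PolyB g)
    (h : ∀ x : T, ∃ t : ℕ, Eval c x (f x) t ∧ t ≤ g x.size) : PolyTime f := by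
  obtain ⟨k, hk⟩ := hg
  refine ⟨c, k, fun x => ?_⟩
  obtain ⟨t, ht, hb⟩ := h x
  exact ⟨t, ht, hb.trans (hk _)⟩

theorem PolyTime.size_bound {f : T → T} (hf : PolyTime f) :
    ∃ k, ∀ x, (f x).size ≤ (x.size + 2) ^ k := by
  obtain ⟨c, k, h⟩ := hf
  refine ⟨k, fun x => ?_⟩
  obtain ⟨t, ht, hb⟩ := h x
  exact ht.size_le.trans hb

theorem PolyTime.congr {f g : T → T} (hf : PolyTime f) (h : ∀ x, f x = g x) : PolyTime g := by
  have : f = g := funext h
  rwa [← this]

theorem PolyTime.id : PolyTime (fun x => x) :=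
  ⟨Code.id, 1, fun x => ⟨_, Eval.id x, by simp⟩⟩

theorem PolyTime.left' : PolyTime T.left :=
  ⟨Code.fst, 1, fun x => ⟨_, Eval.fst x, by simp⟩⟩

theorem PolyTime.right' : PolyTime T.right :=
  ⟨Code.snd, 1, fun x => ⟨_, Eval.snd x, by simp⟩⟩

theorem PolyTime.node {f g : T → T} (hf : PolyTime f) (hg : PolyTime g) :
    PolyTime (fun x => T.node (f x) (g x)) := by
  obtain ⟨c, k, h⟩ := hf
  obtain ⟨d, m, h'⟩ := hg
  refine ⟨Code.pair c d, max k m + 2, fun x => ?_⟩
  obtain ⟨t, ht, hb⟩ := h x
  obtain ⟨t', ht', hb'⟩ := h' x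
  refine ⟨_, Eval.pair ht ht', ?_⟩
  have := pow_add_le (s := x.size + 2) (a := k) (b := m) (by omega)
  omega

theorem PolyTime.comp {f g : T → T} (hf : PolyTime f) (hg : PolyTime g) :
    PolyTime (fun x => f (g x)) := by
  obtain ⟨c, k, h⟩ := hf
  obtain ⟨d, m, h'⟩ := hg
  refine PolyTime.of_bound (Code.comp c d)
    (g := fun n => (n + 2) ^ m + ((n + 2) ^ m + 2) ^ k + 1) ?_ fun x => ?_
  · have h1 : PolyB (fun n => (n + 2) ^ m) := ⟨m, fun n => le_rfl⟩
    exact (h1.add ((h1.add (PolyB.const 2)).pow k)).add (PolyB.const 1)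
  · obtain ⟨t, ht, hb⟩ := h' x
    obtain ⟨t', ht', hb'⟩ := h (g x)
    refine ⟨_, Eval.comp ht ht', ?_⟩
    have h1 := ht.size_le
    have h2 : ((g x).size + 2) ^ k ≤ ((x.size + 2) ^ m + 2) ^ k :=
      Nat.pow_le_pow_left (by omega) _
    omega

theorem PolyTime.leaf : PolyTime (fun _ => T.leaf) := by
  refine ⟨Code.leaf, 1, fun x => ⟨_, Eval.leaf x, by simp⟩⟩

theorem PolyTime.const (a : T) : PolyTime (fun _ => a) := by
  induction a with
  | leaf => exact PolyTime.leaf
  | node l r hl hr => exact hl.node hr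

theorem PolyTime.left {f : T → T} (hf : PolyTime f) : PolyTime (fun x => (f x).left) :=
  PolyTime.left'.comp hf

theorem PolyTime.right {f : T → T} (hf : PolyTime f) : PolyTime (fun x => (f x).right) :=
  PolyTime.right'.comp hf

/-- Case distinction on whether a tree is a leaf. -/
def tif (c a b : T) : T := if c = T.leaf then a else b

@[simp] theorem tif_leaf (a b : T) : tif T.leaf a b = a := by simp [tif]
@[simp] theorem tif_node (l r a b : T) : tif (T.node l r) a b = b := by simp [tif]

theorem PolyTime.tif {c f g : T → T} (hc : PolyTime c) (hf : PolyTime f) (hg : PolyTime g) :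
    PolyTime (fun x => tif (c x) (f x) (g x)) := by
  obtain ⟨cc, kc, hc⟩ := hc
  obtain ⟨cf, kf, hf⟩ := hf
  obtain ⟨cg, kg, hg⟩ := hg
  refine PolyTime.of_bound (Code.ite cc cf cg)
    (g := fun n => (n + 2) ^ kc + ((n + 2) ^ kf + (n + 2) ^ kg) + 1) ?_ fun x => ?_
  · have h1 : ∀ m, PolyB (fun n => (n + 2) ^ m) := fun m => ⟨m, fun n => le_rfl⟩
    exact ((h1 _).add ((h1 _).add (h1 _))).add (PolyB.const 1)
  · obtain ⟨t, ht, hb⟩ := hc x
    rcases hcx : c x with _ | ⟨l, r⟩
    · obtain ⟨t', ht', hb'⟩ := hf x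
      rw [hcx] at ht
      rw [tif_leaf]
      exact ⟨_, Eval.ite_leaf (g := cg) ht ht', by omega⟩
    · obtain ⟨t', ht', hb'⟩ := hg x
      rw [hcx] at ht
      rw [tif_node]
      exact ⟨_, Eval.ite_node (f := cf) ht ht', by omega⟩

theorem PolyTime.ite {c f g : T → T} (hc : PolyTime c) (hf : PolyTime f) (hg : PolyTime g) :
    PolyTime (fun x => if c x = T.leaf then f x else g x) :=
  (PolyTime.tif hc hf hg).congr fun _ => rfl

/-! ### Loops -/

theorem Eval.loop_of_iterate {c : Code} {f : T → T} {B : ℕ} :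
    ∀ (N : ℕ) (s : T), (∀ i, i < N → (f^[i] s).left ≠ T.leaf) → (f^[N] s).left = T.leaf →
      (∀ i, i < N → ∃ t, Eval c (f^[i] s) (f (f^[i] s)) t ∧ t ≤ B) →
      (∀ i, i ≤ N → (f^[i] s).size ≤ B) →
      ∃ t, Eval (Code.loop c) s (f^[N] s).right t ∧ t ≤ (N + 1) * (B + 1) := by
  intro N
  induction N with
  | zero =>
    intro s _ h0 _ hB
    refine ⟨_, Eval.loop_stop (by simpa using h0), ?_⟩
    have := hB 0 le_rfl
    simp at this
    omega
  | succ N ih =>
    intro s hlt hN hev hB
    obtain ⟨t, ht, hb⟩ := hev 0 (by omega)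
    simp only [Function.iterate_zero, id_eq] at ht
    obtain ⟨t', ht', hb'⟩ := ih (f s)
      (fun i hi => by
        have := hlt (i + 1) (by omega)
        rwa [Function.iterate_succ_apply] at this)
      (by rwa [Function.iterate_succ_apply] at hN)
      (fun i hi => by
        have := hev (i + 1) (by omega)
        rwa [Function.iterate_succ_apply] at this)
      (fun i hi => by
        have := hB (i + 1) (by omega)
        rwa [Function.iterate_succ_apply] at this)
    refine ⟨_, Eval.loop_step (by simpa using hlt 0 (by omega)) ht ht', ?_⟩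
    have : (N + 1 + 1) * (B + 1) = (N + 1) * (B + 1) + (B + 1) := by ring
    omega

/-- While loops with polynomially many rounds and polynomially bounded states. -/
theorem PolyTime.whileLoop {f s : T → T} (hf : PolyTime f) (hs : PolyTime s) (N : T → ℕ)
    (hlt : ∀ x i, i < N x → (f^[i] (s x)).left ≠ T.leaf)
    (hN : ∀ x, (f^[N x] (s x)).left = T.leaf)
    (hNb : ∃ k, ∀ x : T, N x ≤ (x.size + 2) ^ k)
    (hB : ∃ k, ∀ (x : T) i, i ≤ N x → (f^[i] (s x)).size ≤ (x.size + 2) ^ k) :
    PolyTime (fun x => (f^[N x] (s x)).right) := by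
  obtain ⟨c, k, hc⟩ := hf
  obtain ⟨kN, hkN⟩ := hNb
  obtain ⟨kB, hkB⟩ := hB
  have key : PolyTime (fun x => ((fun y => (f^[N y] (s y)).right) x)) := by
    obtain ⟨cs, ks, hcs⟩ := hs
    refine PolyTime.of_bound (Code.comp (Code.loop c) cs)
      (g := fun n => (n + 2) ^ ks +
        ((n + 2) ^ kN + 1) * ((((n + 2) ^ kB + 2) ^ k + (n + 2) ^ kB) + 1) + 1) ?_ fun x => ?_
    · have h1 : ∀ m, PolyB (fun n => (n + 2) ^ m) := fun m => ⟨m, fun n => le_rfl⟩
      refine ((h1 _).add (((h1 _).add (PolyB.const 1)).mul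
        (((((h1 _).add (PolyB.const 2)).pow _).add (h1 _)).add (PolyB.const 1)))).add
        (PolyB.const 1)
    · obtain ⟨t, ht, hb⟩ := hcs x
      obtain ⟨t', ht', hb'⟩ := Eval.loop_of_iterate (c := c) (f := f)
        (B := ((x.size + 2) ^ kB + 2) ^ k + (x.size + 2) ^ kB) (N x) (s x) (hlt x) (hN x)
        (fun i hi => by
          obtain ⟨t, ht, hb⟩ := hc (f^[i] (s x))
          refine ⟨t, ht, hb.trans ?_⟩
          have : ((f^[i] (s x)).size + 2) ^ k ≤ ((x.size + 2) ^ kB + 2) ^ k :=
            Nat.pow_le_pow_left (by have := hkB x i hi.le; omega) _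
          omega)
        (fun i hi => (hkB x i hi).trans (by omega))
      refine ⟨_, Eval.comp ht ht', ?_⟩
      have h2 : (N x + 1) * ((((x.size + 2) ^ kB + 2) ^ k + (x.size + 2) ^ kB) + 1) ≤
          ((x.size + 2) ^ kN + 1) * ((((x.size + 2) ^ kB + 2) ^ k + (x.size + 2) ^ kB) + 1) :=
        Nat.mul_le_mul_right _ (by have := hkN x; omega)
      omega
  exact key

/-- The length of the right spine. -/
def T.len : T → ℕ
  | T.leaf => 0
  | T.node _ r => T.len r + 1

@[simp] theorem T.len_leaf : T.leaf.len = 0 := rfl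
@[simp] theorem T.len_node (a b : T) : (T.node a b).len = b.len + 1 := rfl

theorem T.len_lt_size (x : T) : x.len < x.size := by
  induction x with
  | leaf => simp [T.size]
  | node l r _ ih => simp only [T.len_node, T.size]; omega

@[simp] theorem T.len_unary (n : ℕ) : (T.unary n).len = n := by
  induction n with
  | zero => rfl
  | succ n ih => simp [T.unary, ih]

@[simp] theorem T.size_unary (n : ℕ) : (T.unary n).size = 2 * n + 1 := by
  induction n with
  | zero => rfl
  | succ n ih => simp [T.unary, T.size, ih]; omega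

theorem T.len_right (x : T) : x.right.len = x.len - 1 := by
  cases x <;> simp

/-- Bounded iteration: iterate `f` as many times as the right spine of `n x` is long. -/
theorem PolyTime.iterate {f n s : T → T} (hf : PolyTime f) (hn : PolyTime n) (hs : PolyTime s)
    (hB : ∃ k, ∀ (x : T) i, i ≤ (n x).len → (f^[i] (s x)).size ≤ (x.size + 2) ^ k) :
    PolyTime (fun x => f^[(n x).len] (s x)) := by
  -- state: `node counter current`
  let g : T → T := fun y => T.node y.left.right (f y.right)
  let s' : T → T := fun x => T.node (T.node (n x) T.leaf |>.left) (s x)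
  have hg : PolyTime g := (PolyTime.left'.right).node (hf.comp PolyTime.right')
  have hs' : PolyTime s' := hn.node hs
  have hiter : ∀ i x, g^[i] (s' x) = T.node (T.right^[i] (n x)) (f^[i] (s x)) := by
    intro i x
    induction i with
    | zero => rfl
    | succ i ih => rw [Function.iterate_succ_apply', ih, Function.iterate_succ_apply',
        Function.iterate_succ_apply']; rfl
  have hright : ∀ i (y : T), (T.right^[i] y).len = y.len - i := by
    intro i y
    induction i with
    | zero => rfl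
    | succ i ih => rw [Function.iterate_succ_apply', T.len_right, ih]; omega
  have hrs : ∀ i (y : T), (T.right^[i] y).size ≤ y.size := by
    intro i y
    induction i with
    | zero => exact le_rfl
    | succ i ih => rw [Function.iterate_succ_apply']; exact (T.size_right_le _).trans ih
  have hleaf : ∀ y : T, y = T.leaf ↔ y.len = 0 := by
    intro y; cases y <;> simp
  have := PolyTime.whileLoop hg hs' (fun x => (n x).len)
    (fun x i hi => by
      rw [hiter, T.left_node, Ne, hleaf, hright]; omega)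
    (fun x => by rw [hiter, T.left_node, hleaf, hright]; omega)
    (by
      obtain ⟨k, hk⟩ := hn.size_bound
      exact ⟨k, fun x => (T.len_lt_size _).le.trans (hk x)⟩)
    (by
      obtain ⟨k, hk⟩ := hn.size_bound
      obtain ⟨m, hm⟩ := hB
      refine ⟨max k m + 2, fun x i hi => ?_⟩
      rw [hiter, T.size]
      have h1 := hm x i hi
      have h2 := (hrs i (n x)).trans (hk x)
      have h3 := pow_add_le (s := x.size + 2) (a := k) (b := m) (by omega)
      omega)
  refine this.congr fun x => ?_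
  rw [hiter, T.right_node]

end Pool.Agent.H19
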