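import Pool.Agent.Lib_helper19.PolyRec

/-! # Basic polynomial-time functions on trees: append, size, equality, membership, ... -/

namespace Pool.Agent.H19

open T

/-! ### Append -/

/-- Append along the right spine. -/
def app : T → T → T
  | T.leaf, y => y
  | T.node a b, y => T.node a (app b y)

@[simp] theorem app_leaf (y : T) : app T.leaf y = y := rfl
@[simp] theorem app_node (a b y : T) : app (T.node a b) y = T.node a (app b y) := rfl

theorem app_size (x y : T) : (app x y).size + 1 = x.size + y.size := by
  induction x with
  | leaf => simp [T.size]; omega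
  | node a b _ ih => simp only [app_node, T.size]; omega

theorem app_len (x y : T) : (app x y).len = x.len + y.len := by
  induction x with
  | leaf => simp
  | node a b _ ih => simp only [app_node, T.len_node, ih]; omega

theorem app_unary (m n : ℕ) : app (T.unary m) (T.unary n) = T.unary (m + n) := by
  induction m with
  | zero => simp [T.unary]
  | succ m ih => simp [T.unary, ih, Nat.succ_add]

theorem app_polyTime₂ : PolyTime₂ app := by
  have i := PolyTime.id
  refine PolyTime₂.binRec (F := app) (l := fun _ => T.leaf) (r := T.right)
    (pl := fun _ => T.leaf) (pr := fun z => z.right) (base := fun z => z.right)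
    (comb := fun w => T.node w.left.left.left w.right.right)
    PolyTime.leaf PolyTime.right' PolyTime.leaf i.right i.right
    (i.left.left.left.node i.right.right) (fun _ => rfl) ?_ ?_ 1 ?_ ?_
    (G := fun n => n) PolyB.id (fun a b h => h) ?_
  · intro x p hx
    rcases x with _ | ⟨a, b⟩
    · exact absurd rfl hx
    · rfl
  · intro x hx
    rcases x with _ | ⟨a, b⟩
    · exact absurd rfl hx
    · have := T.size_pos a
      simp only [T.size, T.right_node]; omega
  · intro x p; have := T.size_pos p; simp only [T.size]; omega
  · intro x p; simp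
  · intro x p; have := app_size x p; omega

theorem PolyTime.app {f g : T → T} (hf : PolyTime f) (hg : PolyTime g) :
    PolyTime (fun x => app (f x) (g x)) := app_polyTime₂.comp hf hg

/-! ### Size in unary -/

theorem PolyTime₂.binRec₁ {F : T → T} {c : T} {comb : T → T} (hcomb : PolyTime comb)
    (hb : F T.leaf = c)
    (hs : ∀ a b, F (T.node a b) = comb (T.node (T.node a b) (T.node (F a) (F b))))
    {G : ℕ → ℕ} (hG : PolyB G) (hGm : Monotone G)
    (hout : ∀ x, (F x).size ≤ G x.size) : PolyTime F := by
  have i := PolyTime.id
  have key : PolyTime₂ (fun x _ => F x) := by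
    refine PolyTime₂.binRec (F := fun x _ => F x) (l := T.left) (r := T.right)
      (pl := fun _ => T.leaf) (pr := fun _ => T.leaf) (base := fun _ => c)
      (comb := fun w => comb (T.node w.left.left w.right))
      PolyTime.left' PolyTime.right' PolyTime.leaf PolyTime.leaf (PolyTime.const _)
      (hcomb.comp (i.left.left.node i.right)) (fun p => hb) ?_ ?_ 1 ?_ ?_
      hG hGm ?_
    · intro x p hx
      rcases x with _ | ⟨a, b⟩
      · exact absurd rfl hx
      · exact hs a b
    · intro x hx
      rcases x with _ | ⟨a, b⟩
      · exact absurd rfl hx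
      · simp only [T.size, T.right_node, T.left_node]; omega
    · intro x p; have := T.size_pos p; simp only [T.size]; omega
    · intro x p; have := T.size_pos p; simp only [T.size]; omega
    · intro x p; exact (hout x).trans (hGm (by omega))
  exact (PolyTime₂.comp key i PolyTime.leaf).congr fun _ => rfl

theorem PolyTime.szU : PolyTime (fun x => T.unary x.size) := by
  have i := PolyTime.id
  refine PolyTime₂.binRec₁ (c := T.unary 1)
    (comb := fun w => T.node T.leaf (H19.app w.right.left w.right.right))
    (PolyTime.leaf.node (i.right.left.app i.right.right)) rfl ?_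
    (G := fun n => 2 * n + 1) (((PolyB.const 2).mul PolyB.id).add (PolyB.const 1))
    (fun a b h => by dsimp only; omega) ?_
  · intro a b
    show T.unary (a.size + b.size + 1) = T.node T.leaf (H19.app (T.unary a.size) (T.unary b.size))
    rw [app_unary]; rfl
  · intro x; simp

theorem PolyTime.sz {f : T → T} (hf : PolyTime f) : PolyTime (fun x => T.unary (f x).size) :=
  PolyTime.szU.comp hf

/-- The right spine length, in unary. -/
theorem PolyTime.lenU : PolyTime (fun x => T.unary x.len) := by
  have i := PolyTime.id
  refine PolyTime₂.binRec₁ (c := T.leaf)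
    (comb := fun w => T.node T.leaf w.right.right)
    (PolyTime.leaf.node i.right.right) rfl ?_
    (G := fun n => 2 * n + 1) (((PolyB.const 2).mul PolyB.id).add (PolyB.const 1))
    (fun a b h => by dsimp only; omega) ?_
  · intro a b; rfl
  · intro x; have := T.len_lt_size x; simp; omega

/-! ### Unary multiplication and powers -/

/-- Repeated append. -/
def mulU : T → T → T
  | T.leaf, _ => T.leaf
  | T.node _ b, y => app y (mulU b y)

theorem mulU_unary (m n : ℕ) : mulU (T.unary m) (T.unary n) = T.unary (m * n) := by
  induction m with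
  | zero => simp [T.unary, mulU]
  | succ m ih => simp only [T.unary, mulU, ih, app_unary]; congr 1; ring

theorem mulU_size (x y : T) : (mulU x y).size ≤ x.size * y.size := by
  induction x with
  | leaf => simp only [mulU, T.size]; have := T.size_pos y; omega
  | node a b _ ih =>
    simp only [mulU, T.size]
    have h1 := app_size y (mulU b y)
    have h2 : (a.size + b.size + 1) * y.size = a.size * y.size + b.size * y.size + y.size := by ring
    rw [h2]; omega

theorem mulU_polyTime₂ : PolyTime₂ mulU := by
  have i := PolyTime.id
  refine PolyTime₂.binRec (F := mulU) (l := fun _ => T.leaf) (r := T.right)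
    (pl := fun _ => T.leaf) (pr := fun z => z.right) (base := fun _ => T.leaf)
    (comb := fun w => H19.app w.left.right w.right.right)
    PolyTime.leaf PolyTime.right' PolyTime.leaf i.right PolyTime.leaf
    (i.left.right.app i.right.right) (fun _ => rfl) ?_ ?_ 1 ?_ ?_
    (G := fun n => n * n) (PolyB.id.mul PolyB.id) (fun a b h => Nat.mul_le_mul h h) ?_
  · intro x p hx
    rcases x with _ | ⟨a, b⟩
    · exact absurd rfl hx
    · rfl
  · intro x hx
    rcases x with _ | ⟨a, b⟩
    · exact absurd rfl hx
    · have := T.size_pos a
      simp only [T.size, T.right_node]; omega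
  · intro x p; have := T.size_pos p; simp only [T.size]; omega
  · intro x p; simp
  · intro x p
    exact (mulU_size x p).trans (Nat.mul_le_mul (by omega) (by omega))

theorem PolyTime.mulU {f g : T → T} (hf : PolyTime f) (hg : PolyTime g) :
    PolyTime (fun x => mulU (f x) (g x)) := mulU_polyTime₂.comp hf hg

/-- Unary-valued polynomial-time functions. -/
def PolyNat (f : T → ℕ) : Prop := PolyTime (fun x => T.unary (f x))

theorem PolyNat.const (n : ℕ) : PolyNat (fun _ => n) := PolyTime.const _

theorem PolyNat.size {f : T → T} (hf : PolyTime f) : PolyNat (fun x => (f x).size) :=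
  PolyTime.szU.comp hf

theorem PolyNat.len {f : T → T} (hf : PolyTime f) : PolyNat (fun x => (f x).len) :=
  PolyTime.lenU.comp hf

theorem PolyNat.add {f g : T → ℕ} (hf : PolyNat f) (hg : PolyNat g) :
    PolyNat (fun x => f x + g x) :=
  (PolyTime.app hf hg).congr fun _ => app_unary _ _

theorem PolyNat.mul {f g : T → ℕ} (hf : PolyNat f) (hg : PolyNat g) :
    PolyNat (fun x => f x * g x) :=
  (PolyTime.mulU hf hg).congr fun _ => mulU_unary _ _

theorem PolyNat.pow {f : T → ℕ} (hf : PolyNat f) (k : ℕ) : PolyNat (fun x => f x ^ k) := by
  induction k with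
  | zero => simpa using PolyNat.const 1
  | succ k ih => exact (ih.mul hf).congr fun x => by beta_reduce; rw [pow_succ]

theorem PolyNat.unary {f : T → ℕ} (hf : PolyNat f) : PolyTime (fun x => T.unary (f x)) := hf

theorem PolyNat.comp {f : T → ℕ} (hf : PolyNat f) {g : T → T} (hg : PolyTime g) :
    PolyNat (fun x => f (g x)) := PolyTime.comp hf hg

/-! ### Polynomial-time predicates -/

/-- Polynomial-time decidable predicates. -/
def PolyDec (P : T → Prop) : Prop := ∃ f, PolyTime f ∧ ∀ x, P x ↔ f x ≠ T.leaf

theorem PolyDec.congr {P Q : T → Prop} (hP : PolyDec P) (h : ∀ x, P x ↔ Q x) : PolyDec Q := by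
  obtain ⟨f, hf, hfP⟩ := hP
  exact ⟨f, hf, fun x => by rw [← h, hfP]⟩

theorem PolyDec.ne_leaf {f : T → T} (hf : PolyTime f) : PolyDec (fun x => f x ≠ T.leaf) :=
  ⟨f, hf, fun _ => Iff.rfl⟩

theorem PolyDec.not {P : T → Prop} (hP : PolyDec P) : PolyDec (fun x => ¬ P x) := by
  obtain ⟨f, hf, h⟩ := hP
  refine ⟨fun x => H19.tif (f x) (T.node T.leaf T.leaf) T.leaf, hf.tif (PolyTime.const _)
    PolyTime.leaf, fun x => ?_⟩
  beta_reduce; rw [h]; simp only [H19.tif]; split_ifs with h1 <;> simp [h1]

theorem PolyDec.eq_leaf {f : T → T} (hf : PolyTime f) : PolyDec (fun x => f x = T.leaf) :=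
  (PolyDec.ne_leaf hf).not.congr fun x => by simp

theorem PolyDec.and {P Q : T → Prop} (hP : PolyDec P) (hQ : PolyDec Q) :
    PolyDec (fun x => P x ∧ Q x) := by
  obtain ⟨f, hf, h⟩ := hP
  obtain ⟨g, hg, h'⟩ := hQ
  refine ⟨fun x => H19.tif (f x) T.leaf (g x), hf.tif PolyTime.leaf hg, fun x => ?_⟩
  beta_reduce; rw [h, h']; simp only [H19.tif]; split_ifs with h1 <;> simp [h1]

theorem PolyDec.or {P Q : T → Prop} (hP : PolyDec P) (hQ : PolyDec Q) :
    PolyDec (fun x => P x ∨ Q x) := by
  refine (hP.not.and hQ.not).not.congr fun x => ?_
  tauto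

theorem PolyDec.comp {P : T → Prop} (hP : PolyDec P) {g : T → T} (hg : PolyTime g) :
    PolyDec (fun x => P (g x)) := by
  obtain ⟨f, hf, h⟩ := hP
  exact ⟨fun x => f (g x), hf.comp hg, fun x => h _⟩

theorem PolyDec.const (p : Prop) : PolyDec (fun _ => p) := by
  by_cases h : p
  · exact ⟨fun _ => T.node T.leaf T.leaf, PolyTime.const _, fun x => by simp [h]⟩
  · exact ⟨fun _ => T.leaf, PolyTime.const _, fun x => by simp [h]⟩

open Classical in
theorem PolyTime.ifP {P : T → Prop} (hP : PolyDec P) {f g : T → T} (hf : PolyTime f)
    (hg : PolyTime g) : PolyTime (fun x => if P x then f x else g x) := by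
  obtain ⟨c, hc, h⟩ := hP
  refine (hc.tif hg hf).congr fun x => ?_
  simp only [H19.tif, h]; split_ifs <;> first | rfl | (exfalso; tauto)

/-! ### Equality of trees -/

/-- Boolean equality of trees, as a tree. -/
def teq : T → T → T
  | T.leaf, y => tif y (T.node T.leaf T.leaf) T.leaf
  | T.node a b, y => tif y T.leaf (tif (teq a y.left) T.leaf (teq b y.right))

theorem teq_iff (x : T) : ∀ y, teq x y ≠ T.leaf ↔ x = y := by
  induction x with
  | leaf => intro y; cases y <;> simp [teq]
  | node a b iha ihb =>
    intro y
    cases y with
    | leaf => simp [teq]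
    | node c d =>
      have h1 := iha c
      have h2 := ihb d
      rw [teq, tif_node, T.left_node, T.right_node, T.node.injEq, H19.tif]
      split_ifs with h
      · simp only [h] at h1; simp at h1; simp; tauto
      · rw [h2]; tauto

theorem teq_size (x : T) : ∀ y, (teq x y).size ≤ 3 := by
  induction x with
  | leaf => intro y; cases y <;> simp [teq, T.size]
  | node a b iha ihb =>
    intro y
    cases y with
    | leaf => simp [teq, T.size]
    | node c d =>
      have h2 := ihb d
      rw [teq, tif_node, T.left_node, T.right_node, H19.tif]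
      split_ifs <;> simp_all [T.size]

theorem teq_polyTime₂ : PolyTime₂ teq := by
  have i := PolyTime.id
  refine PolyTime₂.binRec (F := teq) (l := T.left) (r := T.right)
    (pl := fun z => z.right.left) (pr := fun z => z.right.right)
    (base := fun z => H19.tif z.right (T.node T.leaf T.leaf) T.leaf)
    (comb := fun w => H19.tif w.left.right T.leaf (H19.tif w.right.left T.leaf w.right.right))
    PolyTime.left' PolyTime.right' i.right.left i.right.right
    (i.right.tif (PolyTime.const _) PolyTime.leaf)
    (i.left.right.tif PolyTime.leaf (i.right.left.tif PolyTime.leaf i.right.right))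
    (fun _ => rfl) ?_ ?_ 0 ?_ ?_
    (G := fun _ => 3) (PolyB.const 3) (fun _ _ _ => le_rfl) ?_
  · intro x p hx
    rcases x with _ | ⟨a, b⟩
    · exact absurd rfl hx
    · rfl
  · intro x hx
    rcases x with _ | ⟨a, b⟩
    · exact absurd rfl hx
    · simp only [T.size, T.right_node, T.left_node]; omega
  · intro x p; exact T.size_left_le p
  · intro x p; exact T.size_right_le p
  · intro x p; exact teq_size x p

theorem PolyDec.eq {f g : T → T} (hf : PolyTime f) (hg : PolyTime g) :
    PolyDec (fun x => f x = g x) :=
  ⟨fun x => teq (f x) (g x), teq_polyTime₂.comp hf hg, fun x => (teq_iff _ _).symm⟩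

/-! ### Lists -/

/-- Lists of trees as trees. -/
def encL : List T → T
  | [] => T.leaf
  | a :: l => T.node a (encL l)

@[simp] theorem encL_nil : encL [] = T.leaf := rfl
@[simp] theorem encL_cons (a : T) (l : List T) : encL (a :: l) = T.node a (encL l) := rfl

@[simp] theorem encL_len (l : List T) : (encL l).len = l.length := by
  induction l with
  | nil => rfl
  | cons a l ih => simp [ih]

/-- The list of left subtrees along the right spine. -/
def T.toL : T → List T
  | T.leaf => []
  | T.node a b => a :: T.toL b

@[simp] theorem toL_encL (l : List T) : (encL l).toL = l := by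
  induction l with
  | nil => rfl
  | cons a l ih => simp [T.toL, ih]

@[simp] theorem encL_toL (x : T) : encL x.toL = x := by
  induction x with
  | leaf => rfl
  | node a b _ ih => simp [T.toL, ih]

/-- Membership, as a tree. -/
def tmem : T → T → T
  | T.leaf, _ => T.leaf
  | T.node a b, y => tif (teq a y) (tmem b y) (T.node T.leaf T.leaf)

theorem tmem_iff (x y : T) : tmem x y ≠ T.leaf ↔ y ∈ x.toL := by
  induction x with
  | leaf => simp [tmem, T.toL]
  | node a b _ ih =>
    have := teq_iff a y
    simp only [tmem, T.toL, List.mem_cons, H19.tif]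
    split_ifs with h
    · rw [h] at this
      rw [ih]; simp at this
      constructor
      · intro h'; exact Or.inr h'
      · rintro (h' | h')
        · exact absurd h'.symm this
        · exact h'
    · simp; left; exact (this.1 h).symm

theorem tmem_size (x y : T) : (tmem x y).size ≤ 3 := by
  induction x with
  | leaf => simp [tmem, T.size]
  | node a b _ ih => simp only [tmem, H19.tif]; split_ifs <;> simp_all [T.size]

theorem tmem_polyTime₂ : PolyTime₂ tmem := by
  have i := PolyTime.id
  refine PolyTime₂.binRec (F := tmem) (l := fun _ => T.leaf) (r := T.right)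
    (pl := fun _ => T.leaf) (pr := fun z => z.right) (base := fun _ => T.leaf)
    (comb := fun w => H19.tif (teq w.left.left.left w.left.right) w.right.right
      (T.node T.leaf T.leaf))
    PolyTime.leaf PolyTime.right' PolyTime.leaf i.right PolyTime.leaf
    ((teq_polyTime₂.comp i.left.left.left i.left.right).tif i.right.right (PolyTime.const _))
    (fun _ => rfl) ?_ ?_ 1 ?_ ?_
    (G := fun _ => 3) (PolyB.const 3) (fun _ _ _ => le_rfl) ?_
  · intro x p hx
    rcases x with _ | ⟨a, b⟩
    · exact absurd rfl hx
    · rfl
  · intro x hx
    rcases x with _ | ⟨a, b⟩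
    · exact absurd rfl hx
    · have := T.size_pos a
      simp only [T.size, T.right_node]; omega
  · intro x p; have := T.size_pos p; simp only [T.size]; omega
  · intro x p; simp
  · intro x p; exact tmem_size x p

theorem PolyDec.mem {f g : T → T} (hf : PolyTime f) (hg : PolyTime g) :
    PolyDec (fun x => g x ∈ (f x).toL) :=
  ⟨fun x => tmem (f x) (g x), tmem_polyTime₂.comp hf hg, fun x => (tmem_iff _ _).symm⟩

/-- Left fold over a list coded as a tree. -/
def tfold (g : T → T → T) : T → T → T
  | T.leaf, a => a
  | T.node h t, a => tfold g t (g h a)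

theorem tfold_eq (g : T → T → T) (x a : T) : tfold g x a = x.toL.foldl (fun a h => g h a) a := by
  induction x generalizing a with
  | leaf => rfl
  | node h t _ ih => simp [tfold, T.toL, ih]

theorem PolyTime₂.tfold {g : T → T → T} (hg : PolyTime₂ g) {G : ℕ → ℕ} (hG : PolyB G)
    (hGm : Monotone G) (hB : ∀ l a, (tfold g l a).size ≤ G (l.size + a.size)) :
    PolyTime₂ (tfold g) := by
  have i := PolyTime.id
  let f : T → T := fun s => T.node s.left.right (g s.left.left s.right)
  have hf : PolyTime f := i.left.right.node (hg.comp i.left.left i.right)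
  -- the list of the first `n` entries
  have htake : ∀ (n : ℕ) (l a : T), n ≤ l.len → ∃ l₁ l₂ : T, f^[n] (T.node l a) =
      T.node l₂ (H19.tfold g l₁ a) ∧ l₁.size ≤ l.size ∧ l₂.size ≤ l.size ∧
      (n = l.len → l₁ = l) := by
    intro n
    induction n with
    | zero =>
      intro l a h
      refine ⟨T.leaf, l, rfl, T.size_pos l, le_rfl, fun h => ?_⟩
      cases l with
      | leaf => rfl
      | node a b => simp at h
    | succ n ih =>
      intro l a h
      cases l with
      | leaf => simp at h
      | node x y =>
        obtain ⟨l₁, l₂, h1, h2, h3, h4⟩ := ih y (g x a) (by simpa using h)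
        refine ⟨T.node x l₁, l₂, ?_, ?_, ?_, fun h => ?_⟩
        · rw [Function.iterate_succ_apply]; exact h1
        · simp only [T.size]; omega
        · simp only [T.size]; omega
        · rw [h4 (by simpa using h)]
  have := PolyTime.iterate (n := T.left) (s := fun z => T.node z.left z.right) hf PolyTime.left'
    (PolyTime.left'.node PolyTime.right') (by
      have hP : PolyB (fun n => n + G (n + 2) + 1) :=
        (PolyB.id.add (hG.comp (PolyB.id.add (PolyB.const 2)))).add (PolyB.const 1)
      obtain ⟨k, hk⟩ := hP
      refine ⟨k, fun z j hj => ?_⟩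
      refine le_trans ?_ (hk z.size)
      obtain ⟨l₁, l₂, h1, h2, h3, _⟩ := htake j z.left z.right hj
      rw [h1, T.size]
      have h4 := hB l₁ z.right
      have h5 : G (l₁.size + z.right.size) ≤ G (z.size + 2) := hGm (by
        cases z <;> simp only [T.left_leaf, T.right_leaf, T.left_node, T.right_node, T.size] at * <;>
          omega)
      have h6 := T.size_left_le z
      beta_reduce
      omega)
  refine this.right.congr fun z => ?_
  obtain ⟨l₁, l₂, h1, _, _, h4⟩ := htake z.left.len z.left z.right le_rfl
  rw [h1, h4 rfl]; rfl

/-! ### Halving -/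

theorem PolyNat.div2 {f : T → ℕ} (hf : PolyNat f) : PolyNat (fun x => f x / 2) := by
  have i := PolyTime.id
  let g : T → T := fun s => H19.tif s.right (T.node s.left (T.node T.leaf T.leaf))
    (T.node (T.node T.leaf s.left) T.leaf)
  have hg : PolyTime g := i.right.tif (i.left.node (PolyTime.const _))
    ((PolyTime.leaf.node i.left).node PolyTime.leaf)
  have hit : ∀ n, g^[n] (T.node T.leaf T.leaf) =
      T.node (T.unary (n / 2)) (if n % 2 = 0 then T.leaf else T.node T.leaf T.leaf) := by
    intro n
    induction n with
    | zero => rfl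
    | succ n ih =>
      rw [Function.iterate_succ_apply', ih]
      rcases Nat.mod_two_eq_zero_or_one n with h | h
      · have h1 : (n + 1) / 2 = n / 2 := by omega
        have h2 : (n + 1) % 2 = 1 := by omega
        simp [g, h, h1, h2]
      · have h1 : (n + 1) / 2 = n / 2 + 1 := by omega
        have h2 : (n + 1) % 2 = 0 := by omega
        simp [g, h, h1, h2, T.unary]
  have := PolyTime.iterate (n := fun x => T.unary (f x)) (s := fun _ => T.node T.leaf T.leaf) hg hf
    (PolyTime.const _) (by
      obtain ⟨k, hk⟩ := PolyTime.size_bound hf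
      obtain ⟨m, hm⟩ : PolyB (fun n => (n + 2) ^ k + 5) :=
        PolyB.add ⟨k, fun n => le_rfl⟩ (PolyB.const 5)
      refine ⟨m, fun x j hj => ?_⟩
      refine le_trans ?_ (hm x.size)
      have h1 := hk x
      simp only [T.len_unary] at hj
      simp only [T.size_unary] at h1
      rw [hit]
      split_ifs <;> simp only [T.size, T.size_unary] <;> omega)
  refine this.left.congr fun x => ?_
  simp only [T.len_unary]
  rw [hit, T.left_node]

end Pool.Agent.H19
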