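import Pool.Agent.Lib_helper19.PolyBasic

/-! # A recursion scheme for polynomial-time functions on trees -/

namespace Pool.Agent.H19

open T

/-- `Run f B s n s'`: iterating `f` for `n` rounds from `s` leads to `s'`, the loop condition
holds before each round and all states have size at most `B`. -/
def Run (f : T → T) (B : ℕ) (s : T) (n : ℕ) (s' : T) : Prop :=
  f^[n] s = s' ∧ (∀ i, i < n → (f^[i] s).left ≠ T.leaf) ∧ ∀ i, i ≤ n → (f^[i] s).size ≤ B

theorem Run.refl {f : T → T} {B : ℕ} {s : T} (h : s.size ≤ B) : Run f B s 0 s :=
  ⟨rfl, fun i hi => by omega, fun i hi => by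
    obtain rfl : i = 0 := by omega
    simpa using h⟩

theorem Run.step {f : T → T} {B : ℕ} {s : T} {n : ℕ} {s' : T} (h1 : s.left ≠ T.leaf)
    (h2 : s.size ≤ B) (h : Run f B (f s) n s') : Run f B s (n + 1) s' := by
  obtain ⟨ha, hb, hc⟩ := h
  refine ⟨by rw [Function.iterate_succ_apply]; exact ha, fun i hi => ?_, fun i hi => ?_⟩
  · cases i with
    | zero => simpa using h1
    | succ i => rw [Function.iterate_succ_apply]; exact hb i (by omega)
  · cases i with
    | zero => simpa using h2
    | succ i => rw [Function.iterate_succ_apply]; exact hc i (by omega)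

theorem Run.trans {f : T → T} {B : ℕ} {s s' s'' : T} {n m : ℕ} (h : Run f B s n s')
    (h' : Run f B s' m s'') : Run f B s (m + n) s'' := by
  obtain ⟨ha, hb, hc⟩ := h
  obtain ⟨ha', hb', hc'⟩ := h'
  refine ⟨by rw [Function.iterate_add_apply, ha, ha'], fun i hi => ?_, fun i hi => ?_⟩
  · by_cases hin : i < n
    · exact hb i hin
    · obtain ⟨j, rfl⟩ : ∃ j, i = j + n := ⟨i - n, by omega⟩
      rw [Function.iterate_add_apply, ha]; exact hb' j (by omega)
  · by_cases hin : i ≤ n
    · exact hc i hin
    · obtain ⟨j, rfl⟩ : ∃ j, i = j + n := ⟨i - n, by omega⟩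
      rw [Function.iterate_add_apply, ha]; exact hc' j (by omega)

theorem Run.one {f : T → T} {B : ℕ} {s s' : T} (h1 : s.left ≠ T.leaf)
    (h2 : s.size ≤ B) (h : f s = s') (h3 : s'.size ≤ B) : Run f B s 1 s' :=
  Run.step h1 h2 (h ▸ Run.refl (h ▸ h3))

theorem PolyTime.whileRun {f s r : T → T} (hf : PolyTime f) (hs : PolyTime s) {B : ℕ → ℕ}
    (hB : PolyB B) (h : ∀ x, ∃ n ≤ B x.size, Run f (B x.size) (s x) n (r x))
    (hr : ∀ x, (r x).left = T.leaf) : PolyTime (fun x => (r x).right) := by
  obtain ⟨k, hk⟩ := hB
  choose N hN hrun using h
  have := PolyTime.whileLoop hf hs N (fun x i hi => (hrun x).2.1 i hi)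
    (fun x => by rw [(hrun x).1]; exact hr x) ⟨k, fun x => (hN x).trans (hk _)⟩
    ⟨k, fun x i hi => ((hrun x).2.2 i hi).trans (hk _)⟩
  exact this.congr fun x => by rw [(hrun x).1]

/-- Polynomial time for functions of two trees. -/
def PolyTime₂ (F : T → T → T) : Prop := PolyTime (fun z => F z.left z.right)

theorem PolyTime₂.comp {F : T → T → T} (hF : PolyTime₂ F) {a b : T → T} (ha : PolyTime a)
    (hb : PolyTime b) : PolyTime (fun x => F (a x) (b x)) :=
  (PolyTime.comp hF (ha.node hb)).congr fun _ => rfl

/-- One round of the machine evaluating a binary recursion. -/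
def recStep (l r pl pr base comb : T → T) (s : T) : T :=
  tif s.left.left.left
    (tif s.left.left.right.left
      (T.node s.left.right (T.node (base s.left.left.right) s.right))
      (T.node (T.node (T.node T.leaf (T.node (l s.left.left.right.left) (pl s.left.left.right)))
        (T.node (T.node T.leaf (T.node (r s.left.left.right.left) (pr s.left.left.right)))
          (T.node (T.node (T.node T.leaf T.leaf) s.left.left.right) s.left.right))) s.right))
    (T.node s.left.right
      (T.node (comb (T.node s.left.left.right (T.node s.right.right.left s.right.left)))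
        s.right.right.right))

theorem recStep_polyTime {l r pl pr base comb : T → T} (hl : PolyTime l) (hr : PolyTime r)
    (hpl : PolyTime pl) (hpr : PolyTime pr) (hbase : PolyTime base) (hcomb : PolyTime comb) :
    PolyTime (recStep l r pl pr base comb) := by
  have i := PolyTime.id
  have L := PolyTime.leaf
  exact PolyTime.tif i.left.left.left
    (PolyTime.tif i.left.left.right.left
      (i.left.right.node ((hbase.comp i.left.left.right).node i.right))
      (((L.node ((hl.comp i.left.left.right.left).node (hpl.comp i.left.left.right))).node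
        ((L.node ((hr.comp i.left.left.right.left).node (hpr.comp i.left.left.right))).node
          (((L.node L).node i.left.left.right).node i.left.right))).node i.right))
    (i.left.right.node
      ((hcomb.comp (i.left.left.right.node (i.right.right.left.node i.right.left))).node
        i.right.right.right))

theorem recStep_run {l r pl pr base comb : T → T} {F : T → T → T}
    (hb : ∀ p, F T.leaf p = base (T.node T.leaf p))
    (hs : ∀ x p, x ≠ T.leaf → F x p = comb (T.node (T.node x p)
      (T.node (F (l x) (pl (T.node x p))) (F (r x) (pr (T.node x p))))))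
    (hsize : ∀ x, x ≠ T.leaf → (l x).size + (r x).size < x.size)
    {good : T → T → Prop} {A : ℕ}
    (hgl : ∀ x p, x ≠ T.leaf → good x p → good (l x) (pl (T.node x p)))
    (hgr : ∀ x p, x ≠ T.leaf → good x p → good (r x) (pr (T.node x p)))
    (hA : ∀ x p, good x p → (T.node x p).size ≤ A ∧ (F x p).size ≤ A) :
    ∀ (n : ℕ) (x : T), x.size ≤ n → ∀ (p W V : T) (B : ℕ), good x p →
      W.size + V.size + x.size * (3 * A + 20) ≤ B →
      ∃ N, N + 1 ≤ 2 * x.size ∧ Run (recStep l r pl pr base comb) B
        (T.node (T.node (T.node T.leaf (T.node x p)) W) V) N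
        (T.node W (T.node (F x p) V)) := by
  intro n
  induction n with
  | zero => intro x hx; have := T.size_pos x; omega
  | succ n ih =>
    intro x hx p W V B hgood hB
    obtain ⟨hz, hF⟩ := hA x p hgood
    by_cases hxl : x = T.leaf
    · subst hxl
      refine ⟨1, by simp [T.size], Run.one (by simp) ?_ ?_ ?_⟩
      · simp only [T.size] at hz hB ⊢; omega
      · simp [recStep, hb]
      · simp only [T.size] at hz hB ⊢; omega
    · have hsz := hsize x hxl
      obtain ⟨hzl, hFl⟩ := hA _ _ (hgl x p hxl hgood)
      obtain ⟨hzr, hFr⟩ := hA _ _ (hgr x p hxl hgood)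
      have hBx : ∀ y : T, y.size + 1 ≤ x.size →
          y.size * (3 * A + 20) + (3 * A + 20) ≤ x.size * (3 * A + 20) := by
        intro y hy
        calc y.size * (3 * A + 20) + (3 * A + 20) = (y.size + 1) * (3 * A + 20) := by ring
          _ ≤ x.size * (3 * A + 20) := Nat.mul_le_mul_right _ hy
      have hposl := T.size_pos (l x)
      have hposr := T.size_pos (r x)
      have hKl := hBx (l x) (by omega)
      have hKr := hBx (r x) (by omega)
      have hKx : 3 * A + 20 ≤ x.size * (3 * A + 20) :=
        Nat.le_mul_of_pos_left _ (T.size_pos x)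
      obtain ⟨N1, hN1, run1⟩ := ih (l x) (by omega) (pl (T.node x p))
        (T.node (T.node T.leaf (T.node (r x) (pr (T.node x p))))
          (T.node (T.node (T.node T.leaf T.leaf) (T.node x p)) W)) V B
        (hgl x p hxl hgood) (by
          simp only [T.size] at hz hzr hzl ⊢; omega)
      obtain ⟨N2, hN2, run2⟩ := ih (r x) (by omega) (pr (T.node x p))
        (T.node (T.node (T.node T.leaf T.leaf) (T.node x p)) W)
        (T.node (F (l x) (pl (T.node x p))) V) B
        (hgr x p hxl hgood) (by
          simp only [T.size] at hz hzr hzl ⊢; omega)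
      have run3 : Run (recStep l r pl pr base comb) B
          (T.node (T.node (T.node (T.node T.leaf T.leaf) (T.node x p)) W)
            (T.node (F (r x) (pr (T.node x p))) (T.node (F (l x) (pl (T.node x p))) V))) 1
          (T.node W (T.node (F x p) V)) := by
        refine Run.one (by simp) ?_ ?_ ?_
        · simp only [T.size] at hz hzr hzl ⊢; omega
        · simp [recStep, hs x p hxl]
        · simp only [T.size] at hz hzr hzl ⊢; omega
      refine ⟨1 + (N2 + N1) + 1, by omega, Run.step (by simp) ?_ ?_⟩
      · simp only [T.size] at hz ⊢; omega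
      · have : recStep l r pl pr base comb
            (T.node (T.node (T.node T.leaf (T.node x p)) W) V) =
          (T.node (T.node (T.node T.leaf (T.node (l x) (pl (T.node x p))))
            (T.node (T.node T.leaf (T.node (r x) (pr (T.node x p))))
            (T.node (T.node (T.node T.leaf T.leaf) (T.node x p)) W))) V) := by
          rcases x with _ | ⟨a, b⟩
          · exact absurd rfl hxl
          · simp [recStep]
        rw [this]
        exact (run1.trans run2).trans run3

/-- **Binary recursion.** If `F x p` is obtained in polynomial time from the values of `F` at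
two smaller trees, with parameters growing by at most a constant, and `F` has polynomially
bounded values, then `F` is polynomial time. -/
theorem PolyTime₂.binRec {F : T → T → T} {l r pl pr base comb : T → T} (hl : PolyTime l)
    (hr : PolyTime r) (hpl : PolyTime pl) (hpr : PolyTime pr) (hbase : PolyTime base)
    (hcomb : PolyTime comb)
    (hb : ∀ p, F T.leaf p = base (T.node T.leaf p))
    (hs : ∀ x p, x ≠ T.leaf → F x p = comb (T.node (T.node x p)
      (T.node (F (l x) (pl (T.node x p))) (F (r x) (pr (T.node x p))))))
    (hsize : ∀ x, x ≠ T.leaf → (l x).size + (r x).size < x.size)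
    (C : ℕ) (hplC : ∀ x p, (pl (T.node x p)).size ≤ p.size + C)
    (hprC : ∀ x p, (pr (T.node x p)).size ≤ p.size + C)
    {G : ℕ → ℕ} (hG : PolyB G) (hGm : Monotone G)
    (hout : ∀ x p, (F x p).size ≤ G (x.size + p.size)) :
    PolyTime₂ F := by
  have hC : ∀ x p, (pl (T.node x p)).size ≤ p.size + (C + 1) := fun x p =>
    (hplC x p).trans (by omega)
  have hC' : ∀ x p, (pr (T.node x p)).size ≤ p.size + (C + 1) := fun x p =>
    (hprC x p).trans (by omega)
  -- the bound on all states
  let A : ℕ → ℕ := fun n => (C + 2) * (n + 2) + G ((C + 2) * (n + 2)) + 1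
  let B : ℕ → ℕ := fun n => n * (3 * A n + 20) + 2 * n + 20
  have hApoly : PolyB A := by
    have h1 : PolyB (fun n => (C + 2) * (n + 2)) :=
      (PolyB.const (C + 2)).mul (PolyB.id.add (PolyB.const 2))
    exact (h1.add (hG.comp h1)).add (PolyB.const 1)
  have hBpoly : PolyB B :=
    ((PolyB.id.mul (((PolyB.const 3).mul hApoly).add (PolyB.const 20))).add
      ((PolyB.const 2).mul PolyB.id)).add (PolyB.const 20)
  have hAmono : Monotone A := by
    intro a b hab
    have h1 : (C + 2) * (a + 2) ≤ (C + 2) * (b + 2) := Nat.mul_le_mul_left _ (by omega)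
    have h2 := hGm h1
    simp only [A]; omega
  have := PolyTime.whileRun (f := recStep l r pl pr base comb)
    (s := fun z => T.node (T.node (T.node T.leaf (T.node z.left z.right)) T.leaf) T.leaf)
    (r := fun z => T.node T.leaf (T.node (F z.left z.right) T.leaf))
    (recStep_polyTime hl hr hpl hpr hbase hcomb)
    (((PolyTime.leaf.node (PolyTime.left'.node PolyTime.right')).node PolyTime.leaf).node
      PolyTime.leaf) hBpoly (fun z => by
      have hrun := recStep_run hb hs hsize
        (good := fun x p => (C + 1) * x.size + p.size ≤ (C + 1) * z.left.size + z.right.size)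
        (A := A z.size)
        (fun x p hx hg => by
          have h1 := hsize x hx
          have h2 := hC x p
          have h3 : (C + 1) * (l x).size + (C + 1) ≤ (C + 1) * x.size := by
            calc (C + 1) * (l x).size + (C + 1) = (C + 1) * ((l x).size + 1) := by ring
              _ ≤ _ := Nat.mul_le_mul_left _ (by omega)
          omega)
        (fun x p hx hg => by
          have h1 := hsize x hx
          have h2 := hC' x p
          have h3 : (C + 1) * (r x).size + (C + 1) ≤ (C + 1) * x.size := by
            calc (C + 1) * (r x).size + (C + 1) = (C + 1) * ((r x).size + 1) := by ring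
              _ ≤ _ := Nat.mul_le_mul_left _ (by omega)
          omega)
        (fun x p hg => by
          have h0 : z.left.size + z.right.size ≤ z.size + 1 := by
            cases z <;> simp [T.size, T.left, T.right]; omega
          have h1 : (C + 1) * z.left.size + z.right.size ≤ (C + 1) * (z.size + 1) := by
            calc (C + 1) * z.left.size + z.right.size
                ≤ (C + 1) * z.left.size + (C + 1) * z.right.size := by
                  have : z.right.size ≤ (C + 1) * z.right.size :=
                    Nat.le_mul_of_pos_left _ (by omega)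
                  omega
              _ = (C + 1) * (z.left.size + z.right.size) := by ring
              _ ≤ _ := Nat.mul_le_mul_left _ h0
          have h2 : x.size ≤ (C + 1) * x.size := Nat.le_mul_of_pos_left _ (by omega)
          have h3 : (C + 1) * (z.size + 1) ≤ (C + 2) * (z.size + 2) :=
            Nat.mul_le_mul (by omega) (by omega)
          have h4 := hout x p
          have h5 : G (x.size + p.size) ≤ G ((C + 2) * (z.size + 2)) := hGm (by omega)
          simp only [T.size, A]
          constructor <;> omega)
        z.left.size z.left le_rfl z.right T.leaf T.leaf (B z.size) le_rfl (by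
          have h1 := T.size_left_le z
          have h2 : z.left.size * (3 * A z.size + 20) ≤ z.size * (3 * A z.size + 20) :=
            Nat.mul_le_mul_right _ h1
          simp only [T.size, B]; omega)
      obtain ⟨N, hN, hrun⟩ := hrun
      refine ⟨N, ?_, hrun⟩
      have h1 := T.size_left_le z
      simp only [B]; omega)
    (fun z => rfl)
  exact this.left.congr fun z => rfl

end Pool.Agent.H19
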