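import Mathlib

/-!
# Programs on binary trees with a cost semantics

The model of computation used for the results on `MP_9649a7_lc`.  Data are finite binary
trees; a program is built from the identity, the constant leaf, the two projections, pairing,
composition, a test and a while loop.  Every basic operation is charged the size of the tree
it handles, so that cost is, up to a polynomial, time on a Turing machine.
-/

namespace Pool.Agent.H19

/-- Finite binary trees. -/
inductive T : Type
  | leaf : T
  | node : T → T → T
  deriving DecidableEq

namespace T

/-- The number of nodes and leaves of a tree. -/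
def size : T → ℕ
  | leaf => 1
  | node l r => size l + size r + 1

/-- Left subtree (a leaf is its own left subtree). -/
def left : T → T
  | leaf => leaf
  | node l _ => l

/-- Right subtree (a leaf is its own right subtree). -/
def right : T → T
  | leaf => leaf
  | node _ r => r

/-- The number `n` in unary. -/
def unary : ℕ → T
  | 0 => leaf
  | n + 1 => node leaf (unary n)

end T

/-- Programs. -/
inductive Code : Type
  | id : Code
  | leaf : Code
  | fst : Code
  | snd : Code
  | pair : Code → Code → Code
  | comp : Code → Code → Code
  | ite : Code → Code → Code → Code
  | loop : Code → Code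
  deriving DecidableEq

/-- `Eval c x y t`: the program `c`, started on `x`, halts with result `y`, at cost `t`.
`comp f g` runs `g` and then `f`; `ite c f g` runs `f` if the result of `c` is a leaf and `g`
if it is not; `loop f` replaces its input `x` by the result of `f` on `x` until the left
subtree of `x` is a leaf, and then returns the right subtree. -/
inductive Eval : Code → T → T → ℕ → Prop
  | id (x : T) : Eval Code.id x x x.size
  | leaf (x : T) : Eval Code.leaf x T.leaf 1
  | fst (x : T) : Eval Code.fst x x.left x.size
  | snd (x : T) : Eval Code.snd x x.right x.size
  | pair {f g : Code} {x a b : T} {s t : ℕ} :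
      Eval f x a s → Eval g x b t → Eval (Code.pair f g) x (T.node a b) (s + t + 1)
  | comp {f g : Code} {x y z : T} {s t : ℕ} :
      Eval g x y s → Eval f y z t → Eval (Code.comp f g) x z (s + t + 1)
  | ite_leaf {c f g : Code} {x y : T} {s t : ℕ} :
      Eval c x T.leaf s → Eval f x y t → Eval (Code.ite c f g) x y (s + t + 1)
  | ite_node {c f g : Code} {x a b y : T} {s t : ℕ} :
      Eval c x (T.node a b) s → Eval g x y t → Eval (Code.ite c f g) x y (s + t + 1)
  | loop_stop {f : Code} {x : T} : x.left = T.leaf → Eval (Code.loop f) x x.right (x.size + 1)
  | loop_step {f : Code} {x y z : T} {s t : ℕ} : x.left ≠ T.leaf →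
      Eval f x y s → Eval (Code.loop f) y z t → Eval (Code.loop f) x z (s + t + 1)

/-- A function on trees is computable in polynomial time if some program computes it at cost
at most `(size x + 2) ^ k` for some `k`. -/
def PolyTime (f : T → T) : Prop :=
  ∃ (c : Code) (k : ℕ), ∀ x : T, ∃ t : ℕ, Eval c x (f x) t ∧ t ≤ (x.size + 2) ^ k

end Pool.Agent.H19
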