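import Pool.Agent.Lib_helper19.Universal

/-! # Syntactic operations as polynomial-time functions on trees -/

namespace Pool.Agent.H19

open T

/-! ### Decoding -/

/-- Decode a term. -/
def decTm : T → Tm
  | T.leaf => Tm.zero
  | T.node _ T.leaf => Tm.zero
  | T.node tag (T.node a b) =>
    if tag = T.unary 0 then Tm.var a.len
    else if tag = T.unary 2 then Tm.succ (decTm a)
    else if tag = T.unary 3 then Tm.half (decTm a)
    else if tag = T.unary 4 then Tm.len (decTm a)
    else if tag = T.unary 5 then Tm.add (decTm a) (decTm b)
    else if tag = T.unary 6 then Tm.mul (decTm a) (decTm b)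
    else if tag = T.unary 7 then Tm.smash (decTm a) (decTm b)
    else Tm.zero

/-- Decode a formula. -/
def decFm : T → Fm
  | T.leaf => Fm.bot
  | T.node _ T.leaf => Fm.bot
  | T.node tag (T.node a b) =>
    if tag = T.unary 9 then Fm.eq (decTm a) (decTm b)
    else if tag = T.unary 10 then Fm.le (decTm a) (decTm b)
    else if tag = T.unary 11 then Fm.imp (decFm a) (decFm b)
    else if tag = T.unary 12 then Fm.all (decFm a)
    else Fm.bot

theorem T.unary_inj {m n : ℕ} : T.unary m = T.unary n ↔ m = n :=
  ⟨fun h => by rw [← T.len_unary m, h, T.len_unary], fun h => by rw [h]⟩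

@[simp] theorem decTm_enc (t : Tm) : decTm t.enc = t := by
  induction t <;> simp_all [Tm.enc, decTm, T.unary_inj]

@[simp] theorem decFm_enc (φ : Fm) : decFm φ.enc = φ := by
  induction φ <;> simp_all [Fm.enc, decFm, T.unary_inj]

theorem Tm.enc_inj {s t : Tm} : s.enc = t.enc ↔ s = t :=
  ⟨fun h => by rw [← decTm_enc s, h, decTm_enc], fun h => by rw [h]⟩

theorem Fm.enc_inj {φ ψ : Fm} : φ.enc = ψ.enc ↔ φ = ψ :=
  ⟨fun h => by rw [← decFm_enc φ, h, decFm_enc], fun h => by rw [h]⟩

/-! ### Recursion on codes of terms and formulas -/

theorem size_parts (x : T) (hx : x ≠ T.leaf) :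
    x.right.left.size + x.right.right.size + x.left.size ≤ x.size := by
  rcases x with _ | ⟨t, _ | ⟨a, b⟩⟩
  · exact absurd rfl hx
  · simp [T.size]; omega
  · simp [T.size]; omega

/-- Recursion on the shape `node tag (node a b)` of codes. -/
theorem PolyTime₂.synRec {F : T → T → T} {d : T} {pl pr comb : T → T}
    (hpl : PolyTime pl) (hpr : PolyTime pr) (hcomb : PolyTime comb)
    (h0 : ∀ p, F T.leaf p = d) (h1 : ∀ t p, F (T.node t T.leaf) p = d)
    (h2 : ∀ t a b p, F (T.node t (T.node a b)) p =
      comb (T.node (T.node (T.node t (T.node a b)) p)
        (T.node (F a (pl (T.node (T.node t (T.node a b)) p)))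
          (F b (pr (T.node (T.node t (T.node a b)) p))))))
    (C : ℕ) (hplC : ∀ x p, (pl (T.node x p)).size ≤ p.size + C)
    (hprC : ∀ x p, (pr (T.node x p)).size ≤ p.size + C)
    {G : ℕ → ℕ} (hG : PolyB G) (hGm : Monotone G)
    (hout : ∀ x p, (F x p).size ≤ G (x.size + p.size)) : PolyTime₂ F := by
  have i := PolyTime.id
  refine PolyTime₂.binRec (F := F) (l := fun x => x.right.left) (r := fun x => x.right.right)
    (pl := pl) (pr := pr) (base := fun _ => d)
    (comb := fun w => H19.tif w.left.left.right d (comb w)) i.right.left i.right.right hpl hpr
    (PolyTime.const d) (i.left.left.right.tif (PolyTime.const d) hcomb) h0 ?_ ?_ C hplC hprC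
    hG hGm hout
  · intro x p hx
    rcases x with _ | ⟨t, _ | ⟨a, b⟩⟩
    · exact absurd rfl hx
    · simp [h1]
    · rw [h2]; simp
  · intro x hx
    have := size_parts x hx
    have := T.size_pos x.left
    omega

/-! ### Shift -/

/-- `shift` on codes; the parameter is `node (unary c) (unary d)`. -/
def rShift : T → T → T
  | T.leaf, _ => T.leaf
  | T.node _ T.leaf, _ => T.leaf
  | T.node t (T.node a b), p =>
    if t = T.unary 0 then
      (if T.unary (a.len + 1 - p.left.len) = T.leaf then T.node t (T.node a b)
        else T.node t (T.node (app p.right a) T.leaf))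
    else if t = T.unary 12 then
      T.node t (T.node (rShift a (T.node (T.node T.leaf p.left) p.right))
        (rShift b (T.node (T.node T.leaf p.left) p.right)))
    else T.node t (T.node (rShift a p) (rShift b p))

theorem rShift_tm (c d : ℕ) (t : Tm) :
    rShift t.enc (T.node (T.unary c) (T.unary d)) = (t.shift c d).enc := by
  induction t with
  | var i =>
    simp only [Tm.enc, rShift, Tm.shift, T.len_unary, T.left_node, T.right_node, if_true]
    by_cases h : i < c
    · rw [if_pos (by rw [show i + 1 - c = 0 by omega]; rfl), if_pos h, Tm.enc]
    · rw [if_neg, if_neg h, app_unary, Tm.enc, add_comm]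
      intro h2
      have : (T.unary (i + 1 - c)).len = 0 := by rw [h2]; rfl
      rw [T.len_unary] at this; omega
  | zero => simp [Tm.enc, rShift, Tm.shift, T.unary]
  | succ t ih => simp [Tm.enc, rShift, Tm.shift, T.unary, ih]
  | half t ih => simp [Tm.enc, rShift, Tm.shift, T.unary, ih]
  | len t ih => simp [Tm.enc, rShift, Tm.shift, T.unary, ih]
  | add s t ih1 ih2 => simp [Tm.enc, rShift, Tm.shift, T.unary, ih1, ih2]
  | mul s t ih1 ih2 => simp [Tm.enc, rShift, Tm.shift, T.unary, ih1, ih2]
  | smash s t ih1 ih2 => simp [Tm.enc, rShift, Tm.shift, T.unary, ih1, ih2]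

theorem rShift_fm (d : ℕ) (φ : Fm) : ∀ c : ℕ,
    rShift φ.enc (T.node (T.unary c) (T.unary d)) = (φ.shift c d).enc := by
  induction φ with
  | bot => intro c; simp [Fm.enc, rShift, Fm.shift, T.unary]
  | eq s t => intro c; simp [Fm.enc, rShift, Fm.shift, T.unary, rShift_tm]
  | le s t => intro c; simp [Fm.enc, rShift, Fm.shift, T.unary, rShift_tm]
  | imp φ ψ ih1 ih2 => intro c; simp [Fm.enc, rShift, Fm.shift, T.unary, ih1, ih2]
  | all φ ih =>
    intro c
    have := ih (c + 1)
    simp only [T.unary] at this
    simp [Fm.enc, rShift, Fm.shift, T.unary, this]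

theorem size_mul_bound {t a b x k : ℕ} (h : a + b + t ≤ x) (ht : 1 ≤ t) (hk : 3 ≤ k) :
    t + (a * k + b * k + 1) + 1 ≤ x * k := by
  calc t + (a * k + b * k + 1) + 1 ≤ a * k + b * k + t * k := by nlinarith
    _ = (a + b + t) * k := by ring
    _ ≤ x * k := Nat.mul_le_mul_right _ h

theorem T.size_parts_eq (p : T) : p.left.size + p.right.size ≤ p.size + 1 := by
  cases p <;> simp [T.size]; omega

theorem rShift_size (n : ℕ) : ∀ x p : T, x.size ≤ n →
    (rShift x p).size ≤ x.size * (p.size + 4 * x.size) := by
  induction n with
  | zero => intro x p h; have := T.size_pos x; omega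
  | succ n ih =>
    intro x p h
    have hp := T.size_pos p
    rcases x with _ | ⟨t, _ | ⟨a, b⟩⟩
    · simp [rShift, T.size]
    · have ht := T.size_pos t
      simp only [rShift, T.size]; nlinarith
    · have ht := T.size_pos t
      have ha := T.size_pos a
      have hb := T.size_pos b
      have hpl := T.size_parts_eq p
      have hpl1 := T.size_pos p.left
      simp only [T.size] at h
      -- recursive calls
      have key : ∀ q : T, q.size ≤ p.size + 4 → (T.node t (T.node (rShift a q) (rShift b q))).size ≤
          (T.node t (T.node a b)).size * (p.size + 4 * (T.node t (T.node a b)).size) := by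
        intro q hq
        have h1 := ih a q (by omega)
        have h2 := ih b q (by omega)
        have h3 : a.size * (q.size + 4 * a.size) ≤
            a.size * (p.size + 4 * (T.node t (T.node a b)).size) :=
          Nat.mul_le_mul_left _ (by simp only [T.size]; omega)
        have h4 : b.size * (q.size + 4 * b.size) ≤
            b.size * (p.size + 4 * (T.node t (T.node a b)).size) :=
          Nat.mul_le_mul_left _ (by simp only [T.size]; omega)
        have h5 := size_mul_bound (t := t.size) (a := a.size) (b := b.size)
          (x := (T.node t (T.node a b)).size) (k := p.size + 4 * (T.node t (T.node a b)).size)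
          (by simp only [T.size]; omega) ht (by simp only [T.size]; omega)
        refine le_trans ?_ h5
        simp only [T.size] at h1 h2 h3 h4 ⊢
        omega
      simp only [rShift]
      split_ifs with c1 c2 c3
      · exact Nat.le_mul_of_pos_right _ (by omega)
      · have h1 := app_size p.right a
        refine le_trans ?_ (Nat.le_mul_of_pos_left _ (T.size_pos _))
        simp only [T.size]
        omega
      · exact key _ (by simp only [T.size]; omega)
      · exact key _ (by omega)

theorem rShift_polyTime₂ : PolyTime₂ rShift := by
  have i := PolyTime.id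
  have u : ∀ n : ℕ, PolyTime (fun _ => T.unary n) := fun n => PolyTime.const _
  have L := PolyTime.leaf
  have hp : PolyTime (fun z : T => if z.left.left = T.unary 12 then
      T.node (T.node T.leaf z.right.left) z.right.right else z.right) :=
    PolyTime.ifEq i.left.left (u 12) ((L.node i.right.left).node i.right.right) i.right
  have hsize : ∀ x p : T, (if (T.node x p).left.left = T.unary 12 then
      T.node (T.node T.leaf (T.node x p).right.left) (T.node x p).right.right
      else (T.node x p).right).size ≤ p.size + 4 := by
    intro x p
    have := T.size_parts_eq p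
    simp only [T.left_node, T.right_node]
    split_ifs
    · simp only [T.size]; omega
    · omega
  refine PolyTime₂.synRec (F := rShift) (d := T.leaf)
    (pl := fun z => if z.left.left = T.unary 12 then
      T.node (T.node T.leaf z.right.left) z.right.right else z.right)
    (pr := fun z => if z.left.left = T.unary 12 then
      T.node (T.node T.leaf z.right.left) z.right.right else z.right)
    (comb := fun w => if w.left.left.left = T.unary 0 then
      (if T.unary (w.left.left.right.left.len + 1 - w.left.right.left.len) = T.leaf
        then w.left.left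
        else T.node w.left.left.left (T.node (app w.left.right.right w.left.left.right.left)
          T.leaf))
      else T.node w.left.left.left (T.node w.right.left w.right.right))
    hp hp ?_ (fun _ => rfl) (fun _ _ => rfl) ?_ 4 hsize hsize
    (G := fun n => n * (n + 4 * n)) ?_ ?_ ?_
  · refine PolyTime.ifEq i.left.left.left (u 0) (PolyTime.ifEq ?_ L i.left.left ?_)
      (i.left.left.left.node (i.right.left.node i.right.right))
    · exact ((PolyNat.len i.left.left.right.left).add (PolyNat.const 1)).sub
        (PolyNat.len i.left.right.left)
    · exact i.left.left.left.node ((i.left.right.right.app i.left.left.right.left).node L)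
  · intro t a b p
    simp only [rShift, T.left_node, T.right_node]
    split_ifs with c1 c2 c3 <;> rfl
  · exact PolyB.id.mul (PolyB.id.add ((PolyB.const 4).mul PolyB.id))
  · intro a b h
    exact Nat.mul_le_mul h (by omega)
  · intro x p
    refine (rShift_size x.size x p le_rfl).trans ?_
    exact Nat.mul_le_mul (by omega) (by omega)

/-! ### Substitution -/

/-- `inst` on codes; the parameter is `node (unary k) (code of the term)`. -/
def rInst : T → T → T
  | T.leaf, _ => T.leaf
  | T.node _ T.leaf, _ => T.leaf
  | T.node t (T.node a b), p =>
    if t = T.unary 0 then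
      (if T.unary (a.len + 1 - p.left.len) = T.leaf then T.node t (T.node a b)
        else if T.unary (a.len - p.left.len) = T.leaf then
          rShift p.right (T.node T.leaf p.left)
        else T.node t (T.node a.right T.leaf))
    else if t = T.unary 12 then
      T.node t (T.node (rInst a (T.node (T.node T.leaf p.left) p.right))
        (rInst b (T.node (T.node T.leaf p.left) p.right)))
    else T.node t (T.node (rInst a p) (rInst b p))

theorem unary_sub_eq_leaf {m n : ℕ} : T.unary (m - n) = T.leaf ↔ m ≤ n := by
  constructor
  · intro h
    have : (T.unary (m - n)).len = 0 := by rw [h]; rfl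
    rw [T.len_unary] at this; omega
  · intro h; rw [show m - n = 0 by omega]; rfl

theorem rInst_tm (k : ℕ) (s t : Tm) :
    rInst s.enc (T.node (T.unary k) t.enc) = (s.inst k t).enc := by
  induction s with
  | var i =>
    simp only [Tm.enc, rInst, Tm.inst, T.len_unary, T.left_node, T.right_node, if_true,
      unary_sub_eq_leaf]
    by_cases h : i < k
    · rw [if_pos (by omega), if_pos h, Tm.enc]
    · rw [if_neg (by omega), if_neg h]
      by_cases h' : i = k
      · rw [if_pos (by omega), if_pos h']
        exact rShift_tm 0 k t
      · rw [if_neg (by omega), if_neg h', Tm.enc]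
        obtain ⟨j, rfl⟩ : ∃ j, i = j + 1 := ⟨i - 1, by omega⟩
        simp [T.unary]
  | zero => simp [Tm.enc, rInst, Tm.inst, T.unary]
  | succ t ih => simp [Tm.enc, rInst, Tm.inst, T.unary, ih]
  | half t ih => simp [Tm.enc, rInst, Tm.inst, T.unary, ih]
  | len t ih => simp [Tm.enc, rInst, Tm.inst, T.unary, ih]
  | add s t ih1 ih2 => simp [Tm.enc, rInst, Tm.inst, T.unary, ih1, ih2]
  | mul s t ih1 ih2 => simp [Tm.enc, rInst, Tm.inst, T.unary, ih1, ih2]
  | smash s t ih1 ih2 => simp [Tm.enc, rInst, Tm.inst, T.unary, ih1, ih2]

theorem rInst_fm (t : Tm) (φ : Fm) : ∀ k : ℕ,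
    rInst φ.enc (T.node (T.unary k) t.enc) = (φ.inst k t).enc := by
  induction φ with
  | bot => intro c; simp [Fm.enc, rInst, Fm.inst, T.unary]
  | eq s t => intro c; simp [Fm.enc, rInst, Fm.inst, T.unary, rInst_tm]
  | le s t => intro c; simp [Fm.enc, rInst, Fm.inst, T.unary, rInst_tm]
  | imp φ ψ ih1 ih2 => intro c; simp [Fm.enc, rInst, Fm.inst, T.unary, ih1, ih2]
  | all φ ih =>
    intro c
    have := ih (c + 1)
    simp only [T.unary] at this
    simp [Fm.enc, rInst, Fm.inst, T.unary, this]

/-- A bound for the values of `rInst`. -/
def hInst (m : ℕ) : ℕ := m * (5 * m + 8) + m + 3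

theorem hInst_mono : Monotone hInst := by
  intro a b h
  have : a * (5 * a + 8) ≤ b * (5 * b + 8) := Nat.mul_le_mul h (by omega)
  simp only [hInst]; omega

theorem rInst_size (n : ℕ) : ∀ x p : T, x.size ≤ n →
    (rInst x p).size ≤ x.size * hInst (p.size + 4 * x.size) := by
  induction n with
  | zero => intro x p h; have := T.size_pos x; omega
  | succ n ih =>
    intro x p h
    have hp := T.size_pos p
    have hpos : ∀ m, m + 3 ≤ hInst m := by intro m; simp only [hInst]; omega
    rcases x with _ | ⟨t, _ | ⟨a, b⟩⟩
    · simp only [rInst, T.size]; have := hpos (p.size + 4 * 1); omega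
    · have ht := T.size_pos t
      have := hpos (p.size + 4 * (T.node t T.leaf).size)
      simp only [rInst, T.size] at *; nlinarith
    · have ht := T.size_pos t
      have ha := T.size_pos a
      have hb := T.size_pos b
      have hpl := T.size_parts_eq p
      have hpl1 := T.size_pos p.left
      simp only [T.size] at h
      -- recursive calls
      have key : ∀ q : T, q.size ≤ p.size + 4 → (T.node t (T.node (rInst a q) (rInst b q))).size ≤
          (T.node t (T.node a b)).size *
            hInst (p.size + 4 * (T.node t (T.node a b)).size) := by
        intro q hq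
        have h1 := ih a q (by omega)
        have h2 := ih b q (by omega)
        have h3 : a.size * hInst (q.size + 4 * a.size) ≤
            a.size * hInst (p.size + 4 * (T.node t (T.node a b)).size) :=
          Nat.mul_le_mul_left _ (hInst_mono (by simp only [T.size]; omega))
        have h4 : b.size * hInst (q.size + 4 * b.size) ≤
            b.size * hInst (p.size + 4 * (T.node t (T.node a b)).size) :=
          Nat.mul_le_mul_left _ (hInst_mono (by simp only [T.size]; omega))
        have h5 := size_mul_bound (t := t.size) (a := a.size) (b := b.size)
          (x := (T.node t (T.node a b)).size)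
          (k := hInst (p.size + 4 * (T.node t (T.node a b)).size))
          (by simp only [T.size]; omega) ht (by simp only [hInst]; omega)
        refine le_trans ?_ h5
        simp only [T.size] at h1 h2 h3 h4 ⊢
        omega
      have hbase : ∀ m, m ≤ hInst (p.size + 4 * (T.node t (T.node a b)).size) →
          m ≤ (T.node t (T.node a b)).size *
            hInst (p.size + 4 * (T.node t (T.node a b)).size) := fun m hm =>
        hm.trans (Nat.le_mul_of_pos_left _ (T.size_pos _))
      simp only [rInst]
      split_ifs with c1 c2 c3 c4
      · refine hbase _ ((by simp only [T.size]; omega : _ ≤ _).trans (hpos _))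
      · refine hbase _ ?_
        have h1 := rShift_size p.right.size p.right (T.node T.leaf p.left) le_rfl
        have h2 : p.right.size * ((T.node T.leaf p.left).size + 4 * p.right.size) ≤
            (p.size + 4 * (T.node t (T.node a b)).size) *
              (5 * (p.size + 4 * (T.node t (T.node a b)).size) + 8) :=
          Nat.mul_le_mul (by omega) (by simp only [T.size]; omega)
        simp only [hInst]
        omega
      · have h1 := T.size_right_le a
        refine hbase _ ((by simp only [T.size]; omega : _ ≤ _).trans (hpos _))
      · exact key _ (by simp only [T.size]; omega)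
      · exact key _ (by omega)

theorem rInst_polyTime₂ : PolyTime₂ rInst := by
  have i := PolyTime.id
  have u : ∀ n : ℕ, PolyTime (fun _ => T.unary n) := fun n => PolyTime.const _
  have L := PolyTime.leaf
  have hp : PolyTime (fun z : T => if z.left.left = T.unary 12 then
      T.node (T.node T.leaf z.right.left) z.right.right else z.right) :=
    PolyTime.ifEq i.left.left (u 12) ((L.node i.right.left).node i.right.right) i.right
  have hsize : ∀ x p : T, (if (T.node x p).left.left = T.unary 12 then
      T.node (T.node T.leaf (T.node x p).right.left) (T.node x p).right.right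
      else (T.node x p).right).size ≤ p.size + 4 := by
    intro x p
    have := T.size_parts_eq p
    simp only [T.left_node, T.right_node]
    split_ifs
    · simp only [T.size]; omega
    · omega
  refine PolyTime₂.synRec (F := rInst) (d := T.leaf)
    (pl := fun z => if z.left.left = T.unary 12 then
      T.node (T.node T.leaf z.right.left) z.right.right else z.right)
    (pr := fun z => if z.left.left = T.unary 12 then
      T.node (T.node T.leaf z.right.left) z.right.right else z.right)
    (comb := fun w => if w.left.left.left = T.unary 0 then
      (if T.unary (w.left.left.right.left.len + 1 - w.left.right.left.len) = T.leaf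
        then w.left.left
        else if T.unary (w.left.left.right.left.len - w.left.right.left.len) = T.leaf
        then rShift w.left.right.right (T.node T.leaf w.left.right.left)
        else T.node w.left.left.left (T.node w.left.left.right.left.right T.leaf))
      else T.node w.left.left.left (T.node w.right.left w.right.right))
    hp hp ?_ (fun _ => rfl) (fun _ _ => rfl) ?_ 4 hsize hsize
    (G := fun n => n * hInst (n + 4 * n)) ?_ ?_ ?_
  · refine PolyTime.ifEq i.left.left.left (u 0) (PolyTime.ifEq ?_ L i.left.left
      (PolyTime.ifEq ?_ L ?_ ?_)) (i.left.left.left.node (i.right.left.node i.right.right))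
    · exact ((PolyNat.len i.left.left.right.left).add (PolyNat.const 1)).sub
        (PolyNat.len i.left.right.left)
    · exact (PolyNat.len i.left.left.right.left).sub (PolyNat.len i.left.right.left)
    · exact rShift_polyTime₂.comp i.left.right.right (L.node i.left.right.left)
    · exact i.left.left.left.node (i.left.left.right.left.right.node L)
  · intro t a b p
    simp only [rInst, T.left_node, T.right_node]
    split_ifs with c1 c2 c3 <;> rfl
  · have h1 : PolyB hInst :=
      (((PolyB.id.mul (((PolyB.const 5).mul PolyB.id).add (PolyB.const 8))).add PolyB.id).add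
        (PolyB.const 3))
    exact PolyB.id.mul (h1.comp (PolyB.id.add ((PolyB.const 4).mul PolyB.id)))
  · intro a b h
    exact Nat.mul_le_mul h (hInst_mono (by omega))
  · intro x p
    refine (rInst_size x.size x p le_rfl).trans ?_
    exact Nat.mul_le_mul (by omega) (hInst_mono (by omega))

end Pool.Agent.H19
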