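import Pool.Agent.Lib_helper19.Universal

/-! # The recursion theorem for clocked programs -/

namespace Pool.Agent.H19

open T

/-- The program with constant output `a`. -/
def Code.const : T → Code
  | T.leaf => Code.leaf
  | T.node a b => Code.pair (Code.const a) (Code.const b)

theorem Eval.const (x a : T) : Eval (Code.const a) x a a.size := by
  induction a with
  | leaf => exact Eval.leaf x
  | node a b iha ihb => exact Eval.pair iha ihb

/-- The code of the constant program. -/
def qt : T → T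
  | T.leaf => Code.leaf.enc
  | T.node a b => T.node (T.unary 4) (T.node (qt a) (qt b))

theorem qt_eq (a : T) : qt a = (Code.const a).enc := by
  induction a with
  | leaf => rfl
  | node a b iha ihb => simp only [qt, Code.const, Code.enc, iha, ihb]

theorem qt_polyTime : PolyTime qt := by
  have i := PolyTime.id
  refine PolyTime₂.binRec₁ (c := Code.leaf.enc)
    (comb := fun w => T.node (T.unary 4) (T.node w.right.left w.right.right))
    ((PolyTime.const _).node (i.right.left.node i.right.right)) rfl (fun a b => rfl)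
    (G := fun n => 11 * n) ((PolyB.const 11).mul PolyB.id) (fun a b h => by dsimp only; omega) ?_
  intro x
  induction x with
  | leaf => simp [qt, Code.enc, T.size, T.unary]
  | node a b iha ihb => simp only [qt, T.size, T.size_unary]; omega

/-- An exponential eventually beats a polynomial. -/
theorem exists_clock (a d : ℕ) : ∃ κ : ℕ, ∀ n : ℕ, 2 ≤ n → (n + (a + 2 * κ)) ^ d ≤ n ^ κ := by
  -- choose `κ = 2 ^ (2 * m)`, with `m` large
  obtain ⟨m, hm⟩ : ∃ m, m = a + d + 5 := ⟨_, rfl⟩
  have hpow : ∀ j : ℕ, j + 1 ≤ 2 ^ j := fun j => Nat.lt_two_pow_self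
  refine ⟨2 ^ (2 * m), fun n hn => ?_⟩
  have h1 : n + (a + 2 * 2 ^ (2 * m)) ≤ n * 2 ^ (2 * m + 2 + a) := by
    have h2 : a + 2 * 2 ^ (2 * m) ≤ 2 ^ (2 * m + 2 + a) - 1 := by
      have h3 := hpow a
      have h4 : 2 ^ (2 * m + 2 + a) = 4 * 2 ^ (2 * m) * 2 ^ a := by ring
      have h5 : 1 ≤ 2 ^ (2 * m) := Nat.one_le_two_pow
      have h6 : a + 1 + 2 * 2 ^ (2 * m) ≤ 2 ^ (2 * m + 2 + a) := by
        rw [h4]; nlinarith
      omega
    have h3 : 1 ≤ 2 ^ (2 * m + 2 + a) := Nat.one_le_two_pow
    obtain ⟨q, hq⟩ : ∃ q, 2 ^ (2 * m + 2 + a) = q + 1 := ⟨2 ^ (2 * m + 2 + a) - 1, by omega⟩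
    rw [hq] at h2 ⊢
    have h5 : q ≤ n * q := Nat.le_mul_of_pos_left _ (by omega)
    have h6 : n * (q + 1) = n * q + n := by ring
    omega
  have h2 : (2 * m + 3 + a) * d ≤ 2 ^ (2 * m) - d ∧ d ≤ 2 ^ (2 * m) := by
    have h3 := hpow m
    have h4 : 2 ^ (2 * m) = 2 ^ m * 2 ^ m := by rw [two_mul, pow_add]
    have h5 : 3 * m + 3 ≤ 2 ^ m := by
      have : ∀ j, 5 ≤ j → 3 * j + 3 ≤ 2 ^ j := by
        intro j hj
        induction j, hj using Nat.le_induction with
        | base => norm_num
        | succ j hj ih => rw [pow_succ]; omega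
      exact this m (by omega)
    have h6 : (2 * m + 3 + a) * d + d ≤ 2 ^ (2 * m) := by
      rw [h4]
      calc (2 * m + 3 + a) * d + d = (2 * m + 4 + a) * d := by ring
        _ ≤ 2 ^ m * 2 ^ m := Nat.mul_le_mul (by omega) (by omega)
    constructor
    · omega
    · omega
  calc (n + (a + 2 * 2 ^ (2 * m))) ^ d ≤ (n * 2 ^ (2 * m + 2 + a)) ^ d :=
        Nat.pow_le_pow_left h1 _
    _ ≤ (n * n ^ (2 * m + 2 + a)) ^ d :=
        Nat.pow_le_pow_left (Nat.mul_le_mul_left _ (Nat.pow_le_pow_left hn _)) _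
    _ = n ^ ((2 * m + 3 + a) * d) := by rw [← pow_succ', ← pow_mul]; ring_nf
    _ ≤ n ^ (2 ^ (2 * m)) := Nat.pow_le_pow_right (by omega) (by omega)

/-- **Recursion theorem.** A polynomial-time program may use its own code and its own clock. -/
theorem recursion {D : T → T} (hD : PolyTime D) : ∃ (c : Code) (κ : ℕ), ∀ x : T, ∃ t : ℕ,
    Eval c x (D (T.node x (T.node c.enc (T.unary κ)))) t ∧ t ≤ (x.size + 2) ^ κ := by
  have i := PolyTime.id
  -- `S w` is the code of the program built from the program coded by `w.left` and data `w`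
  have hS : PolyTime (fun w : T => T.node (T.unary 5) (T.node w.left
      (T.node (T.unary 4) (T.node Code.id.enc (qt w))))) :=
    (PolyTime.const _).node (i.left.node ((PolyTime.const _).node
      ((PolyTime.const _).node qt_polyTime)))
  have hE : PolyTime (fun z : T => D (T.node z.left (T.node (T.node (T.unary 5)
      (T.node z.right.left (T.node (T.unary 4) (T.node Code.id.enc (qt z.right)))))
        z.right.right))) :=
    hD.comp (i.left.node ((hS.comp i.right).node i.right.right))
  obtain ⟨e, d, he⟩ := hE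
  obtain ⟨κ, hκ⟩ := exists_clock (e.enc.size + 20) (d + 1)
  let w : T := T.node e.enc (T.unary κ)
  refine ⟨Code.comp e (Code.pair Code.id (Code.const w)), κ, fun x => ?_⟩
  obtain ⟨t, ht, hb⟩ := he (T.node x w)
  have henc : (Code.comp e (Code.pair Code.id (Code.const w))).enc = T.node (T.unary 5)
      (T.node e.enc (T.node (T.unary 4) (T.node Code.id.enc (qt w)))) := by
    simp only [Code.enc, qt_eq]
  rw [henc]
  refine ⟨_, Eval.comp (Eval.pair (Eval.id x) (Eval.const x w)) ht, ?_⟩
  have hx := T.size_pos x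
  have h1 := hκ (x.size + 2) (by omega)
  refine le_trans ?_ h1
  have hw : w.size = e.enc.size + 2 * κ + 2 := by simp only [w, T.size, T.size_unary]; omega
  simp only [T.size] at hb
  have h2 : (x.size + w.size + 1 + 2) ^ d ≤ (x.size + 2 + (e.enc.size + 20 + 2 * κ)) ^ d :=
    Nat.pow_le_pow_left (by omega) _
  have h3 : 1 ≤ (x.size + 2 + (e.enc.size + 20 + 2 * κ)) ^ d := Nat.one_le_pow _ _ (by omega)
  rw [pow_succ]
  have h4 : x.size + w.size + 1 + 1 ≤ x.size + 2 + (e.enc.size + 20 + 2 * κ) - 1 := by omega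
  obtain ⟨q, hq⟩ : ∃ q, x.size + 2 + (e.enc.size + 20 + 2 * κ) = q + 1 :=
    ⟨x.size + 2 + (e.enc.size + 20 + 2 * κ) - 1, by omega⟩
  rw [hq] at h2 h3 h4 ⊢
  nlinarith

end Pool.Agent.H19
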