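import Pool.Agent.Lib_helper19.Absolute
import Pool.Agent.Lib_helper19.Check
import Pool.Agent.Lib_helper19.Recursion

/-! # Facts about numerals, the reflection sentences and the universal formula -/

namespace Pool.Agent.H19

open T

/-! ### Determinism -/

theorem Eval.det {c : Code} {x y : T} {t : ℕ} (h : Eval c x y t) :
    ∀ {y' : T} {t' : ℕ}, Eval c x y' t' → y = y' ∧ t = t' := by
  induction h with
  | id x => intro y' t' h'; cases h'; exact ⟨rfl, rfl⟩
  | leaf x => intro y' t' h'; cases h'; exact ⟨rfl, rfl⟩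
  | fst x => intro y' t' h'; cases h'; exact ⟨rfl, rfl⟩
  | snd x => intro y' t' h'; cases h'; exact ⟨rfl, rfl⟩
  | pair h1 h2 ih1 ih2 =>
    intro y' t' h'
    cases h' with
    | pair g1 g2 =>
      obtain ⟨rfl, rfl⟩ := ih1 g1
      obtain ⟨rfl, rfl⟩ := ih2 g2
      exact ⟨rfl, rfl⟩
  | comp h1 h2 ih1 ih2 =>
    intro y' t' h'
    cases h' with
    | comp g1 g2 =>
      obtain ⟨rfl, rfl⟩ := ih1 g1
      obtain ⟨rfl, rfl⟩ := ih2 g2
      exact ⟨rfl, rfl⟩
  | ite_leaf h1 h2 ih1 ih2 =>
    intro y' t' h'
    cases h' with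
    | ite_leaf g1 g2 =>
      obtain ⟨_, rfl⟩ := ih1 g1
      obtain ⟨rfl, rfl⟩ := ih2 g2
      exact ⟨rfl, rfl⟩
    | ite_node g1 g2 => exact absurd (ih1 g1).1 (by simp)
  | ite_node h1 h2 ih1 ih2 =>
    intro y' t' h'
    cases h' with
    | ite_leaf g1 g2 => exact absurd (ih1 g1).1 (by simp)
    | ite_node g1 g2 =>
      obtain ⟨_, rfl⟩ := ih1 g1
      obtain ⟨rfl, rfl⟩ := ih2 g2
      exact ⟨rfl, rfl⟩
  | loop_stop h =>
    intro y' t' h'
    cases h' with
    | loop_stop g => exact ⟨rfl, rfl⟩
    | loop_step g _ _ => exact absurd h g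
  | loop_step h h1 h2 ih1 ih2 =>
    intro y' t' h'
    cases h' with
    | loop_stop g => exact absurd g h
    | loop_step g g1 g2 =>
      obtain ⟨rfl, rfl⟩ := ih1 g1
      obtain ⟨rfl, rfl⟩ := ih2 g2
      exact ⟨rfl, rfl⟩

theorem accepts_iff {c : Code} {κ : ℕ} {x y : T} {t : ℕ} (h : Eval c x y t)
    (ht : t ≤ (x.size + 2) ^ κ) : Accepts c κ x ↔ y ≠ T.leaf := by
  constructor
  · rintro ⟨y', t', h', _, hy'⟩
    obtain ⟨rfl, _⟩ := h.det h'
    exact hy'
  · intro hy
    exact ⟨y, t, h, ht, hy⟩

/-! ### Numerals -/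

theorem Tm.numeral_zero : Tm.numeral 0 = Tm.zero := by rw [Tm.numeral]; simp

theorem Tm.numeral_pos {n : ℕ} (h : n ≠ 0) : Tm.numeral n =
    if n % 2 = 0 then Tm.mul Tm.two (Tm.numeral (n / 2))
    else Tm.succ (Tm.mul Tm.two (Tm.numeral (n / 2))) := by
  conv_lhs => rw [Tm.numeral]
  simp [h]

theorem Tm.numeral_val (n : ℕ) (v : ℕ → ℕ) : (Tm.numeral n).val stdN v = n := by
  induction n using Nat.strong_induction_on with
  | _ n ih =>
    by_cases h : n = 0
    · subst h; rw [Tm.numeral_zero]; rfl
    · rw [Tm.numeral_pos h]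
      split_ifs with h2
      · show (0 + 1 + 1) * (Tm.numeral (n / 2)).val stdN v = n
        rw [ih (n / 2) (by omega)]; omega
      · show (0 + 1 + 1) * (Tm.numeral (n / 2)).val stdN v + 1 = n
        rw [ih (n / 2) (by omega)]; omega

theorem Good.numeral {M : Type} {A : Str M} (g : Good A) (n : ℕ) (v : ℕ → M) :
    (Tm.numeral n).val A v = A.nat n := by
  have hocc : ∀ n i, (Tm.numeral n).occurs i = false := by
    intro n
    induction n using Nat.strong_induction_on with
    | _ n ih =>
      intro i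
      by_cases h : n = 0
      · subst h; rw [Tm.numeral_zero]; rfl
      · rw [Tm.numeral_pos h]
        split_ifs with h2
        · simp [Tm.occurs, Tm.two, ih (n / 2) (by omega)]
        · simp [Tm.occurs, Tm.two, ih (n / 2) (by omega)]
  rw [Tm.val_congr_of_occurs A (Tm.numeral n) (w := fun i => A.nat ((fun _ => 0) i))
    (fun i hi => by rw [hocc] at hi; exact absurd hi (by simp)), g.val, Tm.numeral_val]

theorem numeral_size (n : ℕ) : (Tm.numeral n).enc.size ≤ 48 * n + 7 := by
  induction n using Nat.strong_induction_on with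
  | _ n ih =>
    by_cases h : n = 0
    · subst h; rw [Tm.numeral_zero]; simp [Tm.enc, T.size, T.unary]
    · rw [Tm.numeral_pos h]
      have := ih (n / 2) (by omega)
      split_ifs with h2
      · simp only [Tm.enc, Tm.two, T.size, T.size_unary]; omega
      · simp only [Tm.enc, Tm.two, T.size, T.size_unary]; omega

theorem T.two_len_lt_size (x : T) : 2 * x.len + 1 ≤ x.size := by
  induction x with
  | leaf => simp [T.size]
  | node l r _ ih => have := T.size_pos l; simp only [T.len_node, T.size]; omega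

theorem numeral_polyTime : PolyTime (fun x => (Tm.numeral x.len).enc) := by
  have i := PolyTime.id
  have hpar : PolyTime (fun w : T => T.unary (w.left.left.len - 2 * (w.left.left.len / 2))) :=
    (PolyNat.len i.left.left).sub ((PolyNat.const 2).mul (PolyNat.len i.left.left).div2)
  have key : PolyTime₂ (fun x _ => (Tm.numeral x.len).enc) := by
    refine PolyTime₂.binRec (F := fun x _ => (Tm.numeral x.len).enc)
      (l := fun x => T.unary (x.len / 2)) (r := fun _ => T.leaf)
      (pl := fun _ => T.leaf) (pr := fun _ => T.leaf) (base := fun _ => Tm.zero.enc)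
      (comb := fun w => if T.unary (w.left.left.len - 2 * (w.left.left.len / 2)) = T.leaf then
        T.node (T.unary 6) (T.node Tm.two.enc w.right.left)
        else T.node (T.unary 2) (T.node (T.node (T.unary 6) (T.node Tm.two.enc w.right.left))
          T.leaf))
      (PolyNat.len i).div2 PolyTime.leaf PolyTime.leaf PolyTime.leaf (PolyTime.const _) ?_
      (fun p => by rw [T.len_leaf, Tm.numeral_zero]) ?_ ?_ 1 ?_ ?_
      (G := fun n => 48 * n + 7) (((PolyB.const 48).mul PolyB.id).add (PolyB.const 7))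
      (fun a b h => by dsimp only; omega) ?_
    · exact PolyTime.ifEqs hpar ((PolyTime.const _).node ((PolyTime.const _).node i.right.left))
        ((PolyTime.const _).node (((PolyTime.const _).node ((PolyTime.const _).node
          i.right.left)).node PolyTime.leaf))
    · intro x p hx
      have hlen : x.len ≠ 0 := by cases x <;> simp_all
      simp only [T.left_node, T.right_node, T.len_unary]
      rw [Tm.numeral_pos hlen]
      by_cases h : x.len % 2 = 0
      · rw [if_pos h, if_pos (by rw [show x.len - 2 * (x.len / 2) = 0 by omega]; rfl)]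
        rfl
      · rw [if_neg h, if_neg]
        · rfl
        · rw [show x.len - 2 * (x.len / 2) = 1 by omega]; simp [T.unary]
    · intro x hx
      have hlen : x.len ≠ 0 := by cases x <;> simp_all
      have := T.two_len_lt_size x
      simp only [T.size_unary, T.size]; omega
    · intro x p; have := T.size_pos p; simp only [T.size]; omega
    · intro x p; have := T.size_pos p; simp only [T.size]; omega
    · intro x p
      have h1 := numeral_size x.len
      have h2 := T.len_lt_size x
      omega
  exact (PolyTime₂.comp key i PolyTime.leaf).congr fun _ => rfl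

theorem PolyNat.numeral {f : T → ℕ} (hf : PolyNat f) :
    PolyTime (fun x => (Tm.numeral (f x)).enc) :=
  (numeral_polyTime.comp hf).congr fun x => by rw [T.len_unary]

/-! ### Dependence on free variables -/

theorem Tm.val_congr_below {M : Type} (A : Str M) (t : Tm) {k : ℕ} (hk : t.fvBelow k)
    {v w : ℕ → M} (h : ∀ i, i < k → v i = w i) : t.val A v = t.val A w := by
  induction t with
  | var i => exact h i hk
  | zero => rfl
  | succ t ih => simp only [Tm.val]; rw [ih hk]
  | half t ih => simp only [Tm.val]; rw [ih hk]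
  | len t ih => simp only [Tm.val]; rw [ih hk]
  | add s t ih1 ih2 => simp only [Tm.val]; rw [ih1 hk.1, ih2 hk.2]
  | mul s t ih1 ih2 => simp only [Tm.val]; rw [ih1 hk.1, ih2 hk.2]
  | smash s t ih1 ih2 => simp only [Tm.val]; rw [ih1 hk.1, ih2 hk.2]

theorem Fm.sat_congr_below {M : Type} (A : Str M) (φ : Fm) : ∀ {k : ℕ} (_ : φ.fvBelow k)
    {v w : ℕ → M} (_ : ∀ i, i < k → v i = w i), φ.sat A v ↔ φ.sat A w := by
  induction φ with
  | bot => intro k _ v w _; rfl
  | eq s t =>
    intro k hk v w h
    simp only [Fm.sat]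
    rw [Tm.val_congr_below A s hk.1 h, Tm.val_congr_below A t hk.2 h]
  | le s t =>
    intro k hk v w h
    simp only [Fm.sat]
    rw [Tm.val_congr_below A s hk.1 h, Tm.val_congr_below A t hk.2 h]
  | imp φ ψ ih1 ih2 =>
    intro k hk v w h
    simp only [Fm.sat]
    rw [ih1 hk.1 h, ih2 hk.2 h]
  | all φ ih =>
    intro k hk v w h
    simp only [Fm.sat]
    refine forall_congr' fun a => ih hk fun i hi => ?_
    cases i with
    | zero => rfl
    | succ i => exact h i (by omega)

/-! ### The reflection sentences -/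

/-- The standard assignment of four values. -/
def vec4 (e x z u : ℕ) : ℕ → ℕ := scons e (scons x (scons z (scons u fun _ => 0)))

/-- The standard assignment of three values. -/
def vec3 (e x z : ℕ) : ℕ → ℕ := scons e (scons x (scons z fun _ => 0))

theorem inst3_sat (μ : Fm) (e x z : ℕ) (v : ℕ → ℕ) :
    (inst3 μ e x z).sat stdN v ↔ μ.sat stdN (scons e (scons x (scons z v))) := by
  simp only [inst3, Fm.sat_inst, Tm.numeral_val]

/-- A consistent theory in the class that proves `rfn P μ n` is right about it. -/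
theorem rfn_sound {Th : Set Fm} (hS : S12 ⊆ Th) (hc : Consistent Th) {P μ : Fm}
    (hP : P.bdd = true) (hμ : μ.bdd = true) {n : ℕ} (hp : Provable Th (rfn P μ n))
    {e x z u : ℕ} (he : e.size ≤ n) (hx : x.size ≤ n) (hz : z.size ≤ n) (hu : u.size ≤ n)
    (hPt : P.sat stdN (vec4 e x z u)) : μ.sat stdN (vec4 e x z u) := by
  obtain ⟨M, A, hA⟩ := hc
  obtain ⟨π, hπ⟩ := hp
  have g : Good A := good_of_models fun φ hφ v => hA φ (hS hφ) v
  have h1 := hπ.sound hA (fun _ => A.zero)
  have h2 := h1 (A.nat u) (A.nat z) (A.nat x) (A.nat e)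
  have henv : scons (A.nat e) (scons (A.nat x) (scons (A.nat z) (scons (A.nat u)
      fun _ => A.zero))) = fun i => A.nat (vec4 e x z u i) := by
    funext i
    rcases i with _ | _ | _ | _ | i <;> rfl
  simp only [Fm.sat, g.numeral, Tm.val] at h2
  rw [henv] at h2
  have h3 := h2 (by simp only [vec4, scons, g.len]; exact g.le_iff.2 he)
    (by simp only [vec4, scons, g.len]; exact g.le_iff.2 hx)
    (by simp only [vec4, scons, g.len]; exact g.le_iff.2 hz)
    (by simp only [vec4, scons, g.len]; exact g.le_iff.2 hu)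
  rw [g.sat_iff P hP, g.sat_iff μ hμ] at h3
  exact h3 hPt

/-- The universal formula has a false instance. -/
theorem IsUniversal.false_instance {μ : Fm} (hμ : IsUniversal μ) :
    ∃ e z : ℕ, ¬ μ.sat stdN (vec3 e 0 z) := by
  obtain ⟨e, p, _, π, hπ⟩ := hμ.2.2 Fm.bot rfl trivial
  let b : ℕ := (p.inst 0 (Tm.len (Tm.var 0))).val stdN (scons 0 (scons 0 fun _ => 0))
  -- the value of `p (|x|)` does not depend on `z`
  refine ⟨e, 2 ^ ((p.val stdN (fun _ => 0))), fun h => ?_⟩
  have h1 := hπ.sound stdN_models
    (scons 0 (scons (2 ^ (p.val stdN (fun _ => 0))) fun _ => 0))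
  simp only [Fm.sat, Fm.sat_iff, Fm.sat_inst, Tm.numeral_val] at h1
  have h2 : (p.inst 0 (Tm.len (Tm.var 0))).val stdN
      (scons 0 (scons (2 ^ (p.val stdN (fun _ => 0))) fun _ => 0)) =
      p.val stdN (fun _ => 0) := by
    have hpoly : p.isPoly := by assumption
    have : ∀ (q : Tm), q.isPoly → ∀ v w : ℕ → ℕ, v 0 = w 0 → q.val stdN v = q.val stdN w := by
      intro q hq v w hvw
      induction q with
      | var i => simp only [Tm.isPoly] at hq; subst hq; exact hvw
      | zero => rfl
      | succ t ih => simp only [Tm.val]; rw [ih hq]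
      | half t ih => simp [Tm.isPoly] at hq
      | len t ih => simp [Tm.isPoly] at hq
      | add s t ih1 ih2 => simp only [Tm.val]; rw [ih1 hq.1, ih2 hq.2]
      | mul s t ih1 ih2 => simp only [Tm.val]; rw [ih1 hq.1, ih2 hq.2]
      | smash s t ih1 ih2 => simp [Tm.isPoly] at hq
    rw [Tm.val_inst]
    apply this p hpoly
    simp [Tm.val, scons, stdN]
  have h3 := h1 (by
    rw [h2]
    simp only [Tm.val, scons, stdN, Nat.size_pow]
    omega)
  exact h3.2 h

/-! ### The size of Goedel numbers -/

theorem T.gn_size (x : T) : ∀ n : ℕ, n ≠ 0 → (T.gn x n).size = n.size + x.size ∧ T.gn x n ≠ 0 := by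
  induction x with
  | leaf =>
    intro n hn
    simp only [T.gn, T.size]
    exact ⟨Nat.size_two_mul' hn, by omega⟩
  | node l r ihl ihr =>
    intro n hn
    simp only [T.gn, T.size]
    obtain ⟨h1, h2⟩ := ihl (2 * n + 1) (by omega)
    obtain ⟨h3, h4⟩ := ihr (T.gn l (2 * n + 1)) h2
    rw [Nat.size_two_mul_add_one'] at h1
    exact ⟨by omega, h4⟩

theorem T.num_size (x : T) : x.num.size = x.size + 1 := by
  have := (T.gn_size x 1 (by omega)).1
  rw [Nat.size_one] at this
  rw [T.num, this]; omega

end Pool.Agent.H19
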