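import Pool.Agent.Lib_helper19.NPred

/-! # Truth of `Σ^b_1` formulas is in NP -/

namespace Pool.Agent.H19

open T

/-- The assignment coded by a tree. -/
def envOf (E : T) (i : ℕ) : ℕ := bn (T.right^[i] E).left

theorem envOf_node (a E : T) : envOf (T.node a E) = scons (bn a) (envOf E) := by
  funext i
  cases i with
  | zero => rfl
  | succ i => simp [envOf, scons, Function.iterate_succ_apply]

theorem right_iterate_polyTime (i : ℕ) : PolyTime (fun x => T.right^[i] x) := by
  induction i with
  | zero => exact PolyTime.id
  | succ i ih =>
    refine (PolyTime.right ih).congr fun x => ?_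
    rw [Function.iterate_succ_apply']

theorem envOf_polyN (i : ℕ) : PolyN (fun E => envOf E i) :=
  canon_polyTime.comp (right_iterate_polyTime i).left

theorem PolyN.valEnv (t : Tm) : PolyN (fun E => t.val stdN (envOf E)) :=
  PolyN.val t (V := fun i E => envOf E i) envOf_polyN

theorem Tm.val_guard {t : Tm} (ht : t.occurs 0 = false) (a : ℕ) (v : ℕ → ℕ) :
    t.val stdN (scons a v) = t.val stdN (scons 0 v) := by
  apply Tm.val_congr_of_occurs
  intro i hi
  cases i with
  | zero => rw [ht] at hi; exact absurd hi (by simp)
  | succ i => rfl

theorem Fm.sharp_elim {φ : Fm} (h : φ.sharp = true) :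
    ∃ t ψ, φ = Fm.imp (Fm.le (Tm.var 0) (Tm.len t)) ψ ∧ t.occurs 0 = false := by
  cases φ with
  | imp ψ χ =>
    cases ψ with
    | le s t =>
      cases s with
      | var i =>
        cases i with
        | zero =>
          cases t with
          | len t => exact ⟨t, χ, rfl, by simpa [Fm.sharp] using h⟩
          | _ => simp [Fm.sharp] at h
        | succ i => simp [Fm.sharp] at h
      | _ => simp [Fm.sharp] at h
    | _ => simp [Fm.sharp] at h
  | _ => simp [Fm.sharp] at h

/-- Truth of `Σ^b_1` formulas and falsity of `Π^b_1` formulas are in NP. -/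
theorem sat_npred (φ : Fm) : (φ.isSigma = true → NPred (fun E => φ.sat stdN (envOf E))) ∧
    (φ.isPi = true → NPred (fun E => ¬ φ.sat stdN (envOf E))) := by
  induction φ with
  | bot => exact ⟨fun _ => NPred.const False, fun _ => NPred.const (¬ False)⟩
  | eq s t =>
    have h : PolyDec (fun E => (Fm.eq s t).sat stdN (envOf E)) :=
      PolyDec.eqN (PolyN.valEnv s) (PolyN.valEnv t)
    exact ⟨fun _ => NPred.dec h, fun _ => NPred.dec h.not⟩
  | le s t =>
    have h : PolyDec (fun E => (Fm.le s t).sat stdN (envOf E)) :=
      PolyDec.leN (PolyN.valEnv s) (PolyN.valEnv t)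
    exact ⟨fun _ => NPred.dec h, fun _ => NPred.dec h.not⟩
  | imp φ ψ ih1 ih2 =>
    constructor
    · intro h
      simp only [Fm.isSigma, Bool.and_eq_true] at h
      refine ((ih1.2 h.1).or (ih2.1 h.2)).congr fun E => ?_
      simp only [Fm.sat]; tauto
    · intro h
      simp only [Fm.isPi, Bool.and_eq_true] at h
      refine ((ih1.1 h.1).and (ih2.2 h.2)).congr fun E => ?_
      simp only [Fm.sat]; tauto
  | all φ ih =>
    have i := PolyTime.id
    constructor
    · intro h
      simp only [Fm.isSigma, Bool.and_eq_true] at h
      obtain ⟨h1, h2⟩ := h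
      have ih' := ih.1 h2
      obtain ⟨t, ψ, rfl, ht⟩ := Fm.sharp_elim h1
      -- the bound, in unary
      have hb : PolyNat (fun E => (t.val stdN (scons 0 (envOf E))).size) := by
        refine PolyN.size ?_
        refine ((PolyN.valEnv t).comp (g := fun E => T.node T.leaf E)
          (PolyTime.leaf.node i)).congr fun E => ?_
        beta_reduce
        rw [envOf_node]; rfl
      have hq : NPred (fun z => (Fm.imp (Fm.le (Tm.var 0) (Tm.len t)) ψ).sat stdN
          (envOf (T.node (bl z.left.len) z.right))) :=
        ih'.comp (g := fun z => T.node (bl z.left.len) z.right)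
          ((PolyNat.len i.left).toN.node i.right)
      refine (NPred.allU hq hb).congr fun E => ?_
      simp only [T.left_node, T.right_node, T.len_unary, envOf_node, bn_bl]
      simp only [Fm.sat]
      constructor
      · intro h a ha
        have h3 : a ≤ (t.val stdN (scons 0 (envOf E))).size := by
          have : (Tm.len t).val stdN (scons a (envOf E)) =
              (t.val stdN (scons 0 (envOf E))).size := by
            rw [← Tm.val_guard ht a]; rfl
          rw [← this]; exact ha
        exact h a h3 ha
      · intro h a _
        exact h a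
    · intro h
      simp only [Fm.isPi, Bool.and_eq_true] at h
      obtain ⟨h1, h2⟩ := h
      have ih' := ih.2 h2
      obtain ⟨t, ψ, rfl, ht⟩ := Fm.guarded_elim h1
      have hb : PolyN (fun E => t.val stdN (scons 0 (envOf E))) := by
        refine ((PolyN.valEnv t).comp (g := fun E => T.node T.leaf E)
          (PolyTime.leaf.node i)).congr fun E => ?_
        beta_reduce
        rw [envOf_node]; rfl
      refine (ih'.exN hb).congr fun E => ?_
      simp only [envOf_node, bn_bl]
      simp only [Fm.sat]
      constructor
      · rintro ⟨a, _, h⟩ h'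
        exact h (h' a)
      · intro h
        push Not at h
        obtain ⟨a, ha, ha'⟩ := h
        refine ⟨a, ?_, fun h => ha' (h ha)⟩
        have : t.val stdN (scons a (envOf E)) = t.val stdN (scons 0 (envOf E)) :=
          Tm.val_guard ht a _
        rw [← this]; exact ha

end Pool.Agent.H19
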