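import Pool.Agent.Lib_helper19.Arith

/-! # Soundness of the calculus, and the standard model -/

namespace Pool.Agent.H19

theorem Tm.val_shift {M : Type} (A : Str M) (c d : ℕ) (t : Tm) (v : ℕ → M) :
    (t.shift c d).val A v = t.val A (fun i => if i < c then v i else v (i + d)) := by
  induction t with
  | var i => simp only [Tm.shift, Tm.val]; split_ifs <;> rfl
  | zero => rfl
  | succ t ih => simp only [Tm.shift, Tm.val, ih]
  | half t ih => simp only [Tm.shift, Tm.val, ih]
  | len t ih => simp only [Tm.shift, Tm.val, ih]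
  | add s t ih1 ih2 => simp only [Tm.shift, Tm.val, ih1, ih2]
  | mul s t ih1 ih2 => simp only [Tm.shift, Tm.val, ih1, ih2]
  | smash s t ih1 ih2 => simp only [Tm.shift, Tm.val, ih1, ih2]

theorem Tm.val_inst {M : Type} (A : Str M) (k : ℕ) (t s : Tm) (v : ℕ → M) :
    (s.inst k t).val A v = s.val A (fun i => if i < k then v i else
      if i = k then t.val A (fun j => v (j + k)) else v (i - 1)) := by
  induction s with
  | var i =>
    simp only [Tm.inst, Tm.val]
    split_ifs with h1 h2
    · rfl
    · rw [Tm.val_shift]; simp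
    · rfl
  | zero => rfl
  | succ t ih => simp only [Tm.inst, Tm.val, ih]
  | half t ih => simp only [Tm.inst, Tm.val, ih]
  | len t ih => simp only [Tm.inst, Tm.val, ih]
  | add s t ih1 ih2 => simp only [Tm.inst, Tm.val, ih1, ih2]
  | mul s t ih1 ih2 => simp only [Tm.inst, Tm.val, ih1, ih2]
  | smash s t ih1 ih2 => simp only [Tm.inst, Tm.val, ih1, ih2]

theorem Fm.sat_shift {M : Type} (A : Str M) (d : ℕ) (φ : Fm) : ∀ (c : ℕ) (v : ℕ → M),
    (φ.shift c d).sat A v ↔ φ.sat A (fun i => if i < c then v i else v (i + d)) := by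
  induction φ with
  | bot => intro c v; rfl
  | eq s t => intro c v; simp only [Fm.shift, Fm.sat, Tm.val_shift]
  | le s t => intro c v; simp only [Fm.shift, Fm.sat, Tm.val_shift]
  | imp φ ψ ih1 ih2 => intro c v; simp only [Fm.shift, Fm.sat, ih1, ih2]
  | all φ ih =>
    intro c v
    simp only [Fm.shift, Fm.sat, ih]
    refine forall_congr' fun a => ?_
    have : (fun i => if i < c + 1 then scons a v i else scons a v (i + d)) =
        scons a (fun i => if i < c then v i else v (i + d)) := by
      funext i
      cases i with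
      | zero => simp [scons]
      | succ i =>
        simp only [scons, Nat.add_lt_add_iff_right, show i + 1 + d = i + d + 1 by omega]
    rw [this]

theorem Fm.sat_inst_aux {M : Type} (A : Str M) (t : Tm) (φ : Fm) : ∀ (k : ℕ) (v : ℕ → M),
    (φ.inst k t).sat A v ↔ φ.sat A (fun i => if i < k then v i else
      if i = k then t.val A (fun j => v (j + k)) else v (i - 1)) := by
  induction φ with
  | bot => intro k v; rfl
  | eq s t => intro k v; simp only [Fm.inst, Fm.sat, Tm.val_inst]
  | le s t => intro k v; simp only [Fm.inst, Fm.sat, Tm.val_inst]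
  | imp φ ψ ih1 ih2 => intro k v; simp only [Fm.inst, Fm.sat, ih1, ih2]
  | all φ ih =>
    intro k v
    simp only [Fm.inst, Fm.sat, ih]
    refine forall_congr' fun a => ?_
    have : (fun i => if i < k + 1 then scons a v i else
        if i = k + 1 then t.val A (fun j => scons a v (j + (k + 1))) else scons a v (i - 1)) =
        scons a (fun i => if i < k then v i else
          if i = k then t.val A (fun j => v (j + k)) else v (i - 1)) := by
      funext i
      cases i with
      | zero => simp [scons]
      | succ i =>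
        by_cases h1 : i < k
        · simp [scons, h1]
        · by_cases h2 : i = k
          · subst h2
            simp only [lt_irrefl, if_false, if_true, scons]
            rfl
          · obtain ⟨j, rfl⟩ : ∃ j, i = j + 1 := ⟨i - 1, by omega⟩
            simp [scons, h1, h2]
    rw [this]

theorem Fm.sat_inst {M : Type} (A : Str M) (t : Tm) (φ : Fm) (v : ℕ → M) :
    (φ.inst 0 t).sat A v ↔ φ.sat A (scons (t.val A v) v) := by
  rw [Fm.sat_inst_aux]
  have : (fun i => if i < 0 then v i else
      if i = 0 then t.val A (fun j => v (j + 0)) else v (i - 1)) = scons (t.val A v) v := by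
    funext i
    cases i with
    | zero => simp [scons]
    | succ i => simp [scons]
  rw [this]

theorem Fm.sat_shift_one {M : Type} (A : Str M) (φ : Fm) (a : M) (v : ℕ → M) :
    (φ.shift 0 1).sat A (scons a v) ↔ φ.sat A v := by
  rw [Fm.sat_shift]
  have : (fun i => if i < 0 then scons a v i else scons a v (i + 1)) = v := by
    funext i; simp [scons]
  rw [this]

@[simp] theorem Fm.sat_neg {M : Type} (A : Str M) (φ : Fm) (v : ℕ → M) :
    (Fm.neg φ).sat A v ↔ ¬ φ.sat A v := Iff.rfl

@[simp] theorem Fm.sat_and {M : Type} (A : Str M) (φ ψ : Fm) (v : ℕ → M) :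
    (Fm.and φ ψ).sat A v ↔ φ.sat A v ∧ ψ.sat A v := by
  simp only [Fm.and, Fm.neg, Fm.sat]; tauto

@[simp] theorem Fm.sat_or {M : Type} (A : Str M) (φ ψ : Fm) (v : ℕ → M) :
    (Fm.or φ ψ).sat A v ↔ φ.sat A v ∨ ψ.sat A v := by
  simp only [Fm.or, Fm.neg, Fm.sat]; tauto

@[simp] theorem Fm.sat_iff {M : Type} (A : Str M) (φ ψ : Fm) (v : ℕ → M) :
    (Fm.iff φ ψ).sat A v ↔ (φ.sat A v ↔ ψ.sat A v) := by
  simp only [Fm.iff, Fm.sat_and, Fm.sat]; tauto

/-- **Soundness of the calculus.** -/
theorem Derives.sound {M : Type} {A : Str M} {Th : Set Fm} (hA : A.Models Th) (π : List Step) :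
    ∀ (prev : List Fm) (φ : Fm), (∀ ψ ∈ prev, ∀ v, ψ.sat A v) → Derives Th prev π φ →
      ∀ v, φ.sat A v := by
  induction π with
  | nil =>
    intro prev φ hp h v
    simp only [Derives] at h
    exact hp φ (List.mem_of_mem_head? (by rw [h]; rfl)) v
  | cons s π ih =>
    intro prev φ hp h v
    simp only [Derives] at h
    obtain ⟨h1, h2⟩ := h
    refine ih _ φ ?_ h2 v
    intro ψ hψ
    rcases List.mem_cons.1 hψ with rfl | hψ
    swap
    · exact hp ψ hψ
    intro w
    cases s with
    | hyp φ => exact hA φ h1 w
    | axK φ ψ => intro a _; exact a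
    | axS φ ψ χ => intro a b c; exact a c (b c)
    | dne φ => intro a; by_contra hc; exact a hc
    | allE φ t =>
      intro a
      rw [Fm.sat_inst]
      exact a _
    | allK φ ψ => intro a b c; exact a c (b c)
    | vac φ =>
      intro a c
      rw [Fm.sat_shift_one]; exact a
    | refl t => rfl
    | subst φ s t =>
      intro a b
      rw [Fm.sat_inst] at b ⊢
      have : s.val A w = t.val A w := a
      rwa [← this]
    | mp φ ψ => exact hp _ h1.1 w (hp _ h1.2 w)
    | gen φ => intro a; exact hp _ h1 _

theorem IsProof.sound {M : Type} {A : Str M} {Th : Set Fm} (hA : A.Models Th) {π : List Step}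
    {φ : Fm} (h : IsProof Th π φ) (v : ℕ → M) : φ.sat A v :=
  Derives.sound hA π [] φ (by simp) h v

/-! ### The standard model -/

theorem Nat.size_two_mul' {n : ℕ} (h : n ≠ 0) : (2 * n).size = n.size + 1 := by
  have := Nat.size_bit (b := false) (n := n) (by simpa [Nat.bit] using h)
  simpa [Nat.bit] using this

theorem Nat.size_two_mul_add_one' (n : ℕ) : (2 * n + 1).size = n.size + 1 := by
  have := Nat.size_bit (b := true) (n := n) (by simp [Nat.bit])
  simpa [Nat.bit] using this

theorem Nat.size_eq_size_half {n : ℕ} (h : n ≠ 0) : n.size = (n / 2).size + 1 := by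
  rcases Nat.mod_two_eq_zero_or_one n with h1 | h1
  · have h2 : n = 2 * (n / 2) := by omega
    conv_lhs => rw [h2]
    exact Nat.size_two_mul' (by omega)
  · have h2 : n = 2 * (n / 2) + 1 := by omega
    conv_lhs => rw [h2]
    exact Nat.size_two_mul_add_one' _

theorem stdN_basic : ∀ φ ∈ basicList, ∀ v, φ.sat stdN v := by
  intro φ hφ v
  have hpow : ∀ a : ℕ, Nat.size (2 ^ a) = a + 1 := fun a => Nat.size_pow
  simp only [basicList, List.mem_cons, List.not_mem_nil, or_false] at hφ
  have hone : Nat.size 1 = 1 := Nat.size_one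
  rcases hφ with rfl | rfl | rfl | rfl | rfl | rfl | rfl | rfl | rfl | rfl | rfl | rfl | rfl | rfl |
    rfl | rfl | rfl | rfl | rfl | rfl | rfl | rfl | rfl | rfl | rfl | rfl | rfl | rfl | rfl | rfl |
    rfl | rfl <;>
  simp only [Fm.sat_neg, Fm.sat_and, Fm.sat_or, Fm.sat_iff, Fm.sat, Tm.val, stdN, Tm.two,
    Nat.size_zero, zero_add, zero_mul, pow_zero, mul_zero, add_zero, ne_eq, one_mul,
    one_add_one_eq_two, hone]
  · intro h; omega
  · omega
  · omega
  · omega
  · intro h; omega
  · omega
  · intro h; omega
  · intro h; omega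
  · intro h
    exact ⟨Nat.size_two_mul' h, Nat.size_two_mul_add_one' _⟩
  · intro h; exact Nat.size_le_size h
  · exact hpow _
  · intro h
    rw [Nat.size_two_mul' h, Nat.size_two_mul_add_one']
    constructor <;> ring
  · rw [mul_comm]
  · intro h; rw [h]
  · intro h; rw [h, add_mul, pow_add]
  · omega
  · intro h; omega
  · omega
  · omega
  · omega
  · omega
  · ring
  · exact mul_comm _ _
  · ring
  · intro h
    exact Nat.mul_le_mul_left_iff (by omega)
  · intro h; exact Nat.size_eq_size_half h
  · omega

theorem stdN_pind (φ : Fm) (v : ℕ → ℕ) : (pind φ).sat stdN v := by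
  intro h1 h2 a
  simp only [Fm.sat, Tm.val, stdN] at h1 h2
  have key : ∀ n : ℕ, φ.sat stdN (scons n v) := by
    intro n
    induction n using Nat.strong_induction_on with
    | _ n ih =>
      by_cases hn : n = 0
      · exact h1 n (by simpa [scons] using hn)
      · have h3 := h2 n (n / 2) (by simp [scons])
        rw [Fm.sat_shift_one] at h3
        refine h3 ?_
        rw [Fm.sat_shift]
        have : (fun i => if i < 1 then scons (n / 2) (scons n v) i else
            scons (n / 2) (scons n v) (i + 1)) = scons (n / 2) v := by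
          funext i
          cases i with
          | zero => simp [scons]
          | succ i => simp [scons]
        rw [this]
        exact ih (n / 2) (by omega)
  exact key a

theorem stdN_models : stdN.Models S12 := by
  intro φ hφ v
  rcases hφ with hφ | ⟨ψ, _, rfl⟩
  · exact stdN_basic φ hφ v
  · exact stdN_pind ψ v

end Pool.Agent.H19
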