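import Pool.Agent.Lib_helper19.Collapse

/-!
# Polynomially long proofs of all reflection sentences, from a weaker hypothesis than `NP = coNP`

For every universal `Σ^b_1` formula `μ` there is a set `A` of numbers of the form `2 ^ 2 ^ m`,
written in unary, which is in `Π^p_2`, such that if `A` is in NP then some theory `S` of the
class has, for every theory `T` of the class, proofs of polynomial length of the reflection
sentences of `T`.
-/

namespace Pool.Agent.H19.ShortProofsResult

open Pool.Agent.H19

theorem result (μ : Fm) (hμ : IsUniversal μ) :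
    ∃ A : Set T, InPi2 A ∧ SuperTally A ∧
      (InNP A → ∀ P : Code → ℕ → Fm, IsFormalisation μ P →
        ∃ S : Set Fm, InClassT S ∧ ∀ (c : Code) (κ : ℕ), HaltsWithin c κ →
          InClassT (theory c κ) → ∃ k : ℕ, ∀ n : ℕ, ∃ π : List Step,
            IsProof S π (rfn (P c κ) μ n) ∧ (encProof π).size ≤ (n + 2) ^ k) :=
  ⟨AA μ, AA_inPi2 hμ.1, AA_superTally μ, fun h _ hP => short_proofs hμ hP h⟩

end Pool.Agent.H19.ShortProofsResult
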