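import Pool.Agent.Lib_helper48.SlowAdvice

/-!
# With one bit of advice per length, from arbitrarily slowly growing advice, Q1 fails

There is a fixed infinite binary sequence `b` such that, for every universal `Σ^b_1` formula `μ`,
every formalisation `P` of proofs and every `α : ℕ → ℕ` tending to infinity, however slowly, and
computable in polynomial time, there is a consistent theory `S` containing `S^1_2` with the
following properties. Membership of a formula of size `n` in `S` is decided in polynomial time
with the help of one bit `b (i n)`, where `i` is computable in polynomial time and `i n ≤ α n`.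
For every theory `T` of the class, given by a program which halts within its clock, `S`-proofs of
the reflection sentences of `T` are computed (without advice) in polynomial time.
-/

namespace Pool.Agent.H19.SlowAdviceResult

open Pool.Agent.H19

theorem result : ∃ b : ℕ → Bool, ∀ μ : Fm, IsUniversal μ →
    ∀ P : Code → ℕ → Fm, IsFormalisation μ P →
    ∀ α : ℕ → ℕ, PolyTime (fun x => T.unary (α x.len)) →
      Filter.Tendsto α Filter.atTop Filter.atTop →
    ∃ (i : ℕ → ℕ) (S : Set Fm),
      PolyTime (fun x => T.unary (i x.len)) ∧ (∀ n, i n ≤ α n) ∧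
      S12 ⊆ S ∧ Consistent S ∧
      (∃ f : T → T, PolyTime f ∧ ∀ φ : Fm, φ ∈ S ↔
        f (T.node φ.enc (if b (i φ.enc.size) then T.node T.leaf T.leaf else T.leaf)) ≠ T.leaf) ∧
      ∀ (c : Code) (κ : ℕ), HaltsWithin c κ → InClassT (theory c κ) →
        ∃ f : T → T, PolyTime f ∧ ∀ n : ℕ, ∃ π : List Step,
          f (T.unary n) = encProof π ∧ IsProof S π (rfn (P c κ) μ n) := by
  refine ⟨advB, fun μ hμ P hP α hαp hα => ?_⟩
  obtain ⟨i, S, hi, hiα, hS, hcons, ⟨f, hf, hfS⟩, hall⟩ := slow_advice hμ hP hαp hα
  refine ⟨i, S, hi, hiα, hS, hcons, ⟨f, hf, fun φ => ?_⟩, hall⟩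
  rw [hfS]
  cases advB (i φ.enc.size) <;> simp [ofBool]

end Pool.Agent.H19.SlowAdviceResult
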