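import Pool.Agent.Lib_helper19.CheckP

/-! # Super-tally sets: indices and their decoding -/

namespace Pool.Agent.H19

open T

/-! ### Trees coded by numbers -/

/-- Split a list of binary digits at the first digit `1`. -/
def sp : T → T
  | T.leaf => T.leaf
  | T.node T.leaf t => tif (sp t) T.leaf (T.node (T.node T.leaf (sp t).left) (sp t).right)
  | T.node (T.node _ _) t => T.node T.leaf t

theorem sp_size (x : T) :
    (sp x ≠ T.leaf → 2 * (sp x).left.len + (sp x).right.size + 4 ≤ x.size) ∧
    (sp x).left = T.unary (sp x).left.len ∧ (sp x).size ≤ x.size := by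
  induction x with
  | leaf => simp [sp, T.unary]
  | node a t _ ih =>
    obtain ⟨h2, h3, h4⟩ := ih
    cases a with
    | leaf =>
      by_cases h : sp t = T.leaf
      · simp [sp, h, T.size, T.unary]
      · have h5 := h2 h
        have h6 : (sp t).size = (sp t).left.size + (sp t).right.size + 1 := by
          conv_lhs => rw [T.eq_node h]
          rfl
        simp only [sp, tif, if_neg h, T.left_node, T.right_node, T.size, T.len_node, T.unary]
        refine ⟨fun _ => by omega, ?_, by omega⟩
        rw [← h3]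
    | node b c =>
      have := T.size_pos b
      have := T.size_pos c
      simp only [sp, T.left_node, T.right_node, T.size, T.len_leaf, T.unary, true_and]
      refine ⟨fun _ => by omega, by omega⟩

theorem sp_polyTime : PolyTime sp := by
  have i := PolyTime.id
  refine PolyTime₂.binRec₁ (F := sp) (c := T.leaf)
    (comb := fun w => tif w.left.left (tif w.right.right T.leaf
      (T.node (T.node T.leaf w.right.right.left) w.right.right.right)) (T.node T.leaf w.left.right))
    (i.left.left.tif (i.right.right.tif PolyTime.leaf ((PolyTime.leaf.node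
      i.right.right.left).node i.right.right.right)) (PolyTime.leaf.node i.left.right)) rfl ?_
    (G := fun n => n) PolyB.id (fun _ _ h => h) (fun x => (sp_size x).2.2)
  intro a b
  cases a with
  | leaf => simp [sp]
  | node _ _ => simp [sp]

theorem sp_bl (i j : ℕ) : sp (bl (2 ^ i * (2 * j + 1))) = T.node (T.unary i) (bl j) := by
  induction i with
  | zero =>
    rw [pow_zero, one_mul, bl_pos (by omega), show (2 * j + 1) / 2 = j by omega]
    have : bit (2 * j + 1) = T.node T.leaf T.leaf := by
      simp only [bit]; rw [if_neg (by omega)]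
    rw [this]; rfl
  | succ i ih =>
    have h1 : 2 ^ (i + 1) * (2 * j + 1) = 2 * (2 ^ i * (2 * j + 1)) := by ring
    have h2 : 2 ^ i * (2 * j + 1) ≠ 0 := by positivity
    rw [h1, bl_pos (by omega), show 2 * (2 ^ i * (2 * j + 1)) / 2 = 2 ^ i * (2 * j + 1) by omega]
    have : bit (2 * (2 ^ i * (2 * j + 1))) = T.leaf := by
      simp only [bit]; rw [if_pos (by omega)]
    rw [this, sp, ih]
    simp [T.unary]

theorem bl_size' (i : ℕ) : (bl i).size ≤ 2 * i + 3 := by
  induction i using Nat.strong_induction_on with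
  | _ i ih =>
    by_cases h : i = 0
    · subst h; simp [T.size]
    · have h1 := ih (i / 2) (by omega)
      rw [bl_pos h, T.size]
      by_cases h2 : i % 2 = 0
      · have : bit i = T.leaf := by simp [bit, h2]
        rw [this]; simp only [T.size]; omega
      · have : bit i = T.node T.leaf T.leaf := by simp [bit, h2]
        rw [this]; simp only [T.size]
        by_cases h3 : i = 1
        · subst h3; simp [T.size]
        · omega

theorem sp_rec_size {x : T} (hx : x ≠ T.leaf) :
    (bl (sp x).left.len).size + (sp x).right.size < x.size := by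
  have h1 := bl_size' (sp x).left.len
  by_cases h : sp x = T.leaf
  · rw [h]
    have := T.eq_node hx
    rw [this]
    have := T.size_pos x.left
    have := T.size_pos x.right
    simp only [T.left_leaf, T.right_leaf, T.len_leaf, bl_zero, T.size]; omega
  · have h2 := (sp_size x).1 h
    omega

/-- The tree coded by a list of binary digits. -/
def treeOf (x : T) : T :=
  if h : x = T.leaf then T.leaf
  else if sp x = T.leaf then T.leaf
  else T.node (treeOf (bl (sp x).left.len)) (treeOf (sp x).right)
termination_by x.size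
decreasing_by
  · have := sp_rec_size h
    omega
  · have := sp_rec_size h
    omega

theorem treeOf_size (x : T) : (treeOf x).size ≤ x.size := by
  induction x using treeOf.induct with
  | case1 => rw [treeOf]; simp [T.size]
  | case2 x h h' => rw [treeOf, dif_neg h, if_pos h']; exact T.size_pos x
  | case3 x h h' ih1 ih2 =>
    rw [treeOf, dif_neg h, if_neg h', T.size]
    have := sp_rec_size h
    omega

theorem treeOf_polyTime : PolyTime treeOf := by
  have i := PolyTime.id
  have key : PolyTime₂ (fun x _ => treeOf x) := by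
    refine PolyTime₂.binRec (F := fun x _ => treeOf x) (l := fun x => bl (sp x).left.len)
      (r := fun x => (sp x).right)
      (pl := fun _ => T.leaf) (pr := fun _ => T.leaf) (base := fun _ => T.leaf)
      (comb := fun w => tif (sp w.left.left) T.leaf w.right)
      (PolyNat.len sp_polyTime.left).toN sp_polyTime.right PolyTime.leaf PolyTime.leaf
      PolyTime.leaf ((sp_polyTime.comp i.left.left).tif PolyTime.leaf i.right)
      (fun p => by rw [treeOf]; simp) ?_ (fun x hx => sp_rec_size hx) 1 ?_ ?_
      (G := fun n => n) PolyB.id (fun a b h => h) (fun x p => (treeOf_size x).trans (by omega))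
    · intro x p hx
      rw [treeOf, dif_neg hx]
      simp only [T.left_node, T.right_node, tif]
    · intro x p; have := T.size_pos p; simp only [T.size]; omega
    · intro x p; have := T.size_pos p; simp only [T.size]; omega
  exact (PolyTime₂.comp key i PolyTime.leaf).congr fun _ => rfl

/-- The number that codes a tree. -/
def tc : T → ℕ
  | T.leaf => 0
  | T.node l r => 2 ^ tc l * (2 * tc r + 1)

theorem treeOf_tc (q : T) : treeOf (bl (tc q)) = q := by
  induction q with
  | leaf => rw [tc, bl_zero, treeOf]; simp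
  | node l r ihl ihr =>
    have h1 : 2 ^ tc l * (2 * tc r + 1) ≠ 0 := by positivity
    rw [tc, treeOf, sp_bl]
    have h2 : bl (2 ^ tc l * (2 * tc r + 1)) ≠ T.leaf := by rw [bl_pos h1]; simp
    rw [dif_neg h2, if_neg (by simp), T.left_node, T.right_node, T.len_unary, ihl, ihr]

theorem le_tc_unary (n : ℕ) : n ≤ tc (T.unary n) := by
  induction n with
  | zero => simp
  | succ n ih => simp only [T.unary, tc, pow_zero, one_mul]; omega

theorem le_tc_node (a : T) (n : ℕ) : n ≤ tc (T.node a (T.unary n)) := by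
  have h1 := le_tc_unary n
  have h2 : 1 ≤ 2 ^ tc a := Nat.one_le_two_pow
  rw [tc]
  nlinarith

/-! ### Towers -/

/-- The binary logarithm of the length. -/
def lg (x : T) : ℕ := x.len.size - 1

/-- The iterated binary logarithm of the length. -/
def lglg (x : T) : ℕ := (lg x).size - 1

theorem lg_polyNat : PolyNat lg :=
  (PolyN.size (PolyNat.len PolyTime.id).toN).sub (PolyNat.const 1)

theorem lglg_polyNat : PolyNat lglg :=
  (PolyN.size lg_polyNat.toN).sub (PolyNat.const 1)

theorem lg_tower (m : ℕ) : lg (T.unary (2 ^ (2 ^ m))) = 2 ^ m := by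
  simp [lg, Nat.size_pow]

theorem lglg_tower (m : ℕ) : lglg (T.unary (2 ^ (2 ^ m))) = m := by
  simp [lglg, lg_tower, Nat.size_pow]

/-- The trees `1 ^ (2 ^ (2 ^ m))`. -/
def Tower (x : T) : Prop := ∃ m, x = T.unary (2 ^ (2 ^ m))

theorem tower_polyDec : PolyDec Tower := by
  have i := PolyTime.id
  refine ((PolyDec.eq i (PolyNat.len i).unary).and
    ((PolyDec.eqN (PolyNat.len i).toN (PolyN.pow2 lg_polyNat)).and
      (PolyDec.eqN lg_polyNat.toN (PolyN.pow2 lglg_polyNat)))).congr fun x => ?_
  constructor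
  · rintro ⟨h1, h2, h3⟩
    refine ⟨lglg x, ?_⟩
    rw [← h3, ← h2]; exact h1
  · rintro ⟨m, rfl⟩
    rw [lg_tower, lglg_tower, T.len_unary]
    exact ⟨rfl, rfl, rfl⟩

/-- The number attached to an index. -/
def aOf (x : T) : ℕ := (sp (bl (lglg x + 1))).left.len

/-- The tree attached to an index. -/
def qOf (x : T) : T := treeOf (bl (aOf x))

/-- The exponent of the bound attached to an index. -/
def lOf (x : T) : ℕ := lg x / 2 ^ aOf x

theorem aOf_polyNat : PolyNat aOf :=
  PolyNat.len (sp_polyTime.comp ((lglg_polyNat.add (PolyNat.const 1)).toN)).left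

theorem qOf_polyTime : PolyTime qOf := treeOf_polyTime.comp aOf_polyNat.toN

theorem lOf_polyNat : PolyNat lOf := by
  have i := PolyTime.id
  have hf : PolyTime (fun s : T => T.unary (s.len / 2)) := (PolyNat.len i).div2
  have hit : ∀ (j n : ℕ), (fun s : T => T.unary (s.len / 2))^[j] (T.unary n) =
      T.unary (n / 2 ^ j) := by
    intro j n
    induction j with
    | zero => simp
    | succ j ih =>
      rw [Function.iterate_succ_apply', ih, T.len_unary, Nat.div_div_eq_div_mul, pow_succ]
  have := PolyTime.iterate (n := fun x => T.unary (aOf x)) (s := fun x => T.unary (lg x)) hf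
    aOf_polyNat lg_polyNat (by
      obtain ⟨k, hk⟩ := PolyTime.size_bound lg_polyNat
      refine ⟨k, fun x j _ => le_trans ?_ (hk x)⟩
      rw [hit, T.size_unary, T.size_unary]
      have := Nat.div_le_self (lg x) (2 ^ j)
      omega)
  exact this.congr fun x => by rw [T.len_unary, hit]; rfl

theorem aOf_tower {a b m : ℕ} (h : m + 1 = 2 ^ a * (2 * b + 1)) :
    aOf (T.unary (2 ^ (2 ^ m))) = a := by
  rw [aOf, lglg_tower, h, sp_bl, T.left_node, T.len_unary]

theorem PolyNat.divPow {f : T → ℕ} (hf : PolyNat f) (j : ℕ) :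
    PolyNat (fun x => f x / 2 ^ j) := by
  induction j with
  | zero => exact hf.congr fun x => by simp
  | succ j ih =>
    refine ih.div2.congr fun x => ?_
    beta_reduce
    rw [Nat.div_div_eq_div_mul, pow_succ]

theorem PolyNat.tower {m : T → ℕ} (hm : PolyNat m)
    (hb : ∃ k, ∀ x, 2 ^ (2 ^ m x) ≤ (x.size + 2) ^ k) :
    PolyNat (fun x => 2 ^ (2 ^ m x)) := by
  have i := PolyTime.id
  have hf : PolyTime (fun s : T => T.unary (s.len * s.len)) :=
    (PolyNat.len i).mul (PolyNat.len i)
  have hit : ∀ j : ℕ, (fun s : T => T.unary (s.len * s.len))^[j] (T.unary 2) =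
      T.unary (2 ^ (2 ^ j)) := by
    intro j
    induction j with
    | zero => rfl
    | succ j ih =>
      rw [Function.iterate_succ_apply', ih, T.len_unary, ← pow_add]
      congr 2; ring
  obtain ⟨k, hk⟩ := hb
  obtain ⟨k', hk'⟩ : PolyB (fun n => 2 * (n + 2) ^ k + 1) :=
    ((PolyB.const 2).mul ⟨k, fun _ => le_rfl⟩).add (PolyB.const 1)
  have := PolyTime.iterate (n := fun x => T.unary (m x)) (s := fun _ => T.unary 2) hf hm
    (PolyTime.const _) (by
      refine ⟨k', fun x j hj => le_trans ?_ (hk' x.size)⟩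
      rw [T.len_unary] at hj
      rw [hit, T.size_unary]
      have h1 : 2 ^ (2 ^ j) ≤ 2 ^ (2 ^ m x) :=
        Nat.pow_le_pow_right (by omega) (Nat.pow_le_pow_right (by omega) hj)
      have := hk x
      beta_reduce
      omega)
  exact this.congr fun x => by rw [T.len_unary, hit]

/-- The index chosen for the tree with code number `a` and the bound `s`. -/
def mIdx (a s : ℕ) : ℕ := 2 ^ (a + 1) * ((s.size.size + a) / 2 ^ (a + 1) + 1) + 2 ^ a - 1

theorem mIdx_succ (a s : ℕ) :
    mIdx a s + 1 = 2 ^ a * (2 * ((s.size.size + a) / 2 ^ (a + 1) + 1) + 1) := by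
  have h : 1 ≤ 2 ^ a := Nat.one_le_two_pow
  rw [mIdx, Nat.sub_add_cancel (by omega)]
  ring

theorem le_mIdx (a s : ℕ) : s.size.size + a ≤ mIdx a s := by
  have h : 1 ≤ 2 ^ a := Nat.one_le_two_pow
  have h1 : s.size.size + a < 2 ^ (a + 1) * ((s.size.size + a) / 2 ^ (a + 1) + 1) := by
    have := Nat.lt_mul_div_succ (s.size.size + a) (show 0 < 2 ^ (a + 1) by positivity)
    exact this
  rw [mIdx]
  generalize 2 ^ (a + 1) * ((s.size.size + a) / 2 ^ (a + 1) + 1) = X at h1 ⊢
  omega

theorem mIdx_le (a s : ℕ) : mIdx a s ≤ s.size.size + (a + 2 ^ (a + 1) + 2 ^ a) := by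
  have h1 := Nat.mul_div_le (s.size.size + a) (2 ^ (a + 1))
  have h2 : 2 ^ (a + 1) * ((s.size.size + a) / 2 ^ (a + 1) + 1) =
    2 ^ (a + 1) * ((s.size.size + a) / 2 ^ (a + 1)) + 2 ^ (a + 1) := by ring
  rw [mIdx, h2]
  generalize 2 ^ (a + 1) * ((s.size.size + a) / 2 ^ (a + 1)) = X at h1 ⊢
  generalize 2 ^ (a + 1) = Y
  generalize 2 ^ a = Z
  omega

/-- The bound attached to the chosen index is large enough. -/
theorem le_pow_mIdx (a s : ℕ) : s < 2 ^ (2 ^ mIdx a s / 2 ^ a) := by
  have h1 := le_mIdx a s
  have h2 : 2 ^ mIdx a s / 2 ^ a = 2 ^ (mIdx a s - a) := Nat.pow_div (by omega) (by omega)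
  rw [h2]
  have h3 : s < 2 ^ s.size := Nat.lt_size_self s
  have h4 : s.size < 2 ^ s.size.size := Nat.lt_size_self _
  have h5 : 2 ^ s.size.size ≤ 2 ^ (mIdx a s - a) := Nat.pow_le_pow_right (by omega) (by omega)
  exact h3.trans_le (Nat.pow_le_pow_right (by omega) (by omega))

theorem two_pow_size_le (t : ℕ) : 2 ^ t.size ≤ 2 * t + 1 := by
  by_cases h : t = 0
  · subst h; simp
  · have h0 := Nat.size_pos.2 (Nat.pos_of_ne_zero h)
    have h4 : ¬ t.size ≤ t.size - 1 := by omega
    rw [Nat.size_le, not_lt] at h4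
    have h5 : 2 ^ t.size = 2 * 2 ^ (t.size - 1) := by
      rw [← pow_succ']; congr 1; omega
    omega

/-- The chosen index is polynomially bounded. -/
theorem tower_mIdx_le (a s : ℕ) : 2 ^ (2 ^ mIdx a s) ≤
    (4 * s + 2) ^ (2 ^ (a + 2 ^ (a + 1) + 2 ^ a + 1)) := by
  have h1 := mIdx_le a s
  have h3 := two_pow_size_le s
  have h4 := two_pow_size_le s.size
  have h5 : 2 ^ mIdx a s ≤ 2 ^ (a + 2 ^ (a + 1) + 2 ^ a + 1) * (s.size + 1) := by
    calc 2 ^ mIdx a s ≤ 2 ^ (s.size.size + (a + 2 ^ (a + 1) + 2 ^ a)) :=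
          Nat.pow_le_pow_right (by omega) h1
      _ = 2 ^ (a + 2 ^ (a + 1) + 2 ^ a) * 2 ^ s.size.size := by rw [pow_add, mul_comm]
      _ ≤ 2 ^ (a + 2 ^ (a + 1) + 2 ^ a) * (2 * (s.size + 1)) :=
          Nat.mul_le_mul_left _ (by omega)
      _ = _ := by ring
  calc 2 ^ (2 ^ mIdx a s) ≤ 2 ^ (2 ^ (a + 2 ^ (a + 1) + 2 ^ a + 1) * (s.size + 1)) :=
        Nat.pow_le_pow_right (by omega) h5
    _ = (2 ^ (s.size + 1)) ^ (2 ^ (a + 2 ^ (a + 1) + 2 ^ a + 1)) := by
        rw [← pow_mul]; congr 1; ring
    _ ≤ _ := Nat.pow_le_pow_left (by rw [pow_succ]; omega) _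

end Pool.Agent.H19
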