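import Pool.Agent.Lib_helper19.PolyLib
import Pool.Agent.Lib_helper19.Arith

/-! # A universal program with a clock -/

namespace Pool.Agent.H19

open T

theorem PolyTime.ifEq {f g a b : T → T} (hf : PolyTime f) (hg : PolyTime g) (ha : PolyTime a)
    (hb : PolyTime b) : PolyTime (fun x => if f x = g x then a x else b x) := by
  refine (PolyTime.ifP (PolyDec.eq hf hg) ha hb).congr fun x => ?_
  by_cases h : f x = g x <;> simp [h]

theorem PolyNat.sub {f g : T → ℕ} (hf : PolyNat f) (hg : PolyNat g) :
    PolyNat (fun x => f x - g x) := by
  have hit : ∀ m n, T.right^[m] (T.unary n) = T.unary (n - m) := by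
    intro m
    induction m with
    | zero => intro n; rfl
    | succ m ih =>
      intro n
      rw [Function.iterate_succ_apply', ih]
      rcases Nat.eq_zero_or_pos (n - m) with h | h
      · rw [h, show n - (m + 1) = 0 by omega]; rfl
      · obtain ⟨j, hj⟩ : ∃ j, n - m = j + 1 := ⟨n - m - 1, by omega⟩
        rw [hj, show n - (m + 1) = j by omega]; rfl
  have := PolyTime.iterate (f := T.right) (n := fun x => T.unary (g x))
    (s := fun x => T.unary (f x)) PolyTime.right' hg hf (by
      obtain ⟨k, hk⟩ := PolyTime.size_bound hf
      refine ⟨k, fun x j _ => ?_⟩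
      have h1 := hk x
      rw [hit]
      simp only [T.size_unary] at h1 ⊢
      omega)
  exact this.congr fun x => by rw [T.len_unary, hit]

theorem PolyDec.le {f g : T → ℕ} (hf : PolyNat f) (hg : PolyNat g) :
    PolyDec (fun x => f x ≤ g x) := by
  refine (PolyDec.eq_leaf (hf.sub hg)).congr fun x => ?_
  constructor
  · intro h
    have : (T.unary (f x - g x)).len = 0 := by rw [h]; rfl
    rw [T.len_unary] at this; omega
  · intro h
    beta_reduce
    rw [show f x - g x = 0 by omega]; rfl

theorem PolyNat.ifP {P : T → Prop} [DecidablePred P] (hP : PolyDec P) {f g : T → ℕ}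
    (hf : PolyNat f) (hg : PolyNat g) : PolyNat (fun x => if P x then f x else g x) := by
  refine (PolyTime.ifP hP hf hg).congr fun x => ?_
  by_cases h : P x <;> simp [h]

/-- The instruction to run a program. -/
def iRun (c : T) : T := T.node (T.unary 0) c

/-- One step of the universal machine; a state is a pair of a control list and a value list. -/
def uStep (s : T) : T :=
  let K := s.left.right
  let i := s.left.left
  let V := s.right
  let W := V.right
  let cur := V.left
  let c := i.right
  let args := i.right.right
  if i.left = T.unary 1 then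
    T.node (T.node (iRun c) (T.node (T.node (T.unary 2) T.leaf) K))
      (T.node W.left (T.node cur W.right))
  else if i.left = T.unary 2 then T.node K (T.node (T.node W.left cur) W.right)
  else if i.left = T.unary 3 then
    T.node (T.node (iRun (tif cur c.left c.right)) K) W
  else if c.left = T.unary 1 then T.node K (T.node T.leaf W)
  else if c.left = T.unary 2 then T.node K (T.node cur.left W)
  else if c.left = T.unary 3 then T.node K (T.node cur.right W)
  else if c.left = T.unary 4 then
    T.node (T.node (iRun args.left) (T.node (T.node (T.unary 1) args.right) K)) (T.node cur V)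
  else if c.left = T.unary 5 then
    T.node (T.node (iRun args.right) (T.node (iRun args.left) K)) V
  else if c.left = T.unary 6 then
    T.node (T.node (iRun args.left) (T.node (T.node (T.unary 3) args.right) K)) (T.node cur V)
  else if c.left = T.unary 7 then
    tif cur.left (T.node K (T.node cur.right W))
      (T.node (T.node (iRun args) (T.node i K)) V)
  else T.node K V

theorem uStep_polyTime : PolyTime uStep := by
  have i := PolyTime.id
  have u : ∀ n : ℕ, PolyTime (fun _ => T.unary n) := fun n => PolyTime.const _
  have L := PolyTime.leaf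
  have ins := i.left.left
  have K := i.left.right
  have V := i.right
  have W := i.right.right
  have cur := i.right.left
  have c := i.left.left.right
  have args := i.left.left.right.right
  have run : ∀ {f : T → T}, PolyTime f → PolyTime (fun x => iRun (f x)) := fun hf => (u 0).node hf
  exact PolyTime.ifEq ins.left (u 1)
      (((run c).node (((u 2).node L).node K)).node (W.left.node (cur.node W.right)))
    (PolyTime.ifEq ins.left (u 2) (K.node ((W.left.node cur).node W.right))
    (PolyTime.ifEq ins.left (u 3) (((run (cur.tif c.left c.right)).node K).node W)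
    (PolyTime.ifEq c.left (u 1) (K.node (L.node W))
    (PolyTime.ifEq c.left (u 2) (K.node (cur.left.node W))
    (PolyTime.ifEq c.left (u 3) (K.node (cur.right.node W))
    (PolyTime.ifEq c.left (u 4)
      (((run args.left).node (((u 1).node args.right).node K)).node (cur.node V))
    (PolyTime.ifEq c.left (u 5) (((run args.right).node ((run args.left).node K)).node V)
    (PolyTime.ifEq c.left (u 6)
      (((run args.left).node (((u 3).node args.right).node K)).node (cur.node V))
    (PolyTime.ifEq c.left (u 7)
      (cur.left.tif (K.node (cur.right.node W)) (((run args).node (ins.node K)).node V))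
      (K.node V))))))))))

/-- Runs of the universal machine with states of size at most `B`. -/
def URun (B : ℕ) (s : T) (n : ℕ) (s' : T) : Prop :=
  uStep^[n] s = s' ∧ ∀ i, i ≤ n → (uStep^[i] s).size ≤ B

theorem URun.refl {B : ℕ} {s : T} (h : s.size ≤ B) : URun B s 0 s :=
  ⟨rfl, fun i hi => by
    obtain rfl : i = 0 := by omega
    simpa using h⟩

theorem URun.step {B : ℕ} {s : T} {n : ℕ} {s' : T}
    (h2 : s.size ≤ B) (h : URun B (uStep s) n s') : URun B s (n + 1) s' := by
  obtain ⟨ha, hc⟩ := h
  refine ⟨by rw [Function.iterate_succ_apply]; exact ha, fun i hi => ?_⟩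
  cases i with
  | zero => simpa using h2
  | succ i => rw [Function.iterate_succ_apply]; exact hc i (by omega)

theorem URun.trans {B : ℕ} {s s' s'' : T} {n m : ℕ} (h : URun B s n s')
    (h' : URun B s' m s'') : URun B s (m + n) s'' := by
  obtain ⟨ha, hc⟩ := h
  obtain ⟨ha', hc'⟩ := h'
  refine ⟨by rw [Function.iterate_add_apply, ha, ha'], fun i hi => ?_⟩
  by_cases hin : i ≤ n
  · exact hc i hin
  · obtain ⟨j, rfl⟩ : ∃ j, i = j + n := ⟨i - n, by omega⟩
    rw [Function.iterate_add_apply, ha]; exact hc' j (by omega)

theorem URun.one {B : ℕ} {s s' : T} (h2 : s.size ≤ B) (h : uStep s = s') (h3 : s'.size ≤ B) :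
    URun B s 1 s' :=
  URun.step h2 (h ▸ URun.refl (h ▸ h3))

theorem Eval.uRun {c : Code} {x y : T} {t : ℕ} (h : Eval c x y t) :
    ∀ (M : ℕ), c.enc.size + x.size + t + 20 ≤ M → ∀ (K S : T) (B : ℕ),
      K.size + S.size + (t + 1) * M ≤ B →
      ∃ m ≤ 4 * t, URun B (T.node (T.node (iRun c.enc) K) (T.node x S)) m
        (T.node K (T.node y S)) := by
  induction h with
  | id x =>
    intro M hM K S B hB
    have hx := T.size_pos x
    refine ⟨1, by omega, URun.one ?_ ?_ ?_⟩
    · simp only [T.size, iRun, Code.enc, T.unary] at *
      nlinarith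
    · simp [uStep, iRun, Code.enc, T.unary]
    · simp only [T.size, iRun, Code.enc, T.unary] at *
      nlinarith
  | leaf x =>
    intro M hM K S B hB
    refine ⟨1, by omega, URun.one ?_ ?_ ?_⟩
    · simp only [T.size, iRun, Code.enc, T.unary] at *
      nlinarith
    · simp [uStep, iRun, Code.enc, T.unary]
    · simp only [T.size, iRun, Code.enc, T.unary] at *
      nlinarith
  | fst x =>
    intro M hM K S B hB
    have hx := T.size_pos x
    have hl := T.size_left_le x
    refine ⟨1, by omega, URun.one ?_ ?_ ?_⟩
    · simp only [T.size, iRun, Code.enc, T.unary] at *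
      nlinarith
    · simp [uStep, iRun, Code.enc, T.unary]
    · simp only [T.size, iRun, Code.enc, T.unary] at *
      nlinarith
  | snd x =>
    intro M hM K S B hB
    have hx := T.size_pos x
    have hl := T.size_right_le x
    refine ⟨1, by omega, URun.one ?_ ?_ ?_⟩
    · simp only [T.size, iRun, Code.enc, T.unary] at *
      nlinarith
    · simp [uStep, iRun, Code.enc, T.unary]
    · simp only [T.size, iRun, Code.enc, T.unary] at *
      nlinarith
  | @pair f g x a b s t h1 h2 ih1 ih2 =>
    intro M hM K S B hB
    have ha := h1.size_le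
    have hb := h2.size_le
    have hE : (Code.pair f g).enc.size = f.enc.size + g.enc.size + 11 := by
      simp only [T.size, Code.enc, T.unary]; omega
    rw [hE] at hM
    have hMM : (s + t + 1 + 1) * M = (s + 1) * M + (t + 1) * M := by ring
    have hM1 : M ≤ (s + 1) * M := Nat.le_mul_of_pos_left _ (by omega)
    have hM2 : M ≤ (t + 1) * M := Nat.le_mul_of_pos_left _ (by omega)
    rw [hMM] at hB
    obtain ⟨m1, hm1, r1⟩ := ih1 M (by omega) (T.node (T.node (T.unary 1) g.enc) K)
      (T.node x S) B (by simp only [T.size, T.unary]; omega)
    obtain ⟨m2, hm2, r2⟩ := ih2 M (by omega) (T.node (T.node (T.unary 2) T.leaf) K)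
      (T.node a S) B (by simp only [T.size, T.unary]; omega)
    refine ⟨(1 + m2) + (1 + m1) + 1, by omega, URun.step ?_ ?_⟩
    · simp only [T.size, iRun, Code.enc, T.unary]; omega
    · have e1 : uStep (T.node (T.node (iRun (Code.pair f g).enc) K) (T.node x S)) =
          T.node (T.node (iRun f.enc) (T.node (T.node (T.unary 1) g.enc) K))
            (T.node x (T.node x S)) := by
        simp [uStep, iRun, Code.enc, T.unary]
      rw [e1]
      refine URun.trans (s' := T.node (T.node (iRun g.enc) (T.node (T.node (T.unary 2) T.leaf) K))
        (T.node x (T.node a S))) (URun.trans r1 (URun.one ?_ ?_ ?_)) (URun.trans r2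
          (URun.one ?_ ?_ ?_))
      · simp only [T.size, T.unary]; omega
      · simp [uStep, iRun, T.unary]
      · simp only [T.size, iRun, T.unary]; omega
      · simp only [T.size, T.unary]; omega
      · simp [uStep, T.unary]
      · simp only [T.size]; omega
  | @comp f g x y z s t h1 h2 ih1 ih2 =>
    intro M hM K S B hB
    have ha := h1.size_le
    have hb := h2.size_le
    have hE : (Code.comp f g).enc.size = f.enc.size + g.enc.size + 13 := by
      simp only [T.size, Code.enc, T.unary]; omega
    rw [hE] at hM
    have hMM : (s + t + 1 + 1) * M = (s + 1) * M + (t + 1) * M := by ring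
    have hM1 : M ≤ (s + 1) * M := Nat.le_mul_of_pos_left _ (by omega)
    have hM2 : M ≤ (t + 1) * M := Nat.le_mul_of_pos_left _ (by omega)
    rw [hMM] at hB
    obtain ⟨m1, hm1, r1⟩ := ih1 M (by omega) (T.node (iRun f.enc) K) S B
      (by simp only [T.size, T.unary, iRun]; omega)
    obtain ⟨m2, hm2, r2⟩ := ih2 M (by omega) K S B (by omega)
    refine ⟨m2 + m1 + 1, by omega, URun.step ?_ ?_⟩
    · simp only [T.size, iRun, Code.enc, T.unary]; omega
    · have e1 : uStep (T.node (T.node (iRun (Code.comp f g).enc) K) (T.node x S)) =
          T.node (T.node (iRun g.enc) (T.node (iRun f.enc) K)) (T.node x S) := by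
        simp [uStep, iRun, Code.enc, T.unary]
      rw [e1]
      exact r1.trans r2
  | @ite_leaf c f g x y s t h1 h2 ih1 ih2 =>
    intro M hM K S B hB
    have hb := h2.size_le
    have hE : (Code.ite c f g).enc.size = c.enc.size + f.enc.size + g.enc.size + 16 := by
      simp only [T.size, Code.enc, T.unary]; omega
    rw [hE] at hM
    have hMM : (s + t + 1 + 1) * M = (s + 1) * M + (t + 1) * M := by ring
    have hM1 : M ≤ (s + 1) * M := Nat.le_mul_of_pos_left _ (by omega)
    have hM2 : M ≤ (t + 1) * M := Nat.le_mul_of_pos_left _ (by omega)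
    rw [hMM] at hB
    obtain ⟨m1, hm1, r1⟩ := ih1 M (by omega)
      (T.node (T.node (T.unary 3) (T.node f.enc g.enc)) K) (T.node x S) B
      (by simp only [T.size, T.unary]; omega)
    obtain ⟨m2, hm2, r2⟩ := ih2 M (by omega) K S B (by omega)
    refine ⟨m2 + (1 + m1) + 1, by omega, URun.step ?_ ?_⟩
    · simp only [T.size, iRun, Code.enc, T.unary]; omega
    · have e1 : uStep (T.node (T.node (iRun (Code.ite c f g).enc) K) (T.node x S)) =
          T.node (T.node (iRun c.enc) (T.node (T.node (T.unary 3) (T.node f.enc g.enc)) K))
            (T.node x (T.node x S)) := by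
        simp [uStep, iRun, Code.enc, T.unary]
      rw [e1]
      refine URun.trans (URun.trans r1 (URun.one ?_ ?_ ?_)) r2
      · simp only [T.size, T.unary]; omega
      · simp [uStep, iRun, T.unary]
      · simp only [T.size, iRun, T.unary]; omega
  | @ite_node c f g x a b y s t h1 h2 ih1 ih2 =>
    intro M hM K S B hB
    have ha := h1.size_le
    have hb := h2.size_le
    have hE : (Code.ite c f g).enc.size = c.enc.size + f.enc.size + g.enc.size + 16 := by
      simp only [T.size, Code.enc, T.unary]; omega
    rw [hE] at hM
    have hMM : (s + t + 1 + 1) * M = (s + 1) * M + (t + 1) * M := by ring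
    have hM1 : M ≤ (s + 1) * M := Nat.le_mul_of_pos_left _ (by omega)
    have hM2 : M ≤ (t + 1) * M := Nat.le_mul_of_pos_left _ (by omega)
    rw [hMM] at hB
    obtain ⟨m1, hm1, r1⟩ := ih1 M (by omega)
      (T.node (T.node (T.unary 3) (T.node f.enc g.enc)) K) (T.node x S) B
      (by simp only [T.size, T.unary]; omega)
    obtain ⟨m2, hm2, r2⟩ := ih2 M (by omega) K S B (by omega)
    refine ⟨m2 + (1 + m1) + 1, by omega, URun.step ?_ ?_⟩
    · simp only [T.size, iRun, Code.enc, T.unary]; omega
    · have e1 : uStep (T.node (T.node (iRun (Code.ite c f g).enc) K) (T.node x S)) =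
          T.node (T.node (iRun c.enc) (T.node (T.node (T.unary 3) (T.node f.enc g.enc)) K))
            (T.node x (T.node x S)) := by
        simp [uStep, iRun, Code.enc, T.unary]
      rw [e1]
      refine URun.trans (URun.trans r1 (URun.one ?_ ?_ ?_)) r2
      · simp only [T.size, T.unary] at ha ⊢; omega
      · simp [uStep, iRun, T.unary]
      · simp only [T.size, iRun, T.unary]; omega
  | @loop_stop f x h =>
    intro M hM K S B hB
    have hx := T.size_pos x
    have hl := T.size_right_le x
    refine ⟨1, by omega, URun.one ?_ ?_ ?_⟩
    · simp only [T.size, iRun, Code.enc, T.unary] at *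
      nlinarith
    · simp [uStep, iRun, Code.enc, T.unary, h]
    · simp only [T.size, iRun, Code.enc, T.unary] at *
      nlinarith
  | @loop_step f x y z s t hx h1 h2 ih1 ih2 =>
    intro M hM K S B hB
    have ha := h1.size_le
    have hb := h2.size_le
    have hE : (Code.loop f).enc.size = f.enc.size + 16 := by
      simp only [T.size, Code.enc, T.unary]; omega
    have hMM : (s + t + 1 + 1) * M = (s + 1) * M + (t + 1) * M := by ring
    have hM1 : M ≤ (s + 1) * M := Nat.le_mul_of_pos_left _ (by omega)
    have hM2 : M ≤ (t + 1) * M := Nat.le_mul_of_pos_left _ (by omega)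
    rw [hMM] at hB
    obtain ⟨m1, hm1, r1⟩ := ih1 M (by omega) (T.node (iRun (Code.loop f).enc) K) S B
      (by simp only [T.size, T.unary, iRun, hE] at *; omega)
    obtain ⟨m2, hm2, r2⟩ := ih2 M (by omega) K S B (by omega)
    refine ⟨m2 + m1 + 1, by omega, URun.step ?_ ?_⟩
    · simp only [T.size, iRun, T.unary, hE] at *; omega
    · have e1 : uStep (T.node (T.node (iRun (Code.loop f).enc) K) (T.node x S)) =
          T.node (T.node (iRun f.enc) (T.node (iRun (Code.loop f).enc) K)) (T.node x S) := by
        simp [uStep, iRun, Code.enc, T.unary, tif, hx]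
      rw [e1]
      exact r1.trans r2

theorem uStep_final (n : ℕ) (V : T) : uStep^[n] (T.node T.leaf V) = T.node T.leaf V := by
  induction n with
  | zero => rfl
  | succ n ih => rw [Function.iterate_succ_apply', ih]; simp [uStep, T.unary]

/-- The guarded step: the state is replaced only if the new state is small. -/
def gStep (s : T) : T :=
  T.node s.left (if (uStep s.right).size ≤ s.left.len then uStep s.right else s.right)

theorem gStep_polyTime : PolyTime gStep := by
  have i := PolyTime.id
  refine i.left.node ?_
  have h1 := uStep_polyTime.comp i.right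
  refine (PolyTime.ifP (PolyDec.le (PolyNat.size h1) (PolyNat.len i.left)) h1 i.right).congr
    fun x => ?_
  by_cases h : (uStep x.right).size ≤ x.left.len <;> simp [h]

theorem gStep_iterate {B : ℕ} {s s' : T} {n : ℕ} (h : URun B s n s') :
    gStep^[n] (T.node (T.unary B) s) = T.node (T.unary B) s' := by
  obtain ⟨h1, h2⟩ := h
  have : ∀ i, i ≤ n → gStep^[i] (T.node (T.unary B) s) = T.node (T.unary B) (uStep^[i] s) := by
    intro i
    induction i with
    | zero => intro _; rfl
    | succ i ih =>
      intro hi
      rw [Function.iterate_succ_apply', ih (by omega), Function.iterate_succ_apply']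
      have := h2 (i + 1) hi
      rw [Function.iterate_succ_apply'] at this
      simp [gStep, this]
  rw [this n le_rfl, h1]

theorem gStep_size (i : ℕ) (s : T) (h : s.right.size ≤ s.left.len) :
    (gStep^[i] s).left = (if i = 0 then s.left else s.left) ∧
      (gStep^[i] s).right.size ≤ s.left.len := by
  induction i with
  | zero => simpa using h
  | succ i ih =>
    obtain ⟨h1, h2⟩ := ih
    rw [ite_self] at h1
    rw [Function.iterate_succ_apply']
    refine ⟨by simp [gStep, h1], ?_⟩
    simp only [gStep, h1, T.right_node]
    split_ifs with h3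
    · exact h3
    · exact h2

/-- The space allowed to the universal machine. -/
def uSpace (z : T) : ℕ :=
  2 + (z.right.right.len + 1) * (z.left.size + z.right.left.size + z.right.right.len + 20)

/-- The clocked universal function: on `node c (node x b)` it runs the program coded by `c` on
`x` with budget the length of `b`. -/
def simul (z : T) : T :=
  (gStep^[4 * z.right.right.len] (T.node (T.unary (uSpace z))
    (T.node (T.node (iRun z.left) T.leaf) (T.node z.right.left T.leaf)))).right.right.left

theorem simul_polyTime : PolyTime simul := by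
  have i := PolyTime.id
  have hb : PolyNat (fun z : T => z.right.right.len) := PolyNat.len i.right.right
  have hsp : PolyNat uSpace :=
    (PolyNat.const 2).add ((hb.add (PolyNat.const 1)).mul
      (((PolyNat.size i.left).add (PolyNat.size i.right.left)).add hb |>.add (PolyNat.const 20)))
  have hs : PolyTime (fun z => T.node (T.unary (uSpace z))
      (T.node (T.node (iRun z.left) T.leaf) (T.node z.right.left T.leaf))) :=
    hsp.node ((((PolyTime.const _).node i.left).node PolyTime.leaf).node
      (i.right.left.node PolyTime.leaf))
  have hN : PolyTime (fun z : T => T.unary (4 * z.right.right.len)) := (PolyNat.const 4).mul hb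
  have := PolyTime.iterate gStep_polyTime hN hs (by
    obtain ⟨k, hk⟩ := PolyTime.size_bound hsp
    obtain ⟨m, hm⟩ : PolyB (fun n => 2 * (n + 2) ^ k + 1) :=
      ((PolyB.const 2).mul ⟨k, fun n => le_rfl⟩).add (PolyB.const 1)
    refine ⟨m, fun z j _ => le_trans ?_ (hm z.size)⟩
    have h0 : (T.node (T.unary (uSpace z)) (T.node (T.node (iRun z.left) T.leaf)
        (T.node z.right.left T.leaf))).right.size ≤ (T.node (T.unary (uSpace z))
        (T.node (T.node (iRun z.left) T.leaf) (T.node z.right.left T.leaf))).left.len := by
      simp only [T.right_node, T.left_node, T.len_unary, uSpace, T.size, iRun, T.unary]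
      nlinarith
    obtain ⟨h1, h2⟩ := gStep_size j _ h0
    rw [ite_self] at h1
    have hk' := hk z
    have h3 : ∀ y : T, y.size ≤ y.left.size + y.right.size + 1 := by
      intro y; cases y <;> simp [T.size]
    have h4 := h3 (gStep^[j] (T.node (T.unary (uSpace z)) (T.node (T.node (iRun z.left) T.leaf)
        (T.node z.right.left T.leaf))))
    rw [h1] at h4
    simp only [T.left_node, T.len_unary, T.size_unary] at h2 h4 hk'
    beta_reduce
    omega)
  refine this.right.right.left.congr fun z => ?_
  simp only [simul, T.len_unary]

theorem simul_spec {c : Code} {x y : T} {t : ℕ} (h : Eval c x y t) {b : ℕ} (hb : t ≤ b) :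
    simul (T.node c.enc (T.node x (T.unary b))) = y := by
  have h1 := h.uRun (c.enc.size + x.size + b + 20) (by omega) T.leaf T.leaf
    (uSpace (T.node c.enc (T.node x (T.unary b)))) (by
      simp only [uSpace, T.right_node, T.left_node, T.len_unary, T.size]
      have : (t + 1) * (c.enc.size + x.size + b + 20) ≤ (b + 1) * (c.enc.size + x.size + b + 20) :=
        Nat.mul_le_mul_right _ (by omega)
      omega)
  obtain ⟨m, hm, hrun⟩ := h1
  have h2 : URun (uSpace (T.node c.enc (T.node x (T.unary b))))
      (T.node T.leaf (T.node y T.leaf)) (4 * b - m) (T.node T.leaf (T.node y T.leaf)) := by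
    refine ⟨uStep_final _ _, fun i _ => ?_⟩
    rw [uStep_final]
    have := hrun.2 m le_rfl
    rwa [hrun.1] at this
  have h3 := gStep_iterate (hrun.trans h2)
  rw [show 4 * b - m + m = 4 * b by omega] at h3
  simp only [simul, T.right_node, T.left_node, T.len_unary]
  rw [h3]
  simp

end Pool.Agent.H19
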